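import Mathlib

/-!
# Symmetric monoidal functors to super vector spaces

A `ℤ/2`-graded vector space over a field `K` of characteristic different from two is the same
thing as a vector space with an involution (the parity operator: `+1` on the even part and `-1` on
the odd part).  A symmetric monoidal functor from `C` to super vector spaces is hence the same
thing as a monoidal functor `F : C ⥤ ModuleCat K` together with a monoidal natural involution
`par` of `F` such that `F` sends the symmetry of `C` to the Koszul symmetry
`x ⊗ y ↦ (-1)^{|x||y|} y ⊗ x`, that is, to the composition of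
`(1 + par ⊗ 1 + 1 ⊗ par - par ⊗ par) / 2` with the usual symmetry.
-/

open CategoryTheory MonoidalCategory Functor.LaxMonoidal Functor.OplaxMonoidal ExactPairing

universe u v₁ u₁

namespace NCSuper

section Parity

variable {C : Type u₁} [Category.{v₁} C] {K : Type u} [Field K]

/-- `par` is the parity operator of a symmetric monoidal functor to super vector spaces whose
underlying monoidal functor to vector spaces is `F`. -/
structure IsParity [MonoidalCategory C] [BraidedCategory C] (F : C ⥤ ModuleCat.{u} K) [F.Monoidal]
    (par : F ⟶ F) : Prop where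
  /-- the parity operator is an involution -/
  sq : ∀ X : C, par.app X ≫ par.app X = 𝟙 (F.obj X)
  /-- the unit is even -/
  unit : ε F ≫ par.app (𝟙_ C) = ε F
  /-- the parity operator of a tensor product -/
  tensor : ∀ X Y : C, μ F X Y ≫ par.app (X ⊗ Y) = (par.app X ⊗ₘ par.app Y) ≫ μ F X Y
  /-- the symmetry is sent to the Koszul symmetry -/
  koszul : ∀ X Y : C, μ F X Y ≫ F.map (β_ X Y).hom =
    ((2⁻¹ : K) • (𝟙 (F.obj X ⊗ F.obj Y) + par.app X ▷ F.obj Y + F.obj X ◁ par.app Y -
      (par.app X ⊗ₘ par.app Y))) ≫ (β_ (F.obj X) (F.obj Y)).hom ≫ μ F Y X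

/-- The even projector `(1 + par) / 2`: the projection onto the even part along the odd part. -/
noncomputable def evenProj {F : C ⥤ ModuleCat.{u} K} (par : F ⟶ F) (X : C) : F.obj X ⟶ F.obj X :=
  (2⁻¹ : K) • (𝟙 (F.obj X) + par.app X)

/-- The statement `C⁺`: the even projector of `F(X)` is realised by an endomorphism of `X`. -/
def CPlus {F : C ⥤ ModuleCat.{u} K} (par : F ⟶ F) (X : C) : Prop :=
  ∃ p : X ⟶ X, F.map p = evenProj par X

/-- The even part of `F(X)`: the `+1`-eigenspace of the parity operator. -/
def evenPart {F : C ⥤ ModuleCat.{u} K} (par : F ⟶ F) (X : C) : Submodule K (F.obj X) :=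
  LinearMap.ker ((par.app X).hom - LinearMap.id)

/-- The odd part of `F(X)`: the `-1`-eigenspace of the parity operator. -/
def oddPart {F : C ⥤ ModuleCat.{u} K} (par : F ⟶ F) (X : C) : Submodule K (F.obj X) :=
  LinearMap.ker ((par.app X).hom + LinearMap.id)

/-- The dimension of the even part of `F(X)`. -/
noncomputable def evenDim {F : C ⥤ ModuleCat.{u} K} (par : F ⟶ F) (X : C) : ℕ :=
  Module.finrank K (evenPart par X)

/-- The dimension of the odd part of `F(X)`. -/
noncomputable def oddDim {F : C ⥤ ModuleCat.{u} K} (par : F ⟶ F) (X : C) : ℕ :=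
  Module.finrank K (oddPart par X)

/-- The endomorphism of `F(X)` induced by `f` preserves the even part. -/
theorem evenPart_stable {F : C ⥤ ModuleCat.{u} K} (par : F ⟶ F) {X : C} (f : X ⟶ X) :
    ∀ v ∈ evenPart par X, (F.map f).hom v ∈ evenPart par X := by
  intro v hv
  rw [evenPart, LinearMap.mem_ker, LinearMap.sub_apply, LinearMap.id_apply, sub_eq_zero] at hv ⊢
  have h := congrArg (fun g => g.hom v) (par.naturality f)
  simp only [ModuleCat.hom_comp, LinearMap.comp_apply] at h
  rw [h, hv]

/-- The endomorphism of `F(X)` induced by `f` preserves the odd part. -/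
theorem oddPart_stable {F : C ⥤ ModuleCat.{u} K} (par : F ⟶ F) {X : C} (f : X ⟶ X) :
    ∀ v ∈ oddPart par X, (F.map f).hom v ∈ oddPart par X := by
  intro v hv
  rw [oddPart, LinearMap.mem_ker, LinearMap.add_apply, LinearMap.id_apply,
    add_eq_zero_iff_eq_neg] at hv ⊢
  have h := congrArg (fun g => g.hom v) (par.naturality f)
  simp only [ModuleCat.hom_comp, LinearMap.comp_apply] at h
  rw [h, hv, map_neg]

/-- The endomorphism induced by `f` on the even part of `F(X)`. -/
def evenRes {F : C ⥤ ModuleCat.{u} K} (par : F ⟶ F) {X : C} (f : X ⟶ X) :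
    Module.End K (evenPart par X) := (F.map f).hom.restrict (evenPart_stable par f)

/-- The endomorphism induced by `f` on the odd part of `F(X)`. -/
def oddRes {F : C ⥤ ModuleCat.{u} K} (par : F ⟶ F) {X : C} (f : X ⟶ X) :
    Module.End K (oddPart par X) := (F.map f).hom.restrict (oddPart_stable par f)

/-- The even projector of `F(X)` is a `K`-linear combination of endomorphisms realised by
endomorphisms of `X`. -/
def SpanCPlus {F : C ⥤ ModuleCat.{u} K} (par : F ⟶ F) (X : C) : Prop :=
  evenProj par X ∈ Submodule.span K (Set.range fun f : X ⟶ X => F.map f)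

/-- The endomorphism `f` acts on the even and on the odd part of `F(X)` with coprime minimal
polynomials. -/
def Separates {F : C ⥤ ModuleCat.{u} K} (par : F ⟶ F) {X : C} (f : X ⟶ X) : Prop :=
  IsCoprime (minpoly K (evenRes par f)) (minpoly K (oddRes par f))

end Parity

section Trace

variable {C : Type u₁} [Category.{v₁} C]

/-- Powers (iterated compositions) of an endomorphism. -/
def iter {X : C} (f : X ⟶ X) : ℕ → (X ⟶ X)
  | 0 => 𝟙 X
  | n + 1 => f ≫ iter f n

/-- The categorical trace of an endomorphism of an object with a (right) dual. -/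
def catTrace [MonoidalCategory C] [BraidedCategory C] {X : C} [HasRightDual X] (f : X ⟶ X) :
    𝟙_ C ⟶ 𝟙_ C :=
  η_ X Xᘁ ≫ f ▷ Xᘁ ≫ (β_ X Xᘁ).hom ≫ ε_ X Xᘁ

/-- An endomorphism `f` of `X` is numerically trivial if the trace of `f ≫ g` vanishes for all
endomorphisms `g` of `X`. -/
def NumTrivial [MonoidalCategory C] [BraidedCategory C] [Preadditive C] {X : C} [HasRightDual X]
    (f : X ⟶ X) : Prop :=
  ∀ g : X ⟶ X, catTrace (f ≫ g) = 0

end Trace

end NCSuper
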