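import Mathlib

/-!
# The symmetric monoidal category of super vector spaces

Objects are `K`-vector spaces with an involution `par` (the parity operator, `+1` on the even
part and `-1` on the odd part; `char K ≠ 2`), morphisms are the linear maps commuting with the
parity operators (that is, the even linear maps), the tensor product is the tensor product over
`K` with parity operator `par ⊗ par`, and the symmetry is the Koszul symmetry
`x ⊗ y ↦ (-1)^{|x||y|} y ⊗ x`.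
-/

open CategoryTheory MonoidalCategory TensorProduct

universe u

namespace NCSign

/-- A super vector space over `K`: a vector space together with its parity operator. -/
structure SVect (K : Type u) [Field K] where
  /-- the underlying vector space -/
  V : ModuleCat.{u} K
  /-- the parity operator: `+1` on the even part, `-1` on the odd part -/
  par : V ⟶ V
  par_sq : par ≫ par = 𝟙 V

namespace SVect

variable {K : Type u} [Field K]

/-- Morphisms of super vector spaces: linear maps commuting with the parity operators. -/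
@[ext] structure Hom (X Y : SVect K) where
  /-- the underlying linear map -/
  f : X.V ⟶ Y.V
  comm : X.par ≫ f = f ≫ Y.par

instance : Category (SVect K) where
  Hom X Y := Hom X Y
  id X := ⟨𝟙 X.V, by simp⟩
  comp f g := ⟨f.f ≫ g.f, by rw [← Category.assoc, f.comm, Category.assoc, g.comm, Category.assoc]⟩

@[ext] theorem hom_ext {X Y : SVect K} {f g : X ⟶ Y} (h : f.f = g.f) : f = g := Hom.ext h

@[simp] theorem id_f (X : SVect K) : Hom.f (𝟙 X) = 𝟙 X.V := rfl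
@[simp] theorem comp_f {X Y Z : SVect K} (f : X ⟶ Y) (g : Y ⟶ Z) : (f ≫ g).f = f.f ≫ g.f := rfl

/-- The forgetful functor to vector spaces. -/
def forget (K : Type u) [Field K] : SVect K ⥤ ModuleCat.{u} K where
  obj X := X.V
  map f := f.f

instance : (forget K).Faithful where
  map_injective h := hom_ext h

@[simp] theorem forget_obj (X : SVect K) : (forget K).obj X = X.V := rfl
@[simp] theorem forget_map {X Y : SVect K} (f : X ⟶ Y) : (forget K).map f = f.f := rfl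

/-- Build an isomorphism from an isomorphism of underlying spaces. -/
def mkIso {X Y : SVect K} (e : X.V ≅ Y.V) (h : X.par ≫ e.hom = e.hom ≫ Y.par) : X ≅ Y where
  hom := ⟨e.hom, h⟩
  inv := ⟨e.inv, by rw [Iso.comp_inv_eq, Category.assoc, h, Iso.inv_hom_id_assoc]⟩
  hom_inv_id := hom_ext (by simp)
  inv_hom_id := hom_ext (by simp)

@[simp] theorem mkIso_hom_f {X Y : SVect K} (e : X.V ≅ Y.V) (h) :
    (mkIso (X := X) (Y := Y) e h).hom.f = e.hom := rfl
@[simp] theorem mkIso_inv_f {X Y : SVect K} (e : X.V ≅ Y.V) (h) :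
    (mkIso (X := X) (Y := Y) e h).inv.f = e.inv := rfl

theorem aux_tensor {A B A' B' : ModuleCat.{u} K} (p : A ⟶ A) (q : B ⟶ B) (p' : A' ⟶ A')
    (q' : B' ⟶ B') (f : A ⟶ A') (g : B ⟶ B') (hf : p ≫ f = f ≫ p') (hg : q ≫ g = g ≫ q') :
    (p ⊗ₘ q) ≫ (f ⊗ₘ g) = (f ⊗ₘ g) ≫ (p' ⊗ₘ q') := by
  rw [tensorHom_comp_tensorHom, tensorHom_comp_tensorHom, hf, hg]

theorem aux_left {A B B' : ModuleCat.{u} K} (p : A ⟶ A) (q : B ⟶ B)
    (q' : B' ⟶ B') (g : B ⟶ B') (hg : q ≫ g = g ≫ q') :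
    (p ⊗ₘ q) ≫ (A ◁ g) = (A ◁ g) ≫ (p ⊗ₘ q') := by
  rw [← id_tensorHom]
  exact aux_tensor p q p q' (𝟙 A) g (by simp) hg

theorem aux_right {A B A' : ModuleCat.{u} K} (p : A ⟶ A) (q : B ⟶ B)
    (p' : A' ⟶ A') (f : A ⟶ A') (hf : p ≫ f = f ≫ p') :
    (p ⊗ₘ q) ≫ (f ▷ B) = (f ▷ B) ≫ (p' ⊗ₘ q) := by
  rw [← tensorHom_id]
  exact aux_tensor p q p' q f (𝟙 B) hf (by simp)

theorem aux_leftUnitor {A : ModuleCat.{u} K} (p : A ⟶ A) :
    (𝟙 (𝟙_ (ModuleCat.{u} K)) ⊗ₘ p) ≫ (λ_ A).hom = (λ_ A).hom ≫ p := by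
  rw [id_tensorHom, leftUnitor_naturality]

theorem aux_rightUnitor {A : ModuleCat.{u} K} (p : A ⟶ A) :
    (p ⊗ₘ 𝟙 (𝟙_ (ModuleCat.{u} K))) ≫ (ρ_ A).hom = (ρ_ A).hom ≫ p := by
  rw [tensorHom_id, rightUnitor_naturality]

/-- The tensor product of super vector spaces. -/
def tObj (X Y : SVect K) : SVect K := ⟨X.V ⊗ Y.V, X.par ⊗ₘ Y.par, by
    rw [tensorHom_comp_tensorHom, X.par_sq, Y.par_sq, id_tensorHom_id]⟩

/-- The unit: the ground field, purely even. -/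
def tUnit (K : Type u) [Field K] : SVect K := ⟨𝟙_ (ModuleCat.{u} K), 𝟙 _, by simp⟩

instance : MonoidalCategoryStruct (SVect K) where
  tensorObj X Y := tObj X Y
  whiskerLeft X _ _ f := ⟨X.V ◁ f.f, aux_left _ _ _ _ f.comm⟩
  whiskerRight f Y := ⟨f.f ▷ Y.V, aux_right _ _ _ _ f.comm⟩
  tensorHom f g := ⟨f.f ⊗ₘ g.f, aux_tensor _ _ _ _ _ _ f.comm g.comm⟩
  tensorUnit := tUnit K
  associator X Y Z := mkIso (α_ X.V Y.V Z.V) (associator_naturality X.par Y.par Z.par)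
  leftUnitor X := mkIso (λ_ X.V) (aux_leftUnitor X.par)
  rightUnitor X := mkIso (ρ_ X.V) (aux_rightUnitor X.par)

theorem tensor_V (X Y : SVect K) : (X ⊗ Y).V = (X.V ⊗ Y.V : ModuleCat.{u} K) := rfl
theorem tensor_par (X Y : SVect K) : (X ⊗ Y).par = X.par ⊗ₘ Y.par := rfl
theorem unit_V : (𝟙_ (SVect K)).V = 𝟙_ (ModuleCat.{u} K) := rfl
theorem unit_par : (𝟙_ (SVect K)).par = 𝟙 (𝟙_ (ModuleCat.{u} K)) := rfl
theorem whiskerLeft_f (X : SVect K) {Y Z : SVect K} (f : Y ⟶ Z) : (X ◁ f).f = X.V ◁ f.f := rfl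
theorem whiskerRight_f {X Y : SVect K} (f : X ⟶ Y) (Z : SVect K) : (f ▷ Z).f = f.f ▷ Z.V := rfl
theorem tensorHom_f {X Y X' Y' : SVect K} (f : X ⟶ Y) (g : X' ⟶ Y') :
    (f ⊗ₘ g).f = f.f ⊗ₘ g.f := rfl
theorem associator_hom_f (X Y Z : SVect K) : (α_ X Y Z).hom.f = (α_ X.V Y.V Z.V).hom := rfl
theorem associator_inv_f (X Y Z : SVect K) : (α_ X Y Z).inv.f = (α_ X.V Y.V Z.V).inv := rfl
theorem leftUnitor_hom_f (X : SVect K) : (λ_ X).hom.f = (λ_ X.V).hom := rfl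
theorem leftUnitor_inv_f (X : SVect K) : (λ_ X).inv.f = (λ_ X.V).inv := rfl
theorem rightUnitor_hom_f (X : SVect K) : (ρ_ X).hom.f = (ρ_ X.V).hom := rfl
theorem rightUnitor_inv_f (X : SVect K) : (ρ_ X).inv.f = (ρ_ X.V).inv := rfl

instance : MonoidalCategory (SVect K) :=
  Monoidal.induced (forget K)
    { μIso := fun X Y => Iso.refl (X.V ⊗ Y.V : ModuleCat.{u} K)
      whiskerLeft_eq := fun X Y₁ Y₂ f => by
        change X.V ◁ f.f = 𝟙 (X.V ⊗ Y₁.V) ≫ (X.V ◁ f.f) ≫ 𝟙 (X.V ⊗ Y₂.V)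
        rw [Category.comp_id, Category.id_comp]
      whiskerRight_eq := fun {Y₁ Y₂} f X => by
        change f.f ▷ X.V = 𝟙 (Y₁.V ⊗ X.V) ≫ (f.f ▷ X.V) ≫ 𝟙 (Y₂.V ⊗ X.V)
        rw [Category.comp_id, Category.id_comp]
      tensorHom_eq := fun {X₁ Y₁ X₂ Y₂} f g => by
        change f.f ⊗ₘ g.f = 𝟙 (X₁.V ⊗ X₂.V) ≫ (f.f ⊗ₘ g.f) ≫ 𝟙 (Y₁.V ⊗ Y₂.V)
        rw [Category.comp_id, Category.id_comp]
      εIso := Iso.refl (𝟙_ (ModuleCat.{u} K))
      associator_eq := fun X Y Z => by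
        change (α_ X.V Y.V Z.V).hom = (𝟙 ((X.V ⊗ Y.V) ⊗ Z.V) ≫ (𝟙 (X.V ⊗ Y.V) ⊗ₘ 𝟙 Z.V)) ≫
          (α_ X.V Y.V Z.V).hom ≫ ((𝟙 X.V ⊗ₘ 𝟙 (Y.V ⊗ Z.V)) ≫ 𝟙 (X.V ⊗ Y.V ⊗ Z.V))
        rw [id_tensorHom_id, id_tensorHom_id, Category.id_comp, Category.id_comp,
          Category.comp_id, Category.comp_id]
      leftUnitor_eq := fun X => by
        change (λ_ X.V).hom = (𝟙 (𝟙_ _ ⊗ X.V) ≫ (𝟙 (𝟙_ _) ⊗ₘ 𝟙 X.V)) ≫ (λ_ X.V).hom
        rw [id_tensorHom_id, Category.id_comp, Category.id_comp]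
      rightUnitor_eq := fun X => by
        change (ρ_ X.V).hom = (𝟙 (X.V ⊗ 𝟙_ _) ≫ (𝟙 X.V ⊗ₘ 𝟙 (𝟙_ _))) ≫ (ρ_ X.V).hom
        rw [id_tensorHom_id, Category.id_comp, Category.id_comp] }

/-! ### The Koszul symmetry -/

/-- The Koszul sign operator `x ⊗ y ↦ (-1)^{|x||y|} x ⊗ y`, i.e.
`(1 + par ⊗ 1 + 1 ⊗ par - par ⊗ par) / 2`. -/
noncomputable def ksign {V W : Type u} [AddCommGroup V] [Module K V] [AddCommGroup W] [Module K W]
    (p : V →ₗ[K] V) (q : W →ₗ[K] W) : V ⊗[K] W →ₗ[K] V ⊗[K] W :=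
  (2⁻¹ : K) • (LinearMap.id + TensorProduct.map p LinearMap.id + TensorProduct.map LinearMap.id q
    - TensorProduct.map p q)

/-- The Koszul symmetry `x ⊗ y ↦ (-1)^{|x||y|} y ⊗ x` on underlying spaces. -/
noncomputable def kz (X Y : SVect K) : (X.V ⊗ Y.V : ModuleCat.{u} K) ⟶ (Y.V ⊗ X.V : ModuleCat.{u} K) :=
  ModuleCat.ofHom ((TensorProduct.comm K X.V Y.V).toLinearMap ∘ₗ ksign X.par.hom Y.par.hom)

theorem comm_ksign_tmul {V W : Type u} [AddCommGroup V] [Module K V] [AddCommGroup W] [Module K W]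
    (p : V →ₗ[K] V) (q : W →ₗ[K] W) (x : V) (y : W) :
    (TensorProduct.comm K V W) (ksign p q (x ⊗ₜ y)) = (2⁻¹ : K) • (y ⊗ₜ[K] x + y ⊗ₜ[K] p x
      + q y ⊗ₜ[K] x - q y ⊗ₜ[K] p x) := by
  simp [ksign, smul_add, smul_sub]

theorem kz_tmul (X Y : SVect K) (x : X.V) (y : Y.V) :
    (kz X Y).hom (x ⊗ₜ y) = (2⁻¹ : K) • (y ⊗ₜ[K] x + y ⊗ₜ[K] X.par.hom x
      + Y.par.hom y ⊗ₜ[K] x - Y.par.hom y ⊗ₜ[K] X.par.hom x) :=
  comm_ksign_tmul X.par.hom Y.par.hom x y

theorem par_par (X : SVect K) (x : X.V) : X.par.hom (X.par.hom x) = x := by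
  have := congrArg (fun f => f.hom x) X.par_sq
  simpa using this

theorem comm_apply {X Y : SVect K} (f : X ⟶ Y) (x : X.V) :
    f.f.hom (X.par.hom x) = Y.par.hom (f.f.hom x) := by
  have := congrArg (fun f => f.hom x) f.comm
  simpa using this

theorem kz_par (X Y : SVect K) : (X.par ⊗ₘ Y.par) ≫ kz X Y = kz X Y ≫ (Y.par ⊗ₘ X.par) := by
  apply ModuleCat.MonoidalCategory.tensor_ext
  intro x y
  simp only [ModuleCat.hom_comp, LinearMap.comp_apply, ModuleCat.MonoidalCategory.tensorHom_tmul,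
    kz_tmul, map_smul, map_add, map_sub]

variable [CharZero K]

theorem kz_kz (X Y : SVect K) : kz X Y ≫ kz Y X = 𝟙 (X.V ⊗ Y.V) := by
  apply ModuleCat.MonoidalCategory.tensor_ext
  intro x y
  simp only [ModuleCat.hom_comp, LinearMap.comp_apply, kz_tmul, map_smul, map_add, map_sub,
    par_par, ModuleCat.hom_id, LinearMap.id_apply]
  have h2 : (2 : K) ≠ 0 := two_ne_zero
  have h4 : (2⁻¹ : K) * 2⁻¹ * 4 = 1 := by field_simp; norm_num
  simp only [← smul_add, ← smul_sub, smul_smul]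
  rw [show (x ⊗ₜ[K] y : X.V ⊗[K] Y.V) = (2⁻¹ * 2⁻¹ * 4 : K) • (x ⊗ₜ[K] y) from by rw [h4, one_smul]]
  module

/-- The Koszul symmetry as an isomorphism of super vector spaces. -/
noncomputable def braid (X Y : SVect K) : X ⊗ Y ≅ Y ⊗ X :=
  mkIso (X := X ⊗ Y) (Y := Y ⊗ X) ⟨kz X Y, kz Y X, kz_kz X Y, kz_kz Y X⟩ (kz_par X Y)

omit [CharZero K] in
theorem kz_right (X : SVect K) {Y Z : SVect K} (f : Y ⟶ Z) :
    X.V ◁ f.f ≫ kz X Z = kz X Y ≫ f.f ▷ X.V := by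
  apply ModuleCat.MonoidalCategory.tensor_ext
  intro x y
  simp only [ModuleCat.hom_comp, LinearMap.comp_apply, ModuleCat.MonoidalCategory.whiskerLeft_apply,
    kz_tmul, map_smul, map_add, map_sub, ModuleCat.MonoidalCategory.whiskerRight_apply, comm_apply]

omit [CharZero K] in
theorem kz_left {X Y : SVect K} (f : X ⟶ Y) (Z : SVect K) :
    f.f ▷ Z.V ≫ kz Y Z = kz X Z ≫ Z.V ◁ f.f := by
  apply ModuleCat.MonoidalCategory.tensor_ext
  intro x y
  simp only [ModuleCat.hom_comp, LinearMap.comp_apply, ModuleCat.MonoidalCategory.whiskerLeft_apply,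
    kz_tmul, map_smul, map_add, map_sub, ModuleCat.MonoidalCategory.whiskerRight_apply, comm_apply]

theorem hex_aux {V W U : Type u} [AddCommGroup V] [Module K V] [AddCommGroup W] [Module K W]
    [AddCommGroup U] [Module K U] (p : V →ₗ[K] V) (q : W →ₗ[K] W) (r : U →ₗ[K] U)
    (hp : ∀ x, p (p x) = x) (x : V) (y : W) (z : U) :
    (TensorProduct.assoc K W U V) ((TensorProduct.comm K V (W ⊗[K] U))
      (ksign p (TensorProduct.map q r) (x ⊗ₜ[K] (y ⊗ₜ[K] z)))) =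
    (LinearMap.lTensor W ((TensorProduct.comm K V U).toLinearMap ∘ₗ ksign p r))
      ((TensorProduct.assoc K W V U)
        (((TensorProduct.comm K V W) (ksign p q (x ⊗ₜ[K] y))) ⊗ₜ[K] z)) := by
  rw [comm_ksign_tmul, comm_ksign_tmul]
  simp only [map_smul, map_add, map_sub, ← TensorProduct.smul_tmul', TensorProduct.add_tmul,
    TensorProduct.sub_tmul, TensorProduct.assoc_tmul, LinearMap.lTensor_tmul,
    LinearMap.comp_apply, LinearEquiv.coe_coe, comm_ksign_tmul, TensorProduct.map_tmul,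
    TensorProduct.tmul_smul, TensorProduct.tmul_add, TensorProduct.tmul_sub, hp]
  module

theorem hex_aux' {V W U : Type u} [AddCommGroup V] [Module K V] [AddCommGroup W] [Module K W]
    [AddCommGroup U] [Module K U] (p : V →ₗ[K] V) (q : W →ₗ[K] W) (r : U →ₗ[K] U)
    (hr : ∀ x, r (r x) = x) (x : V) (y : W) (z : U) :
    (TensorProduct.assoc K U V W).symm ((TensorProduct.comm K (V ⊗[K] W) U)
      (ksign (TensorProduct.map p q) r ((x ⊗ₜ[K] y) ⊗ₜ[K] z))) =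
    (LinearMap.rTensor W ((TensorProduct.comm K V U).toLinearMap ∘ₗ ksign p r))
      ((TensorProduct.assoc K V U W).symm
        (x ⊗ₜ[K] ((TensorProduct.comm K W U) (ksign q r (y ⊗ₜ[K] z))))) := by
  rw [comm_ksign_tmul, comm_ksign_tmul]
  simp only [map_smul, map_add, map_sub, ← TensorProduct.smul_tmul', TensorProduct.add_tmul,
    TensorProduct.sub_tmul, TensorProduct.assoc_symm_tmul, LinearMap.rTensor_tmul,
    LinearMap.comp_apply, LinearEquiv.coe_coe, comm_ksign_tmul, TensorProduct.map_tmul,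
    TensorProduct.tmul_smul, TensorProduct.tmul_add, TensorProduct.tmul_sub, hr]
  module

theorem kz_hex (X Y Z : SVect K) :
    (α_ X.V Y.V Z.V).hom ≫ kz X (Y ⊗ Z) ≫ (α_ Y.V Z.V X.V).hom =
      (kz X Y) ▷ Z.V ≫ (α_ Y.V X.V Z.V).hom ≫ Y.V ◁ (kz X Z) := by
  apply ModuleCat.MonoidalCategory.tensor_ext₃'
  intro x y z
  exact hex_aux X.par.hom Y.par.hom Z.par.hom (par_par X) x y z

theorem kz_hex' (X Y Z : SVect K) :
    (α_ X.V Y.V Z.V).inv ≫ kz (X ⊗ Y) Z ≫ (α_ Z.V X.V Y.V).inv =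
      X.V ◁ (kz Y Z) ≫ (α_ X.V Z.V Y.V).inv ≫ (kz X Z) ▷ Y.V := by
  apply ModuleCat.MonoidalCategory.tensor_ext₃
  intro x y z
  exact hex_aux' X.par.hom Y.par.hom Z.par.hom (par_par Z) x y z

noncomputable instance : BraidedCategory (SVect K) where
  braiding := braid
  braiding_naturality_right X _ _ f := hom_ext (kz_right X f)
  braiding_naturality_left f Z := hom_ext (kz_left f Z)
  hexagon_forward X Y Z := hom_ext (kz_hex X Y Z)
  hexagon_reverse X Y Z := hom_ext (kz_hex' X Y Z)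

noncomputable instance : SymmetricCategory (SVect K) where
  symmetry X Y := hom_ext (kz_kz X Y)

omit [CharZero K] in
theorem braiding_hom_f [CharZero K] (X Y : SVect K) : (β_ X Y).hom.f = kz X Y := rfl

end SVect

end NCSign
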