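import Mathlib
import Pool.Agent.Lib_MP_8f22fa_ag.SVect

/-!
Categorical traces and partial traces and their images under symmetric monoidal functors.
-/

open CategoryTheory MonoidalCategory Functor.LaxMonoidal Functor.OplaxMonoidal Functor.Monoidal
open BraidedCategory ExactPairing

universe v₁ v₂ u₁ u₂

namespace NCSign

section General

variable {C : Type u₁} [Category.{v₁} C] [MonoidalCategory C] [BraidedCategory C]

/-- The categorical trace of an endomorphism of an object with a (right) dual. -/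
def catTrace {X : C} [HasRightDual X] (f : X ⟶ X) : 𝟙_ C ⟶ 𝟙_ C :=
  η_ X Xᘁ ≫ f ▷ Xᘁ ≫ (β_ X Xᘁ).hom ≫ ε_ X Xᘁ

/-- The partial trace of an endomorphism of `X ⊗ Y` over `Y`. -/
def parTrace {X Y : C} [HasRightDual Y] (g : X ⊗ Y ⟶ X ⊗ Y) : X ⟶ X :=
  (ρ_ X).inv ≫ X ◁ η_ Y Yᘁ ≫ (α_ X Y Yᘁ).inv ≫ g ▷ Yᘁ ≫ (α_ X Y Yᘁ).hom ≫
    X ◁ ((β_ Y Yᘁ).hom ≫ ε_ Y Yᘁ) ≫ (ρ_ X).hom

variable {D : Type u₂} [Category.{v₂} D] [MonoidalCategory D] [BraidedCategory D]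

/-- Trace with respect to given coevaluation and evaluation morphisms. -/
def trD {A B : D} (co : 𝟙_ D ⟶ A ⊗ B) (ev : B ⊗ A ⟶ 𝟙_ D) (b : A ⟶ A) : 𝟙_ D ⟶ 𝟙_ D :=
  co ≫ b ▷ B ≫ (β_ A B).hom ≫ ev

/-- Partial trace with respect to given coevaluation and evaluation morphisms. -/
def parD {X A B : D} (co : 𝟙_ D ⟶ A ⊗ B) (ev : B ⊗ A ⟶ 𝟙_ D) (g : X ⊗ A ⟶ X ⊗ A) : X ⟶ X :=
  (ρ_ X).inv ≫ X ◁ co ≫ (α_ X A B).inv ≫ g ▷ B ≫ (α_ X A B).hom ≫
    X ◁ ((β_ A B).hom ≫ ev) ≫ (ρ_ X).hom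

theorem parD_tensor {X A B : D} (co : 𝟙_ D ⟶ A ⊗ B) (ev : B ⊗ A ⟶ 𝟙_ D) (a : X ⟶ X)
    (b : A ⟶ A) : parD co ev (a ⊗ₘ b) = a ≫ (ρ_ X).inv ≫ X ◁ (trD co ev b) ≫ (ρ_ X).hom := by
  rw [parD, trD, MonoidalCategory.tensorHom_def]
  have key : ∀ {Z : D} (h : X ⊗ (A ⊗ B) ⟶ Z), (α_ X A B).inv ≫ a ▷ A ▷ B ≫ (α_ X A B).hom ≫ h =
      a ▷ (A ⊗ B) ≫ h := fun h => by simp
  simp only [comp_whiskerRight, whiskerLeft_comp, Category.assoc,
    whisker_assoc, Iso.inv_hom_id_assoc]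
  rw [key, whisker_exchange_assoc]
  simp

variable (F : C ⥤ D) [F.Braided]

/-- The image of the coevaluation. -/
def coF (X Y : C) [ExactPairing X Y] : 𝟙_ D ⟶ F.obj X ⊗ F.obj Y :=
  ε F ≫ F.map (η_ X Y) ≫ δ F X Y

/-- The image of the evaluation. -/
def evF (X Y : C) [ExactPairing X Y] : F.obj Y ⊗ F.obj X ⟶ 𝟙_ D :=
  μ F Y X ≫ F.map (ε_ X Y) ≫ η F

theorem snakeF (X Y : C) [ExactPairing X Y] :
    coF F X Y ▷ F.obj X ≫ (α_ _ _ _).hom ≫ F.obj X ◁ evF F X Y = (λ_ _).hom ≫ (ρ_ _).inv := by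
  have h := congrArg (fun f => ε F ▷ F.obj X ≫ μ F (𝟙_ C) X ≫ F.map f ≫ δ F X (𝟙_ C) ≫ F.obj X ◁ η F)
    (ExactPairing.evaluation_coevaluation X Y)
  simp only [Functor.map_comp, map_whiskerRight, map_whiskerLeft, map_associator,
    map_leftUnitor, map_rightUnitor_inv, Category.assoc] at h
  simp only [μ_δ_assoc] at h
  simp only [coF, evF, comp_whiskerRight, whiskerLeft_comp, Category.assoc]
  rw [h]
  simp

theorem map_catTrace {X : C} [HasRightDual X] (f : X ⟶ X) :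
    F.map (catTrace f) = η F ≫ trD (coF F X Xᘁ) (evF F X Xᘁ) (F.map f) ≫ ε F := by
  simp only [catTrace, trD, coF, evF, Functor.map_comp, map_whiskerRight, Category.assoc,
    Functor.map_braiding, η_ε_assoc, η_ε, Category.comp_id, δ_μ_assoc, μ_δ_assoc]

theorem map_parTrace {X Y : C} [HasRightDual Y] (g : X ⊗ Y ⟶ X ⊗ Y) :
    F.map (parTrace g) = parD (coF F Y Yᘁ) (evF F Y Yᘁ) (μ F X Y ≫ F.map g ≫ δ F X Y) := by
  simp only [parTrace, parD, coF, evF, Functor.map_comp, map_whiskerRight, map_whiskerLeft,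
    map_associator, map_associator_inv, map_rightUnitor, map_rightUnitor_inv, Category.assoc,
    Functor.map_braiding, whiskerLeft_comp, comp_whiskerRight, μ_δ_assoc, whiskerLeft_μ_δ_assoc]

end General

end NCSign
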