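import Mathlib
import Pool.Agent.Lib_MP_8f22fa_ag.Trace

/-!
The categorical trace in super vector spaces is the super-trace.
-/

open CategoryTheory MonoidalCategory TensorProduct
open BraidedCategory ExactPairing

universe u v₁ u₁

namespace NCSign

section Lin

variable {K : Type u} [Field K] {V W : Type u} [AddCommGroup V] [Module K V] [AddCommGroup W]
  [Module K W]

theorem snake_sum {c : V ⊗[K] W} {e : W ⊗[K] V →ₗ[K] K}
    (h : ∀ v : V, (LinearMap.lTensor V e) ((TensorProduct.assoc K V W V) (c ⊗ₜ[K] v)) = v ⊗ₜ[K] (1 : K))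
    {S : Finset (V × W)} (hS : c = ∑ i ∈ S, i.1 ⊗ₜ[K] i.2) (v : V) :
    ∑ i ∈ S, e (i.2 ⊗ₜ[K] v) • i.1 = v := by
  have h1 := congrArg (TensorProduct.rid K V) (h v)
  rw [hS, TensorProduct.sum_tmul, map_sum, map_sum, map_sum] at h1
  simpa using h1

theorem lin_finite {c : V ⊗[K] W} {e : W ⊗[K] V →ₗ[K] K}
    (h : ∀ v : V, (LinearMap.lTensor V e) ((TensorProduct.assoc K V W V) (c ⊗ₜ[K] v)) = v ⊗ₜ[K] (1 : K)) :
    Module.Finite K V := by
  classical
  obtain ⟨S, hS⟩ := TensorProduct.exists_finset c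
  refine ⟨⟨S.image Prod.fst, ?_⟩⟩
  rw [eq_top_iff]
  intro v _
  rw [← snake_sum h hS v]
  refine Submodule.sum_mem _ fun i hi => Submodule.smul_mem _ _ (Submodule.subset_span ?_)
  simp only [Finset.coe_image, Set.mem_image, Finset.mem_coe]
  exact ⟨i, hi, rfl⟩

theorem lin_trace {c : V ⊗[K] W} {e : W ⊗[K] V →ₗ[K] K}
    (h : ∀ v : V, (LinearMap.lTensor V e) ((TensorProduct.assoc K V W V) (c ⊗ₜ[K] v)) = v ⊗ₜ[K] (1 : K))
    {S : Finset (V × W)} (hS : c = ∑ i ∈ S, i.1 ⊗ₜ[K] i.2) (g : V →ₗ[K] V) :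
    LinearMap.trace K V g = ∑ i ∈ S, e (i.2 ⊗ₜ[K] g i.1) := by
  haveI := lin_finite h
  have hg : g = ∑ i ∈ S, (e ∘ₗ (TensorProduct.mk K W V i.2)).smulRight (g i.1) := by
    ext v
    have h1 := congrArg g (snake_sum h hS v)
    rw [map_sum] at h1
    rw [← h1]
    simp only [LinearMap.coe_sum, Finset.sum_apply, LinearMap.smulRight_apply, LinearMap.comp_apply,
      TensorProduct.mk_apply, map_smul]
  conv_lhs => rw [hg]
  rw [map_sum]
  refine Finset.sum_congr rfl fun i _ => ?_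
  rw [LinearMap.trace_smulRight]
  rfl

end Lin

section Super

variable {K : Type u} [Field K] [CharZero K]

open SVect

variable {A B : SVect K} (co : 𝟙_ (SVect K) ⟶ A ⊗ B) (ev : B ⊗ A ⟶ 𝟙_ (SVect K))
  (h : co ▷ A ≫ (α_ _ _ _).hom ≫ A ◁ ev = (λ_ A).hom ≫ (ρ_ A).inv)

/-- The coevaluation element. -/
def coElt : A.V ⊗[K] B.V := co.f.hom (1 : K)

/-- The evaluation form. -/
def evForm : B.V ⊗[K] A.V →ₗ[K] K := ev.f.hom

omit [CharZero K] in
include h in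
theorem snake_elt (v : A.V) : (LinearMap.lTensor A.V (evForm ev))
    ((TensorProduct.assoc K A.V B.V A.V) ((coElt co) ⊗ₜ[K] v)) = v ⊗ₜ[K] (1 : K) := by
  have h1 := congrArg (fun f => f.f.hom ((1 : K) ⊗ₜ[K] v)) h
  have h2 : ((λ_ A).hom ≫ (ρ_ A).inv).f.hom ((1 : K) ⊗ₜ[K] v) = v ⊗ₜ[K] (1 : K) := by
    change (ρ_ A.V).inv.hom ((λ_ A.V).hom.hom ((1 : K) ⊗ₜ[K] v)) = _
    rw [ModuleCat.MonoidalCategory.leftUnitor_hom_apply, one_smul,
      ModuleCat.MonoidalCategory.rightUnitor_inv_apply]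
  exact h1.trans h2

omit [CharZero K] in
theorem ev_par (y : B.V) (x : A.V) :
    evForm ev (B.par.hom y ⊗ₜ[K] A.par.hom x) = evForm ev (y ⊗ₜ[K] x) := by
  have h1 := congrArg (fun f => f.hom (y ⊗ₜ[K] x)) ev.comm
  exact h1

omit [CharZero K] in
theorem ev_par' (y : B.V) (x : A.V) :
    evForm ev (B.par.hom y ⊗ₜ[K] x) = evForm ev (y ⊗ₜ[K] A.par.hom x) := by
  rw [← ev_par ev y (A.par.hom x), par_par]

include h in
/-- The categorical trace is the super-trace. -/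
theorem trD_apply (b : A ⟶ A) : (trD co ev b).f.hom (1 : K) =
    LinearMap.trace K A.V (A.par.hom ∘ₗ b.f.hom) := by
  obtain ⟨S, hS⟩ := TensorProduct.exists_finset (coElt co)
  rw [lin_trace (snake_elt co ev h) hS]
  have h1 : (trD co ev b).f.hom (1 : K) =
      evForm ev ((kz A B).hom ((LinearMap.rTensor B.V b.f.hom) (coElt co))) := rfl
  rw [h1, hS, map_sum, map_sum, map_sum]
  refine Finset.sum_congr rfl fun i _ => ?_
  rw [LinearMap.rTensor_tmul]
  have h2 : (kz A B).hom ((b.f.hom i.1) ⊗ₜ[K] i.2) = (2⁻¹ : K) • (i.2 ⊗ₜ[K] (b.f.hom i.1) +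
      i.2 ⊗ₜ[K] A.par.hom (b.f.hom i.1) + B.par.hom i.2 ⊗ₜ[K] (b.f.hom i.1)
        - B.par.hom i.2 ⊗ₜ[K] A.par.hom (b.f.hom i.1)) := kz_tmul A B _ _
  rw [h2, map_smul, map_sub, map_add, map_add, ev_par, ev_par', LinearMap.comp_apply, smul_eq_mul]
  have h3 : (2 : K) ≠ 0 := two_ne_zero
  field_simp
  ring

omit [CharZero K] in
include h in
theorem svect_finite : Module.Finite K A.V := lin_finite (snake_elt co ev h)

omit [CharZero K] in
theorem scalar_apply (t : 𝟙_ (SVect K) ⟶ 𝟙_ (SVect K)) (A : SVect K) (v : A.V) :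
    ((ρ_ A).inv ≫ A ◁ t ≫ (ρ_ A).hom).f.hom v = (t.f.hom (1 : K) : K) • v := by
  have h1 : ((ρ_ A).inv ≫ A ◁ t ≫ (ρ_ A).hom).f.hom v =
    (ρ_ A.V).hom.hom ((A.V ◁ t.f).hom ((ρ_ A.V).inv.hom v)) := rfl
  rw [h1, ModuleCat.MonoidalCategory.rightUnitor_inv_apply]
  exact ModuleCat.MonoidalCategory.rightUnitor_hom_apply v (t.f.hom (1 : K))

end Super

end NCSign
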