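import Mathlib
import Pool.Agent.Lib_MP_8f22fa_ag.STrace

/-!
# The even Künneth projector and the statement `C⁺` for a super fibre functor
-/

open CategoryTheory MonoidalCategory

universe u v₁ u₁

namespace NCSign

namespace SVect

variable {K : Type u} [Field K]

section Pre

variable {X Y : SVect K}

instance : Zero (X ⟶ Y) := ⟨⟨0, by simp⟩⟩
instance : Add (X ⟶ Y) := ⟨fun f g => ⟨f.f + g.f, by
  rw [Preadditive.comp_add, Preadditive.add_comp, f.comm, g.comm]⟩⟩
instance : Neg (X ⟶ Y) := ⟨fun f => ⟨-f.f, by
  rw [Preadditive.comp_neg, Preadditive.neg_comp, f.comm]⟩⟩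
instance : Sub (X ⟶ Y) := ⟨fun f g => ⟨f.f - g.f, by
  rw [Preadditive.comp_sub, Preadditive.sub_comp, f.comm, g.comm]⟩⟩
instance : SMul ℕ (X ⟶ Y) := ⟨fun n f => ⟨n • f.f, by
  rw [Preadditive.comp_nsmul, Preadditive.nsmul_comp, f.comm]⟩⟩
instance : SMul ℤ (X ⟶ Y) := ⟨fun n f => ⟨n • f.f, by
  rw [Preadditive.comp_zsmul, Preadditive.zsmul_comp, f.comm]⟩⟩

theorem f_injective : Function.Injective (fun f : X ⟶ Y => f.f) := fun _ _ h => hom_ext h

instance : AddCommGroup (X ⟶ Y) :=
  f_injective.addCommGroup _ rfl (fun _ _ => rfl) (fun _ => rfl) (fun _ _ => rfl)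
    (fun _ _ => rfl) (fun _ _ => rfl)

@[simp] theorem add_f (f g : X ⟶ Y) : (f + g).f = f.f + g.f := rfl
@[simp] theorem sub_f (f g : X ⟶ Y) : (f - g).f = f.f - g.f := rfl
@[simp] theorem neg_f (f : X ⟶ Y) : (-f).f = -f.f := rfl
@[simp] theorem zero_f : (0 : X ⟶ Y).f = 0 := rfl

end Pre

instance : Preadditive (SVect K) where
  add_comp X Y Z f g h := hom_ext (by simp)
  comp_add X Y Z f g h := hom_ext (by simp)

/-- The underlying linear endomorphism of an endomorphism of a super vector space. -/
def lin {M N : SVect K} (f : M ⟶ N) : M.V →ₗ[K] N.V := f.f.hom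

/-- The even part: the `+1`-eigenspace of the parity operator. -/
def evenPart (M : SVect K) : Submodule K M.V := LinearMap.ker (M.par.hom - LinearMap.id)

/-- The odd part: the `-1`-eigenspace of the parity operator. -/
def oddPart (M : SVect K) : Submodule K M.V := LinearMap.ker (M.par.hom + LinearMap.id)

/-- The dimension of the even part. -/
noncomputable def evenDim (M : SVect K) : ℕ := Module.finrank K M.evenPart

/-- The dimension of the odd part. -/
noncomputable def oddDim (M : SVect K) : ℕ := Module.finrank K M.oddPart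

/-- The even projector `(1 + par) / 2`: the projection onto the even part along the odd part. -/
noncomputable def evenProj (M : SVect K) : M ⟶ M :=
  ⟨(2⁻¹ : K) • (𝟙 M.V + M.par), by
    rw [Linear.comp_smul, Linear.smul_comp, Preadditive.comp_add, Preadditive.add_comp]
    simp⟩

/-- The restriction of an endomorphism to the even part. -/
def evenRes {M : SVect K} (f : M ⟶ M) : M.evenPart →ₗ[K] M.evenPart :=
  (lin f).restrict (p := M.evenPart) (q := M.evenPart) (by
    intro v hv
    rw [evenPart, LinearMap.mem_ker, LinearMap.sub_apply, sub_eq_zero] at hv ⊢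
    change M.par.hom (f.f.hom v) = f.f.hom v
    rw [← comm_apply]
    exact congrArg _ hv)

/-- The restriction of an endomorphism to the odd part. -/
def oddRes {M : SVect K} (f : M ⟶ M) : M.oddPart →ₗ[K] M.oddPart :=
  (lin f).restrict (p := M.oddPart) (q := M.oddPart) (by
    intro v hv
    rw [oddPart, LinearMap.mem_ker, LinearMap.add_apply, LinearMap.id_apply,
      add_eq_zero_iff_eq_neg] at hv ⊢
    change M.par.hom (f.f.hom v) = -f.f.hom v
    rw [← comm_apply, ← map_neg]
    exact congrArg _ hv)

end SVect

section CPlus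

variable {C : Type u₁} [Category.{v₁} C] {K : Type u} [Field K]

/-- Powers (iterated compositions) of an endomorphism. -/
def iter {X : C} (f : X ⟶ X) : ℕ → (X ⟶ X)
  | 0 => 𝟙 X
  | n + 1 => f ≫ iter f n

/-- The statement `C⁺` for the object `X` with respect to the functor `F` to super vector spaces:
the even projector of `F(X)` is realised by an endomorphism of `X`. -/
def CPlus (F : C ⥤ SVect K) (X : C) : Prop := ∃ p : X ⟶ X, F.map p = (F.obj X).evenProj

/-- An endomorphism `f` of `X` is numerically trivial if the trace of `f ≫ g` vanishes for all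
endomorphisms `g` of `X`. -/
def NumTrivial [MonoidalCategory C] [BraidedCategory C] [Preadditive C] {X : C} [HasRightDual X]
    (f : X ⟶ X) : Prop :=
  ∀ g : X ⟶ X, catTrace (f ≫ g) = 0

end CPlus

end NCSign
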