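import Mathlib

/-!
Endomorphisms whose super-trace powers are constant.
-/

open Polynomial Module

namespace NCSign

section Criterion

variable {K : Type*} [Field K] {V : Type*} [AddCommGroup V] [Module K V]

/-- The projection onto the `+1`-part of an involution. -/
noncomputable def pp (e : Module.End K V) : Module.End K V := (2⁻¹ : K) • (1 + e)

/-- The projection onto the `-1`-part of an involution. -/
noncomputable def pm (e : Module.End K V) : Module.End K V := (2⁻¹ : K) • (1 - e)

variable [CharZero K]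

theorem pp_add_pm (e : Module.End K V) : pp e + pm e = 1 := by
  rw [pp, pm, ← smul_add]
  have : (1 : Module.End K V) + e + (1 - e) = (2 : K) • 1 := by
    rw [two_smul]; abel
  rw [this, smul_smul, inv_mul_cancel₀ (two_ne_zero), one_smul]

theorem pp_sub_pm (e : Module.End K V) : pp e - pm e = e := by
  rw [pp, pm, ← smul_sub]
  have : (1 : Module.End K V) + e - (1 - e) = (2 : K) • e := by
    rw [two_smul]; abel
  rw [this, smul_smul, inv_mul_cancel₀ (two_ne_zero), one_smul]

omit [CharZero K] in
theorem pm_eq (e : Module.End K V) : pm e = pp (-e) := by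
  rw [pp, pm, sub_eq_add_neg]

theorem pp_mul_pp {e : Module.End K V} (he : e * e = 1) : pp e * pp e = pp e := by
  rw [pp, smul_mul_smul_comm, mul_add, add_mul, add_mul, he, mul_one, one_mul, mul_one]
  have : (1 : Module.End K V) + e + (e + 1) = (2 : K) • (1 + e) := by
    rw [two_smul]; abel
  rw [this, smul_smul]
  congr 1
  field_simp

theorem pm_mul_pm {e : Module.End K V} (he : e * e = 1) : pm e * pm e = pm e := by
  rw [pm_eq]
  exact pp_mul_pp (by simpa using he)

theorem pp_mul_pm {e : Module.End K V} (he : e * e = 1) : pp e * pm e = 0 := by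
  have h := pp_add_pm e
  have : pp e * (pp e + pm e) = pp e := by rw [h, mul_one]
  rw [mul_add, pp_mul_pp he] at this
  simpa using this

theorem pm_mul_pp {e : Module.End K V} (he : e * e = 1) : pm e * pp e = 0 := by
  have h := pp_add_pm e
  have : pm e * (pp e + pm e) = pm e := by rw [h, mul_one]
  rw [mul_add, pm_mul_pm he] at this
  simpa using this

omit [CharZero K] in
theorem aeval_commute {e g : Module.End K V} (hg : g * e = e * g) (q : K[X]) :
    aeval g q * e = e * aeval g q := by
  have h1 : aeval g q ∈ Algebra.adjoin K {g} := aeval_mem_adjoin_singleton K g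
  have h2 : Algebra.adjoin K {g} ≤ Subalgebra.centralizer K {e} := by
    rw [Algebra.adjoin_le_iff]
    intro x hx
    rw [Set.mem_singleton_iff] at hx
    rw [hx, SetLike.mem_coe, Subalgebra.mem_centralizer_iff]
    intro y hy
    rw [Set.mem_singleton_iff] at hy
    rw [hy, hg]
  have h3 := h2 h1
  rw [Subalgebra.mem_centralizer_iff] at h3
  exact (h3 e rfl).symm

omit [CharZero K] in
theorem commute_pp {e P : Module.End K V} (h : P * e = e * P) : P * pp e = pp e * P := by
  rw [pp, mul_smul_comm, smul_mul_assoc, mul_add, add_mul, mul_one, one_mul, h]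

omit [CharZero K] in
theorem commute_pm {e P : Module.End K V} (h : P * e = e * P) : P * pm e = pm e * P := by
  rw [pm, mul_smul_comm, smul_mul_assoc, mul_sub, sub_mul, mul_one, one_mul, h]

omit [CharZero K] in
theorem idem_mul {p P : Module.End K V} (hp : p * p = p) (hP : P * P = P) (h : P * p = p * P) :
    (p * P) * (p * P) = p * P := by
  calc (p * P) * (p * P) = p * (P * p) * P := by simp only [mul_assoc]
    _ = (p * p) * (P * P) := by rw [h]; simp only [mul_assoc]
    _ = p * P := by rw [hp, hP]

variable [FiniteDimensional K V]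

omit [CharZero K] in
theorem trace_idem {P : Module.End K V} (hP : P * P = P) :
    LinearMap.trace K V P = (finrank K (LinearMap.range P) : K) := by
  have : IsIdempotentElem P := hP
  exact (LinearMap.IsIdempotentElem.isProj_range P this).trace

theorem idem_zero {P : Module.End K V} (hP : P * P = P) (h : LinearMap.trace K V P = 0) : P = 0 := by
  have h1 : IsIdempotentElem P := hP
  exact (LinearMap.IsIdempotentElem.trace_eq_zero_iff (R := K) (M := V) (e := P) h1).mp h

omit [FiniteDimensional K V] in
theorem trace_split (e P : Module.End K V) : LinearMap.trace K V (e * P) =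
    LinearMap.trace K V (pp e * P) - LinearMap.trace K V (pm e * P) := by
  rw [← map_sub, ← sub_mul, pp_sub_pm]

omit [FiniteDimensional K V] [CharZero K] in
theorem trace_poly {e g : Module.End K V} {c : K}
    (hc : ∀ n : ℕ, LinearMap.trace K V (e * g ^ (n + 1)) = c) (s : K[X]) :
    LinearMap.trace K V (e * aeval g (X * s)) = c * s.eval 1 := by
  induction s using Polynomial.induction_on' with
  | add p q hp hq => rw [mul_add, map_add, mul_add, map_add, hp, hq, eval_add, mul_add]
  | monomial n a =>
    rw [X_mul_monomial, aeval_monomial, eval_monomial, one_pow, mul_one]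
    rw [← Algebra.smul_def, mul_smul_comm, map_smul, hc, smul_eq_mul, mul_comm]

/-- Endomorphisms commuting with an involution `e` all of whose powers have the same
super-trace `c`. -/
theorem const_trace {e g : Module.End K V} (he : e * e = 1) (hg : g * e = e * g) {c : K}
    (hc : ∀ n : ℕ, LinearMap.trace K V (e * g ^ (n + 1)) = c) :
    ∃ m : ℤ, (m : K) = c ∧ m ≤ finrank K (LinearMap.range (pp e)) ∧
      -(finrank K (LinearMap.range (pm e)) : ℤ) ≤ m ∧
      (m = finrank K (LinearMap.range (pp e)) → ∃ h : ℚ[X], aeval g (h.map (algebraMap ℚ K)) = pp e) := by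
  -- factor the characteristic polynomial
  have hμ0 : g.charpoly ≠ 0 := (LinearMap.charpoly_monic g).ne_zero
  obtain ⟨μ1, hμ1, hnd1⟩ := Polynomial.exists_eq_pow_rootMultiplicity_mul_and_not_dvd g.charpoly hμ0 0
  set a := rootMultiplicity 0 g.charpoly with ha
  have hμ10 : μ1 ≠ 0 := by
    rintro rfl
    exact hnd1 (dvd_zero _)
  obtain ⟨r, hr, hnd2⟩ := Polynomial.exists_eq_pow_rootMultiplicity_mul_and_not_dvd μ1 hμ10 1
  set b := rootMultiplicity 1 μ1 with hb
  have hnd1' : ¬ (X - C (0 : K)) ∣ r := by
    intro h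
    apply hnd1
    rw [hr]
    exact Dvd.dvd.mul_left h _
  rw [C_0, sub_zero] at hnd1' hμ1
  rw [C_1] at hnd2 hr
  have hXirr : Irreducible (X : K[X]) := irreducible_X
  have hX1irr : Irreducible (X - 1 : K[X]) := by
    have := irreducible_X_sub_C (1 : K)
    rwa [C_1] at this
  have hcXr : IsCoprime (X : K[X]) r := (Irreducible.coprime_iff_not_dvd hXirr).mpr hnd1'
  have hcX1r : IsCoprime (X - 1 : K[X]) r := (Irreducible.coprime_iff_not_dvd hX1irr).mpr hnd2
  have hcXX1 : IsCoprime (X : K[X]) (X - 1) := ⟨1, -1, by ring⟩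
  have hzero : aeval g (X ^ (a + 1) * (X - 1) ^ (b + 1) * r) = 0 := by
    have h1 : X ^ (a + 1) * (X - 1) ^ (b + 1) * r = g.charpoly * (X * (X - 1)) := by
      rw [hμ1, hr]; ring
    rw [h1, map_mul, LinearMap.aeval_self_charpoly, zero_mul]
  -- idempotent at eigenvalue one
  have hc1 : IsCoprime (X ^ (a + 1) * r) ((X - 1) ^ (b + 1)) := by
    refine IsCoprime.mul_left ?_ ?_
    · exact IsCoprime.pow hcXX1
    · exact (IsCoprime.pow_left hcX1r).symm
  obtain ⟨u, v, huv⟩ := hc1
  set E1 : K[X] := u * (X ^ (a + 1) * r) with hE1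
  have hE1idem : aeval g E1 * aeval g E1 = aeval g E1 := by
    rw [← map_mul, ← sub_eq_zero, ← map_sub]
    have h1 : E1 * E1 - E1 = (X ^ (a + 1) * (X - 1) ^ (b + 1) * r) * (-(u * v)) := by
      have : E1 - 1 = - (v * (X - 1) ^ (b + 1)) := by linear_combination huv
      calc E1 * E1 - E1 = E1 * (E1 - 1) := by ring
        _ = _ := by rw [this, hE1]; ring
    rw [h1, map_mul, hzero, zero_mul]
  -- idempotent for the remaining eigenvalues
  have hc2 : IsCoprime (X ^ (a + 1) * (X - 1) ^ (b + 1)) r :=
    IsCoprime.mul_left (IsCoprime.pow_left hcXr) (IsCoprime.pow_left hcX1r)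
  obtain ⟨u', v', huv'⟩ := hc2
  set Er : K[X] := u' * (X ^ (a + 1) * (X - 1) ^ (b + 1)) with hEr
  have hEridem : aeval g Er * aeval g Er = aeval g Er := by
    rw [← map_mul, ← sub_eq_zero, ← map_sub]
    have h1 : Er * Er - Er = (X ^ (a + 1) * (X - 1) ^ (b + 1) * r) * (-(u' * v')) := by
      have : Er - 1 = - (v' * r) := by linear_combination huv'
      calc Er * Er - Er = Er * (Er - 1) := by ring
        _ = _ := by rw [this, hEr]; ring
    rw [h1, map_mul, hzero, zero_mul]
  have hE1tr : LinearMap.trace K V (e * aeval g E1) = c := by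
    have h1 : E1 = X * (u * (X ^ a * r)) := by rw [hE1]; ring
    have h2 : (u * (X ^ a * r)).eval 1 = 1 := by
      have := congrArg (eval 1) huv
      rw [hE1] at this
      simpa using this
    rw [h1, trace_poly hc, h2, mul_one]
  have hErtr : LinearMap.trace K V (e * aeval g Er) = 0 := by
    have h1 : Er = X * (u' * (X ^ a * (X - 1) ^ (b + 1))) := by rw [hEr]; ring
    have h2 : (u' * (X ^ a * (X - 1) ^ (b + 1))).eval 1 = 0 := by simp
    rw [h1, trace_poly hc, h2, mul_zero]
  set P := aeval g E1 with hP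
  set Q := aeval g Er with hQ
  have hPe : P * e = e * P := aeval_commute hg _
  have hQe : Q * e = e * Q := aeval_commute hg _
  have hpP := idem_mul (pp_mul_pp he) hE1idem (commute_pp hPe)
  have hmP := idem_mul (pm_mul_pm he) hE1idem (commute_pm hPe)
  have htp := trace_idem hpP
  have htm := trace_idem hmP
  set p : ℕ := finrank K (LinearMap.range (pp e * P)) with hp
  set q : ℕ := finrank K (LinearMap.range (pm e * P)) with hq
  have hple : p ≤ finrank K (LinearMap.range (pp e)) :=
    Submodule.finrank_mono (LinearMap.range_comp_le_range P (pp e))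
  have hqle : q ≤ finrank K (LinearMap.range (pm e)) :=
    Submodule.finrank_mono (LinearMap.range_comp_le_range P (pm e))
  have hcpq : c = (p : K) - (q : K) := by
    rw [← hE1tr, trace_split, htp, htm]
  refine ⟨(p : ℤ) - q, ?_, by omega, by omega, ?_⟩
  · rw [hcpq]; push_cast; ring
  intro hmax
  have hpd : p = finrank K (LinearMap.range (pp e)) := by omega
  have hq0 : q = 0 := by omega
  have hmP0 : pm e * P = 0 := idem_zero hmP (by rw [htm, hq0]; simp)
  have hppP : pp e * P = pp e := by
    have h1 : (pp e * (1 - P)) * (pp e * (1 - P)) = pp e * (1 - P) := by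
      apply idem_mul (pp_mul_pp he)
      · have h1 : IsIdempotentElem P := hE1idem
        exact h1.one_sub
      · rw [sub_mul, mul_sub, one_mul, mul_one, commute_pp hPe]
    have h2 : LinearMap.trace K V (pp e * (1 - P)) = 0 := by
      rw [mul_sub, mul_one, map_sub, htp, hpd, trace_idem (pp_mul_pp he), sub_self]
    have h3 := idem_zero h1 h2
    rw [mul_sub, mul_one, sub_eq_zero] at h3
    exact h3.symm
  have hPpp : P = pp e := by
    calc P = (pp e + pm e) * P := by rw [pp_add_pm, one_mul]
      _ = pp e := by rw [add_mul, hppP, hmP0, add_zero]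
  have hPQ : P * Q = 0 := by
    rw [hP, hQ, ← map_mul]
    have h1 : E1 * Er = (X ^ (a + 1) * (X - 1) ^ (b + 1) * r) * (u * u' * X ^ (a + 1)) := by
      rw [hE1, hEr]; ring
    rw [h1, map_mul, hzero, zero_mul]
  have hQ0 : Q = 0 := by
    have h1 : pp e * Q = 0 := by rw [← hPpp]; exact hPQ
    have h2 : pm e * Q = 0 := by
      apply idem_zero (idem_mul (pm_mul_pm he) hEridem (commute_pm hQe))
      have h3 := hErtr
      rw [trace_split, h1, map_zero, zero_sub, neg_eq_zero] at h3
      exact h3
    calc Q = (pp e + pm e) * Q := by rw [pp_add_pm, one_mul]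
      _ = 0 := by rw [add_mul, h1, h2, add_zero]
  have hnil : aeval g (X ^ (a + 1) * (X - 1) ^ (b + 1) : K[X]) = 0 := by
    have h1 : (X ^ (a + 1) * (X - 1) ^ (b + 1) : K[X]) =
        Er * (X ^ (a + 1) * (X - 1) ^ (b + 1)) + (X ^ (a + 1) * (X - 1) ^ (b + 1) * r) * v' := by
      have : (1 : K[X]) = Er + v' * r := huv'.symm
      calc (X ^ (a + 1) * (X - 1) ^ (b + 1) : K[X])
          = 1 * (X ^ (a + 1) * (X - 1) ^ (b + 1)) := by ring
        _ = (Er + v' * r) * (X ^ (a + 1) * (X - 1) ^ (b + 1)) := by rw [← this]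
        _ = _ := by ring
    rw [h1, map_add, map_mul, map_mul _ (X ^ (a + 1) * (X - 1) ^ (b + 1) * r), hzero,
      zero_mul, add_zero, ← hQ, hQ0, zero_mul]
  -- the rational polynomial
  set L := a + b + 2 with hL
  refine ⟨1 - (1 - X ^ L) ^ L, ?_⟩
  rw [← hPpp]
  have hmap : (1 - (1 - X ^ L) ^ L : ℚ[X]).map (algebraMap ℚ K) = (1 - (1 - X ^ L) ^ L : K[X]) := by
    simp
  rw [hmap, hP, ← sub_eq_zero, ← map_sub]
  have hd1 : (X ^ (a + 1) : K[X]) ∣ (1 - (1 - X ^ L) ^ L) - E1 := by
    apply dvd_sub
    · have h1 : (1 - (1 - X ^ L) : K[X]) ∣ 1 ^ L - (1 - X ^ L) ^ L := sub_dvd_pow_sub_pow 1 _ L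
      rw [one_pow, sub_sub_cancel] at h1
      exact (pow_dvd_pow X (by omega)).trans h1
    · rw [hE1]
      exact ⟨u * r, by ring⟩
  have hd2 : ((X - 1) ^ (b + 1) : K[X]) ∣ (1 - (1 - X ^ L) ^ L) - E1 := by
    have h1 : (1 - (1 - X ^ L) ^ L) - E1 = v * (X - 1) ^ (b + 1) - (1 - X ^ L) ^ L := by
      linear_combination -huv
    rw [h1]
    apply dvd_sub
    · exact Dvd.intro_left _ rfl
    · have h2 : (X - 1 : K[X]) ∣ 1 - X ^ L := by
        have h3 : (X - 1 : K[X]) ∣ X ^ L - 1 ^ L := sub_dvd_pow_sub_pow X 1 L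
        rw [one_pow] at h3
        have h4 : (1 - X ^ L : K[X]) = -(X ^ L - 1) := by ring
        rw [h4]
        exact (dvd_neg).mpr h3
      exact (pow_dvd_pow _ (by omega)).trans (pow_dvd_pow_of_dvd h2 L)
  have hcop : IsCoprime (X ^ (a + 1) : K[X]) ((X - 1) ^ (b + 1)) := IsCoprime.pow hcXX1
  obtain ⟨w, hw⟩ := hcop.mul_dvd hd1 hd2
  rw [hw, map_mul, hnil, zero_mul]

end Criterion

end NCSign
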