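import Mathlib

/-!
If the identity/zero pair lies in the `K`-span of a family of pairs of matrices then some
rational combination of the family has coprime characteristic polynomials.
-/

open Polynomial

namespace NCSign

section Generic

variable {K : Type*} [Field K] [CharZero K]
variable {n n' : Type*} [Fintype n] [DecidableEq n] [Fintype n'] [DecidableEq n']

open scoped Kronecker

/-- The Sylvester matrix of the operator `X ↦ A X - X A'`. -/
def syl {F : Type*} [CommRing F] (A : Matrix n n F) (A' : Matrix n' n' F) : Matrix (n × n') (n × n') F :=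
  A ⊗ₖ (1 : Matrix n' n' F) - (1 : Matrix n n F) ⊗ₖ A'.transpose

theorem kron_mulVec {F : Type*} [CommRing F] (A : Matrix n n F) (B : Matrix n' n' F)
    (v : n → F) (w : n' → F) :
    (A ⊗ₖ B).mulVec (fun p => v p.1 * w p.2) = fun p => (A.mulVec v) p.1 * (B.mulVec w) p.2 := by
  ext ⟨i, j⟩
  simp only [Matrix.mulVec, dotProduct, Matrix.kroneckerMap_apply, Fintype.sum_prod_type]
  rw [Finset.sum_mul_sum]
  refine Finset.sum_congr rfl fun a _ => Finset.sum_congr rfl fun b _ => ?_
  ring

theorem syl_det_eq_zero {F : Type*} [Field F] (A : Matrix n n F) (A' : Matrix n' n' F) (a : F)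
    (h : A.charpoly.eval a = 0) (h' : A'.charpoly.eval a = 0) : (syl A A').det = 0 := by
  have hev : ∀ {m : Type _} [Fintype m] [DecidableEq m] (N : Matrix m m F),
      N.charpoly.eval a = 0 → ∃ v : m → F, v ≠ 0 ∧ N.mulVec v = a • v := by
    intro m _ _ N hN
    rw [Matrix.eval_charpoly] at hN
    obtain ⟨v, hv, hv'⟩ := Matrix.exists_mulVec_eq_zero_iff.mpr hN
    refine ⟨v, hv, ?_⟩
    rw [Matrix.sub_mulVec] at hv'
    have h3 : (Matrix.scalar m a).mulVec v = a • v := by
      rw [Matrix.scalar_apply]
      ext i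
      simp [Matrix.mulVec_diagonal]
    rw [h3] at hv'
    exact (sub_eq_zero.mp hv').symm
  have hev' : ∃ w : n' → F, w ≠ 0 ∧ A'.transpose.mulVec w = a • w := by
    have h'' : A'.transpose.charpoly.eval a = 0 := by rw [Matrix.charpoly_transpose]; exact h'
    rw [Matrix.eval_charpoly] at h''
    obtain ⟨v, hv, hv'⟩ := Matrix.exists_mulVec_eq_zero_iff.mpr h''
    refine ⟨v, hv, ?_⟩
    rw [Matrix.sub_mulVec] at hv'
    have h3 : (Matrix.scalar n' a).mulVec v = a • v := by
      rw [Matrix.scalar_apply]
      ext i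
      simp [Matrix.mulVec_diagonal]
    rw [h3] at hv'
    exact (sub_eq_zero.mp hv').symm
  obtain ⟨v, hv, hv'⟩ := hev A h
  obtain ⟨w, hw, hw'⟩ := hev'
  rw [← Matrix.exists_mulVec_eq_zero_iff]
  refine ⟨fun p => v p.1 * w p.2, ?_, ?_⟩
  · intro h0
    obtain ⟨i, hi⟩ := Function.ne_iff.mp hv
    obtain ⟨j, hj⟩ := Function.ne_iff.mp hw
    have := congrFun h0 (i, j)
    simp only [Pi.zero_apply, mul_eq_zero] at this
    rcases this with h1 | h1
    · exact hi h1
    · exact hj h1
  · rw [syl, Matrix.sub_mulVec, kron_mulVec, kron_mulVec, hv', hw', Matrix.one_mulVec,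
      Matrix.one_mulVec]
    ext p
    simp only [Pi.sub_apply, Pi.smul_apply, smul_eq_mul, Pi.zero_apply]
    ring

theorem coprime_of_syl_det_ne_zero {F : Type*} [Field F] (A : Matrix n n F) (A' : Matrix n' n' F)
    (h : (syl A A').det ≠ 0) : IsCoprime A.charpoly A'.charpoly := by
  refine (Polynomial.isCoprime_iff_aeval_ne_zero_of_isAlgClosed F (AlgebraicClosure F)
    A.charpoly A'.charpoly).2 fun a => ?_
  by_contra hcon
  push Not at hcon
  obtain ⟨h1, h2⟩ := hcon
  apply h
  have hmap : syl (A.map (algebraMap F (AlgebraicClosure F)))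
      (A'.map (algebraMap F (AlgebraicClosure F))) =
      (syl A A').map (algebraMap F (AlgebraicClosure F)) := by
    ext ⟨i, j⟩ ⟨k, l⟩
    simp only [syl, Matrix.sub_apply, Matrix.kroneckerMap_apply, Matrix.map_apply,
      Matrix.transpose_apply, map_sub, map_mul, Matrix.one_apply]
    split_ifs <;> simp
  have hz := syl_det_eq_zero (A.map (algebraMap F (AlgebraicClosure F)))
    (A'.map (algebraMap F (AlgebraicClosure F))) a
    (by rw [Matrix.charpoly_map, Polynomial.eval_map_algebraMap]; exact h1)
    (by rw [Matrix.charpoly_map, Polynomial.eval_map_algebraMap]; exact h2)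
  rw [hmap] at hz
  have h5 : ((syl A A').map (algebraMap F (AlgebraicClosure F))).det =
      algebraMap F (AlgebraicClosure F) (syl A A').det := by
    rw [RingHom.map_det]; rfl
  rw [h5] at hz
  exact (map_eq_zero _).mp hz

theorem exists_rat_coprime {ι : Type*} [Fintype ι] (r : ι → Matrix n n K)
    (r' : ι → Matrix n' n' K) (c : ι → K) (h1 : ∑ i, c i • r i = 1) (h0 : ∑ i, c i • r' i = 0) :
    ∃ q : ι → ℚ, IsCoprime (∑ i, (q i : K) • r i).charpoly (∑ i, (q i : K) • r' i).charpoly := by
  classical
  set D : MvPolynomial ι K :=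
    (∑ i, (MvPolynomial.X i : MvPolynomial ι K) • (syl (r i) (r' i)).map MvPolynomial.C).det with hD
  have hev : ∀ x : ι → K, MvPolynomial.eval x D =
      (syl (∑ i, x i • r i) (∑ i, x i • r' i)).det := by
    intro x
    rw [hD, RingHom.map_det]
    congr 1
    ext ⟨i, j⟩ ⟨k, l⟩
    simp only [RingHom.mapMatrix_apply, Matrix.map_apply, Matrix.sum_apply, Matrix.smul_apply,
      smul_eq_mul, map_sum, map_mul, MvPolynomial.eval_X, MvPolynomial.eval_C, syl,
      Matrix.sub_apply, Matrix.kroneckerMap_apply, Matrix.transpose_apply]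
    rw [Finset.sum_mul, Finset.mul_sum, ← Finset.sum_sub_distrib]
    refine Finset.sum_congr rfl fun a _ => ?_
    ring
  have hDne : D ≠ 0 := by
    intro h
    have := hev c
    rw [h, map_zero, h1, h0] at this
    have h2 : syl (1 : Matrix n n K) (0 : Matrix n' n' K) = 1 := by
      rw [syl, Matrix.transpose_zero, Matrix.kronecker_zero, sub_zero, Matrix.one_kronecker_one]
    rw [h2, Matrix.det_one] at this
    exact zero_ne_one this
  have : ∃ x ∈ Set.pi Set.univ (fun _ : ι => Set.range ((↑) : ℚ → K)),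
      MvPolynomial.eval x D ≠ 0 := by
    by_contra hcon
    push Not at hcon
    apply hDne
    refine MvPolynomial.funext_set (fun _ : ι => Set.range ((↑) : ℚ → K)) (fun _ => ?_) ?_
    · exact Set.infinite_range_of_injective Rat.cast_injective
    · intro x hx
      rw [hcon x hx, map_zero]
  obtain ⟨x, hx, hx'⟩ := this
  have hx2 : ∀ i, ∃ q : ℚ, (q : K) = x i := fun i => hx i (Set.mem_univ i)
  choose q hq using hx2
  refine ⟨q, ?_⟩
  simp only [hq]
  apply coprime_of_syl_det_ne_zero
  rw [← hev]
  exact hx'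

end Generic

end NCSign
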