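import Mathlib

/-!
Linear algebra used for the super-trace criteria: log-derivative of `det (1 - t M)`,
rationality of coprime characteristic polynomials, idempotents with constant power traces.
-/

open Polynomial

namespace NCSign

section Jacobi

variable {R : Type*} [CommRing R] {n : Type*} [Fintype n] [DecidableEq n]

/-- Jacobi's formula for polynomial matrices. -/
theorem derivative_det (A : Matrix n n R[X]) :
    derivative A.det = (A.adjugate * A.map derivative).trace := by
  classical
  have h1 : ∀ j : n, (A.adjugate * A.map derivative) j j =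
      (A.updateCol j (fun i => derivative (A i j))).det := by
    intro j
    have := Matrix.cramer_apply A (fun i => derivative (A i j)) j
    rw [← this, Matrix.cramer_eq_adjugate_mulVec, Matrix.mulVec, Matrix.mul_apply]
    rfl
  rw [Matrix.trace]
  simp only [Matrix.diag_apply, h1]
  rw [Matrix.det_apply, derivative_sum]
  simp only [Matrix.det_apply]
  rw [Finset.sum_comm]
  refine Finset.sum_congr rfl fun σ _ => ?_
  rw [show derivative (Equiv.Perm.sign σ • ∏ i, A (σ i) i) =
      Equiv.Perm.sign σ • derivative (∏ i, A (σ i) i) from by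
    rcases Int.units_eq_one_or (Equiv.Perm.sign σ) with h | h <;> simp [h, Units.smul_def]]
  rw [← Finset.smul_sum, derivative_prod_finset]
  congr 1
  refine Finset.sum_congr rfl fun j _ => ?_
  rw [← Finset.mul_prod_erase Finset.univ _ (Finset.mem_univ j)]
  rw [Matrix.updateCol_self, mul_comm]
  congr 1
  refine Finset.prod_congr rfl fun i hi => ?_
  rw [Matrix.updateCol_ne (Finset.ne_of_mem_erase hi)]

/-- Coefficientwise form of the adjugate of `1 - X M`. -/
theorem adj_coeff (M : Matrix n n R) (k : ℕ) :
    ((1 - (X : R[X]) • M.map C).adjugate).map (fun p => p.coeff k) =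
      ∑ j ∈ Finset.range (k + 1), (M.charpolyRev.coeff j) • M ^ (k - j) := by
  set A : Matrix n n R[X] := 1 - (X : R[X]) • M.map C with hA
  have hmul : A.adjugate * A = M.charpolyRev • (1 : Matrix n n R[X]) := Matrix.adjugate_mul A
  have hB : A.adjugate = M.charpolyRev • (1 : Matrix n n R[X]) +
      (X : R[X]) • (A.adjugate * M.map C) := by
    rw [← hmul, hA]
    rw [mul_sub, mul_one, Matrix.mul_smul]
    abel
  have key0 : (A.adjugate).map (fun p => p.coeff 0) = (M.charpolyRev.coeff 0) • (1 : Matrix n n R) := by
    ext i j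
    have := congrFun (congrFun hB i) j
    simp only [Matrix.map_apply]
    rw [this]
    simp only [Matrix.add_apply, Matrix.smul_apply, smul_eq_mul, coeff_add, mul_coeff_zero,
      coeff_X_zero, zero_mul, add_zero]
    by_cases hij : i = j
    · subst hij; simp
    · simp [Matrix.one_apply_ne hij]
  have keyS : ∀ k, (A.adjugate).map (fun p => p.coeff (k + 1)) =
      (M.charpolyRev.coeff (k + 1)) • (1 : Matrix n n R) +
        ((A.adjugate).map (fun p => p.coeff k)) * M := by
    intro k
    ext i j
    have := congrFun (congrFun hB i) j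
    simp only [Matrix.map_apply]
    rw [this]
    simp only [Matrix.add_apply, Matrix.smul_apply, smul_eq_mul, coeff_add, coeff_X_mul]
    congr 1
    · by_cases hij : i = j
      · subst hij; simp
      · simp [Matrix.one_apply_ne hij]
    · simp only [Matrix.mul_apply, Matrix.map_apply, finsetSum_coeff, coeff_mul_C]
  induction k with
  | zero => simp [key0]
  | succ k ih =>
    rw [keyS, ih, Finset.sum_range_succ _ (k + 1), Finset.sum_mul, add_comm]
    congr 1
    · refine Finset.sum_congr rfl fun j hj => ?_
      rw [Finset.mem_range] at hj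
      rw [Matrix.smul_mul, ← pow_succ]
      congr 2
      omega
    · simp

/-- Newton's identities for the coefficients of `det (1 - X M)`. -/
theorem newton_charpolyRev (M : Matrix n n R) (k : ℕ) :
    ((k : R) + 1) * M.charpolyRev.coeff (k + 1) =
      -∑ j ∈ Finset.range (k + 1), M.charpolyRev.coeff j * (M ^ (k - j + 1)).trace := by
  have h := derivative_det (1 - (X : R[X]) • M.map C)
  have h' := congrArg (fun p => p.coeff k) h
  simp only [coeff_derivative] at h'
  change M.charpolyRev.coeff (k + 1) * _ = _ at h'
  rw [mul_comm, h']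
  have hder : (1 - (X : R[X]) • M.map C).map derivative = -(M.map C) := by
    ext i j
    simp only [Matrix.map_apply, Matrix.sub_apply, Matrix.smul_apply, smul_eq_mul, Matrix.neg_apply]
    by_cases hij : i = j
    · subst hij; simp
    · simp [Matrix.one_apply_ne hij]
  rw [hder, mul_neg, Matrix.trace_neg, coeff_neg]
  congr 1
  have h2 : ∀ B : Matrix n n R[X], ((B * M.map C).trace).coeff k =
      ((B.map (fun p => p.coeff k)) * M).trace := by
    intro B
    simp only [Matrix.trace, Matrix.diag_apply, Matrix.mul_apply, Matrix.map_apply,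
      finsetSum_coeff, coeff_mul_C]
  rw [h2, adj_coeff, Finset.sum_mul, Matrix.trace_sum]
  refine Finset.sum_congr rfl fun j _ => ?_
  rw [Matrix.smul_mul, Matrix.trace_smul, smul_eq_mul, pow_succ]

end Jacobi

section Rational

variable {K : Type*} [Field K] [CharZero K]
variable {n n' : Type*} [Fintype n] [DecidableEq n] [Fintype n'] [DecidableEq n']

/-- The generating series of the power traces. -/
noncomputable def trSeries (M : Matrix n n K) : PowerSeries K :=
  PowerSeries.mk fun k => (M ^ (k + 1)).trace

omit [CharZero K] in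
theorem deriv_charpolyRev (M : Matrix n n K) :
    PowerSeries.derivative K (M.charpolyRev : PowerSeries K) =
      -((M.charpolyRev : PowerSeries K) * trSeries M) := by
  ext k
  rw [PowerSeries.coeff_derivative, map_neg, PowerSeries.coeff_mul, Polynomial.coeff_coe]
  rw [mul_comm, newton_charpolyRev]
  congr 1
  rw [Finset.Nat.sum_antidiagonal_eq_sum_range_succ_mk]
  refine Finset.sum_congr rfl fun j _ => ?_
  simp [trSeries]

/-- The power series `Z = det(1 - t M) / det (1 - t M')` has rational coefficients if the
differences of the power traces are rational. -/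
theorem exists_rat_series (M : Matrix n n K) (M' : Matrix n' n' K)
    (h : ∀ k : ℕ, ∃ q : ℚ, (q : K) = (M ^ (k + 1)).trace - (M' ^ (k + 1)).trace) :
    ∃ z : ℕ → ℚ, (M.charpolyRev : PowerSeries K) =
      (PowerSeries.mk fun k => (z k : K)) * (M'.charpolyRev : PowerSeries K) := by
  set P : PowerSeries K := (M.charpolyRev : PowerSeries K) with hP
  set P' : PowerSeries K := (M'.charpolyRev : PowerSeries K) with hP'
  have hc : PowerSeries.constantCoeff P = 1 := by
    rw [hP, Polynomial.constantCoeff_coe, Polynomial.coeff_zero_eq_eval_zero]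
    exact Matrix.eval_charpolyRev
  have hc' : PowerSeries.constantCoeff P' = 1 := by
    rw [hP', Polynomial.constantCoeff_coe, Polynomial.coeff_zero_eq_eval_zero]
    exact Matrix.eval_charpolyRev
  have hP'0 : P' ≠ 0 := by
    intro h0
    rw [h0, map_zero] at hc'
    exact zero_ne_one hc'
  set Z : PowerSeries K := P * P'⁻¹ with hZ
  have hZP : P = Z * P' := by
    rw [hZ, mul_assoc, PowerSeries.inv_mul_cancel _ (by rw [hc']; exact one_ne_zero), mul_one]
  have hZ0 : PowerSeries.constantCoeff Z = 1 := by
    have := congrArg PowerSeries.constantCoeff hZP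
    rw [map_mul, hc, hc', mul_one] at this
    exact this.symm
  have hd : PowerSeries.derivative K Z = -(Z * (trSeries M - trSeries M')) := by
    have h1 : PowerSeries.derivative K P = -(P * trSeries M) := deriv_charpolyRev M
    have h2 : PowerSeries.derivative K P' = -(P' * trSeries M') := deriv_charpolyRev M'
    have h3 : PowerSeries.derivative K P =
        Z * PowerSeries.derivative K P' + P' * PowerSeries.derivative K Z := by
      conv_lhs => rw [hZP]
      rw [Derivation.leibniz]
      simp
    have h4 : P' * PowerSeries.derivative K Z = P' * (-(Z * (trSeries M - trSeries M'))) := by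
      have : P' * PowerSeries.derivative K Z =
          PowerSeries.derivative K P - Z * PowerSeries.derivative K P' := by rw [h3]; ring
      rw [this, h1, h2, hZP]
      ring
    exact mul_left_cancel₀ hP'0 h4
  clear_value Z
  have hrat : ∀ k, ∃ q : ℚ, (q : K) = PowerSeries.coeff k Z := by
    intro k
    induction k using Nat.strong_induction_on with
    | _ k ih =>
      rcases k with _ | k
      · exact ⟨1, by rw [PowerSeries.coeff_zero_eq_constantCoeff_apply, hZ0]; simp⟩
      · have h5 := congrArg (PowerSeries.coeff k) hd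
        rw [PowerSeries.coeff_derivative, map_neg, PowerSeries.coeff_mul] at h5
        have h6 : ∃ q : ℚ, (q : K) = ∑ p ∈ Finset.HasAntidiagonal.antidiagonal k,
            PowerSeries.coeff p.1 Z * PowerSeries.coeff p.2 (trSeries M - trSeries M') := by
          have : ∀ p ∈ Finset.HasAntidiagonal.antidiagonal k, ∃ q : ℚ, (q : K) =
              PowerSeries.coeff p.1 Z * PowerSeries.coeff p.2 (trSeries M - trSeries M') := by
            intro p hp
            rw [Finset.HasAntidiagonal.mem_antidiagonal] at hp
            obtain ⟨a, ha⟩ := ih p.1 (by omega)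
            obtain ⟨b, hb⟩ := h p.2
            refine ⟨a * b, ?_⟩
            rw [Rat.cast_mul, ha, hb]
            simp [trSeries]
          choose! f hf using this
          refine ⟨∑ p ∈ Finset.HasAntidiagonal.antidiagonal k, f p, ?_⟩
          rw [Rat.cast_sum]
          exact Finset.sum_congr rfl fun p hp => hf p hp
        obtain ⟨q, hq⟩ := h6
        refine ⟨-q / (k + 1), ?_⟩
        rw [← hq] at h5
        have hk : ((k : K) + 1) ≠ 0 := by exact_mod_cast Nat.succ_ne_zero k
        push_cast
        rw [← h5]
        field_simp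
  choose z hz using hrat
  refine ⟨z, ?_⟩
  rw [hZP]
  congr 1
  ext k
  simp [hz]

/-- A `ℚ`-linear retraction applied to the coefficients of a polynomial. -/
noncomputable def lam (l : K →ₗ[ℚ] ℚ) (p : K[X]) : ℚ[X] :=
  ∑ i ∈ Finset.range (p.natDegree + 1), monomial i (l (p.coeff i))

theorem lam_coeff (l : K →ₗ[ℚ] ℚ) (p : K[X]) (k : ℕ) : (lam l p).coeff k = l (p.coeff k) := by
  rw [lam, finsetSum_coeff]
  simp only [coeff_monomial]
  rw [Finset.sum_ite_eq' (Finset.range (p.natDegree + 1)) k (fun i => l (p.coeff i))]
  split_ifs with h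
  · rfl
  · rw [Finset.mem_range, not_lt] at h
    rw [coeff_eq_zero_of_natDegree_lt (by omega), map_zero]

theorem lam_natDegree (l : K →ₗ[ℚ] ℚ) (p : K[X]) : (lam l p).natDegree ≤ p.natDegree := by
  rw [natDegree_le_iff_coeff_eq_zero]
  intro k hk
  rw [lam_coeff, coeff_eq_zero_of_natDegree_lt hk, map_zero]

theorem exists_retraction : ∃ l : K →ₗ[ℚ] ℚ, ∀ q : ℚ, l (q : K) = q := by
  obtain ⟨l, hl⟩ := LinearMap.exists_leftInverse_of_injective (Algebra.linearMap ℚ K)
    (LinearMap.ker_eq_bot.mpr (algebraMap ℚ K).injective)
  refine ⟨l, fun q => ?_⟩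
  have := congrArg (fun f => f q) hl
  simpa using this

/-- Coprime numerator and denominator of a rational series are rational. -/
theorem rational_of_coprime (p p' : K[X]) (hp' : p'.coeff 0 = 1)
    (hcop : IsCoprime p p') (z : ℕ → ℚ)
    (hz : (p : PowerSeries K) = (PowerSeries.mk fun k => (z k : K)) * (p' : PowerSeries K)) :
    (∃ r : ℚ[X], r.map (algebraMap ℚ K) = p) ∧ (∃ r : ℚ[X], r.map (algebraMap ℚ K) = p') := by
  obtain ⟨l, hl⟩ := exists_retraction (K := K)
  have hl1 : ∀ (q : ℚ) (x : K), l ((q : K) * x) = q * l x := by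
    intro q x
    have : (q : K) * x = q • x := by rw [Rat.smul_def]
    rw [this, map_smul, smul_eq_mul]
  have hlam : (((lam l p).map (algebraMap ℚ K) : K[X]) : PowerSeries K) =
      (PowerSeries.mk fun k => (z k : K)) *
        (((lam l p').map (algebraMap ℚ K) : K[X]) : PowerSeries K) := by
    ext k
    rw [Polynomial.coeff_coe, coeff_map, lam_coeff, PowerSeries.coeff_mul]
    have h1 := congrArg (PowerSeries.coeff k) hz
    rw [Polynomial.coeff_coe, PowerSeries.coeff_mul] at h1
    rw [h1, map_sum, map_sum]
    refine Finset.sum_congr rfl fun q _ => ?_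
    simp only [PowerSeries.coeff_mk, Polynomial.coeff_coe, coeff_map, lam_coeff]
    rw [hl1]
    simp
  have hcross : p * (lam l p').map (algebraMap ℚ K) = p' * (lam l p).map (algebraMap ℚ K) := by
    apply Polynomial.coe_injective K
    rw [Polynomial.coe_mul, Polynomial.coe_mul, hlam]
    conv_lhs => rw [hz]
    ring
  have hdvd : p' ∣ (lam l p').map (algebraMap ℚ K) := by
    have : p' ∣ p * (lam l p').map (algebraMap ℚ K) := ⟨_, hcross⟩
    exact hcop.symm.dvd_of_dvd_mul_left this
  have h0 : ((lam l p').map (algebraMap ℚ K)).coeff 0 = 1 := by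
    rw [coeff_map, lam_coeff, hp']
    have := hl 1
    rw [Rat.cast_one] at this
    rw [this]; simp
  have hp'ne : p' ≠ 0 := by
    rintro rfl
    simp at hp'
  have hlne : (lam l p').map (algebraMap ℚ K) ≠ 0 := by
    intro h
    rw [h] at h0
    simp at h0
  have heq : (lam l p').map (algebraMap ℚ K) = p' := by
    obtain ⟨c, hc⟩ := hdvd
    have hcne : c ≠ 0 := by
      rintro rfl
      rw [mul_zero] at hc
      exact hlne hc
    have hdeg : c.natDegree = 0 := by
      have h1 : ((lam l p').map (algebraMap ℚ K)).natDegree ≤ p'.natDegree := by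
        rw [natDegree_map]
        exact lam_natDegree l p'
      rw [hc, natDegree_mul hp'ne hcne] at h1
      omega
    rw [eq_C_of_natDegree_eq_zero hdeg] at hc
    have h2 := h0
    rw [hc, mul_coeff_zero, hp', one_mul, coeff_C_zero] at h2
    rw [hc, h2]
    simp
  refine ⟨⟨lam l p, ?_⟩, ⟨lam l p', heq⟩⟩
  rw [heq, mul_comm] at hcross
  exact (mul_left_cancel₀ hp'ne hcross).symm

omit [CharZero K] in
theorem root_charpolyRev (N : Matrix n n K) (a : AlgebraicClosure K) (ha : a ≠ 0)
    (hN : aeval a N.charpolyRev = 0) : aeval a⁻¹ N.charpoly = 0 := by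
  have hinv : Invertible (a⁻¹) := invertibleOfNonzero (inv_ne_zero ha)
  rw [← Matrix.reverse_charpoly, aeval_def] at hN
  have h3 : ⅟(a⁻¹) = a := by rw [invOf_eq_inv, inv_inv]
  rw [aeval_def]
  rw [← h3] at hN
  exact (Polynomial.eval₂_reverse_eq_zero_iff (algebraMap K (AlgebraicClosure K)) (a⁻¹)
    N.charpoly).mp hN

omit [CharZero K] in
theorem coprime_charpolyRev (M : Matrix n n K) (M' : Matrix n' n' K)
    (h : IsCoprime M.charpoly M'.charpoly) : IsCoprime M.charpolyRev M'.charpolyRev := by
  replace h := (Polynomial.isCoprime_iff_aeval_ne_zero_of_isAlgClosed K (AlgebraicClosure K)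
    M.charpoly M'.charpoly).1 h
  refine (Polynomial.isCoprime_iff_aeval_ne_zero_of_isAlgClosed K (AlgebraicClosure K)
    M.charpolyRev M'.charpolyRev).2 fun a => ?_
  by_contra hcon
  push Not at hcon
  obtain ⟨h1, h2⟩ := hcon
  have ha : a ≠ 0 := by
    rintro rfl
    rw [← Polynomial.coeff_zero_eq_aeval_zero', Polynomial.coeff_zero_eq_eval_zero,
      Matrix.eval_charpolyRev, map_one] at h1
    exact one_ne_zero h1
  rcases h a⁻¹ with h4 | h4
  · exact h4 (root_charpolyRev M a ha h1)
  · exact h4 (root_charpolyRev M' a ha h2)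

theorem charpoly_rational (M : Matrix n n K) (h : ∃ r : ℚ[X], r.map (algebraMap ℚ K) = M.charpolyRev) :
    ∃ r : ℚ[X], r.map (algebraMap ℚ K) = M.charpoly := by
  obtain ⟨r, hr⟩ := h
  have : M.charpoly ∈ Polynomial.lifts (algebraMap ℚ K) := by
    rw [Polynomial.lifts_iff_coeff_lifts]
    intro k
    by_cases hk : k ≤ M.charpoly.natDegree
    · have h1 : M.charpoly.coeff k = M.charpolyRev.coeff (M.charpoly.natDegree - k) := by
        rw [← Matrix.reverse_charpoly, Polynomial.coeff_reverse, Polynomial.revAt_le (by omega)]
        congr 1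
        omega
      rw [h1, ← hr, coeff_map]
      exact ⟨_, rfl⟩
    · rw [coeff_eq_zero_of_natDegree_lt (by omega)]
      exact ⟨0, by simp⟩
  rw [Polynomial.mem_lifts] at this
  exact this

/-- **Rational separation**: two matrices over a field `K` of characteristic zero with coprime
characteristic polynomials and rational differences of power traces are separated by a rational
polynomial. -/
theorem exists_rat_separation (M : Matrix n n K) (M' : Matrix n' n' K)
    (hcop : IsCoprime M.charpoly M'.charpoly)
    (h : ∀ k : ℕ, ∃ q : ℚ, (q : K) = (M ^ (k + 1)).trace - (M' ^ (k + 1)).trace) :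
    ∃ r : ℚ[X], aeval M r = 1 ∧ aeval M' r = 0 := by
  obtain ⟨z, hz⟩ := exists_rat_series M M' h
  have h0 : M'.charpolyRev.coeff 0 = 1 := by
    rw [Polynomial.coeff_zero_eq_eval_zero]
    exact Matrix.eval_charpolyRev
  obtain ⟨h1, h2⟩ := rational_of_coprime _ _ h0 (coprime_charpolyRev M M' hcop) z hz
  obtain ⟨a, ha⟩ := charpoly_rational M h1
  obtain ⟨b, hb⟩ := charpoly_rational M' h2
  rw [← ha, ← hb, Polynomial.isCoprime_map] at hcop
  obtain ⟨u, v, huv⟩ := hcop
  have hMa : aeval M a = 0 := by
    have := Matrix.aeval_self_charpoly M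
    rw [← ha, aeval_map_algebraMap] at this
    exact this
  have hMb : aeval M' b = 0 := by
    have := Matrix.aeval_self_charpoly M'
    rw [← hb, aeval_map_algebraMap] at this
    exact this
  refine ⟨v * b, ?_, ?_⟩
  · have := congrArg (aeval M) huv
    rw [map_add, map_mul, hMa, mul_zero, zero_add, map_one] at this
    exact this
  · rw [map_mul, hMb, mul_zero]

end Rational

end NCSign
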