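import Mathlib
import Pool.Agent.Lib_MP_8f22fa_ag.LinAlg
import Pool.Agent.Lib_MP_8f22fa_ag.Generic
import Pool.Agent.Lib_MP_8f22fa_ag.Criterion

/-!
Descent of coefficients: if the projection onto the `+1`-part of an involution lies in the
`K`-span of a rational algebra of commuting-with-`e` endomorphisms with rational super-traces,
then it lies in the algebra itself.
-/

open Polynomial Module

namespace NCSign

section Descent

variable {K : Type*} [Field K] {V : Type*} [AddCommGroup V] [Module K V]

theorem rat_poly_mem {S : Subring (Module.End K V)} [CharZero K]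
    (hS : ∀ (q : ℚ) (g : Module.End K V), g ∈ S → (q : K) • g ∈ S) {g : Module.End K V}
    (hg : g ∈ S) (h : ℚ[X]) : aeval g (h.map (algebraMap ℚ K)) ∈ S := by
  induction h using Polynomial.induction_on' with
  | add p q hp hq => rw [Polynomial.map_add, map_add]; exact S.add_mem hp hq
  | monomial n a =>
    rw [Polynomial.map_monomial, aeval_monomial, ← Algebra.smul_def]
    exact hS a _ (S.pow_mem hg n)

/-- The compression of an endomorphism to the range of an endomorphism `p`. -/
noncomputable def cmp (p : Module.End K V) : Module.End K V →ₗ[K] Module.End K (LinearMap.range p) where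
  toFun g := p.rangeRestrict ∘ₗ g ∘ₗ (LinearMap.range p).subtype
  map_add' g g' := by ext; simp
  map_smul' a g := by ext; simp

theorem cmp_apply (p g : Module.End K V) (v : LinearMap.range p) :
    ((cmp p g v : LinearMap.range p) : V) = p (g v) := rfl

theorem cmp_self {p : Module.End K V} (hp : p * p = p) (v : LinearMap.range p) : p (v : V) = v := by
  obtain ⟨w, hw⟩ := v.2
  rw [← hw, ← Module.End.mul_apply, hp]

theorem cmp_one {p : Module.End K V} (hp : p * p = p) : cmp p 1 = 1 := by
  ext v
  rw [cmp_apply]
  simpa using cmp_self hp v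

theorem cmp_mul {p : Module.End K V} (hp : p * p = p) {g g' : Module.End K V}
    (h : g' * p = p * g') : cmp p (g * g') = cmp p g * cmp p g' := by
  ext v
  rw [cmp_apply, Module.End.mul_apply, Module.End.mul_apply, cmp_apply, cmp_apply]
  congr 2
  have h1 : g' (v : V) = p (g' v) := by
    conv_lhs => rw [← cmp_self hp v, ← Module.End.mul_apply, h, Module.End.mul_apply]
  exact h1

theorem cmp_pow {p : Module.End K V} (hp : p * p = p) {g : Module.End K V}
    (h : g * p = p * g) (n : ℕ) : cmp p (g ^ n) = (cmp p g) ^ n := by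
  induction n with
  | zero => rw [pow_zero, pow_zero, cmp_one hp]
  | succ n ih => rw [pow_succ, cmp_mul hp h, ih, pow_succ]

theorem cmp_aeval {p : Module.End K V} (hp : p * p = p) {g : Module.End K V}
    (h : g * p = p * g) (q : K[X]) : cmp p (aeval g q) = aeval (cmp p g) q := by
  induction q using Polynomial.induction_on' with
  | add a b ha hb => rw [map_add, map_add, map_add, ha, hb]
  | monomial n a =>
    rw [aeval_monomial, aeval_monomial, ← Algebra.smul_def, ← Algebra.smul_def, map_smul,
      cmp_pow hp h]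

theorem cmp_trace [FiniteDimensional K V] {p : Module.End K V} (g : Module.End K V) :
    LinearMap.trace K _ (cmp p g) = LinearMap.trace K V (g * p) := by
  have h1 : cmp p g = p.rangeRestrict ∘ₗ (g ∘ₗ (LinearMap.range p).subtype) := rfl
  rw [h1, LinearMap.trace_comp_comm']
  congr 1

variable [CharZero K] [FiniteDimensional K V]

/-- **Descent of coefficients.** -/
theorem span_descent {e : Module.End K V} (he : e * e = 1) {S : Subring (Module.End K V)}
    (hS : ∀ (q : ℚ) (g : Module.End K V), g ∈ S → (q : K) • g ∈ S)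
    (hcomm : ∀ g ∈ S, g * e = e * g)
    (hrat : ∀ g ∈ S, ∃ q : ℚ, (q : K) = LinearMap.trace K V (e * g))
    (hspan : pp e ∈ Submodule.span K (S : Set (Module.End K V))) :
    ∃ g ∈ S, ∃ h : ℚ[X], aeval g (h.map (algebraMap ℚ K)) = pp e := by
  rw [Submodule.mem_span_set'] at hspan
  obtain ⟨m, c, g, hg⟩ := hspan
  have hpp := pp_mul_pp he
  have hpm := pm_mul_pm he
  set b := Module.finBasis K (LinearMap.range (pp e)) with hb
  set b' := Module.finBasis K (LinearMap.range (pm e)) with hb'
  set φ := LinearMap.toMatrixAlgEquiv b with hφ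
  set φ' := LinearMap.toMatrixAlgEquiv b' with hφ'
  have h1 : ∑ i, c i • φ (cmp (pp e) (g i : Module.End K V)) = 1 := by
    have : ∑ i, c i • φ (cmp (pp e) (g i : Module.End K V)) = φ (cmp (pp e) (∑ i, c i • (g i : Module.End K V))) := by
      simp only [map_sum, map_smul]
    rw [this, hg]
    have h2 : cmp (pp e) (pp e) = 1 := by
      ext v
      rw [cmp_apply, cmp_self hpp, cmp_self hpp]
      simp
    rw [h2, map_one]
  have h0 : ∑ i, c i • φ' (cmp (pm e) (g i : Module.End K V)) = 0 := by
    have : ∑ i, c i • φ' (cmp (pm e) (g i : Module.End K V)) = φ' (cmp (pm e) (∑ i, c i • (g i : Module.End K V))) := by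
      simp only [map_sum, map_smul]
    rw [this, hg]
    have h2 : cmp (pm e) (pp e) = 0 := by
      ext v
      rw [cmp_apply, ← Module.End.mul_apply, pm_mul_pp he]
      simp
    rw [h2, map_zero]
  obtain ⟨q, hq⟩ := exists_rat_coprime _ _ c h1 h0
  set g0 : Module.End K V := ∑ i, (q i : K) • (g i : Module.End K V) with hg0
  have hg0S : g0 ∈ S := S.sum_mem fun i _ => hS _ _ (g i).2
  have hM : ∑ i, (q i : K) • φ (cmp (pp e) (g i : Module.End K V)) = φ (cmp (pp e) g0) := by
    simp only [hg0, map_sum, map_smul]
  have hM' : ∑ i, (q i : K) • φ' (cmp (pm e) (g i : Module.End K V)) = φ' (cmp (pm e) g0) := by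
    simp only [hg0, map_sum, map_smul]
  rw [hM, hM'] at hq
  have hc := hcomm g0 hg0S
  have hcp := commute_pp hc
  have hcm := commute_pm hc
  obtain ⟨r, hr, hr'⟩ := exists_rat_separation _ _ hq (by
    intro k
    obtain ⟨x, hx⟩ := hrat (g0 ^ (k + 1)) (S.pow_mem hg0S _)
    refine ⟨x, ?_⟩
    have ht : (φ (cmp (pp e) g0) ^ (k + 1)).trace = LinearMap.trace K V (pp e * g0 ^ (k + 1)) := by
      rw [← map_pow, ← cmp_pow hpp hcp]
      have : (φ (cmp (pp e) (g0 ^ (k + 1)))).trace = LinearMap.trace K _ (cmp (pp e) (g0 ^ (k + 1))) := by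
        rw [LinearMap.trace_eq_matrix_trace K b]
        rfl
      rw [this, cmp_trace, LinearMap.trace_mul_comm]
    have ht' : (φ' (cmp (pm e) g0) ^ (k + 1)).trace = LinearMap.trace K V (pm e * g0 ^ (k + 1)) := by
      rw [← map_pow, ← cmp_pow hpm hcm]
      have : (φ' (cmp (pm e) (g0 ^ (k + 1)))).trace = LinearMap.trace K _ (cmp (pm e) (g0 ^ (k + 1))) := by
        rw [LinearMap.trace_eq_matrix_trace K b']
        rfl
      rw [this, cmp_trace, LinearMap.trace_mul_comm]
    rw [ht, ht', hx, trace_split])
  refine ⟨g0, hg0S, r, ?_⟩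
  have hr2 : cmp (pp e) (aeval g0 (r.map (algebraMap ℚ K))) = 1 := by
    rw [cmp_aeval hpp hcp]
    apply φ.injective
    rw [← Polynomial.aeval_algHom_apply, aeval_map_algebraMap, map_one]
    exact hr
  have hr3 : cmp (pm e) (aeval g0 (r.map (algebraMap ℚ K))) = 0 := by
    rw [cmp_aeval hpm hcm]
    apply φ'.injective
    rw [← Polynomial.aeval_algHom_apply, aeval_map_algebraMap, map_zero]
    exact hr'
  set G := aeval g0 (r.map (algebraMap ℚ K)) with hG
  have hGc : G * e = e * G := aeval_commute hc _
  have e1 : pp e * G = pp e := by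
    rw [← commute_pp hGc]
    ext v
    have h5 := congrArg (fun f => ((f (⟨pp e v, ⟨v, rfl⟩⟩ : LinearMap.range (pp e)) :
      LinearMap.range (pp e)) : V)) hr2
    simp only [cmp_apply, Module.End.one_apply] at h5
    rw [← h5, Module.End.mul_apply]
    have : G (pp e v) = pp e (G (pp e v)) := by
      have h6 : pp e v = pp e (pp e v) := by rw [← Module.End.mul_apply, hpp]
      conv_lhs => rw [h6, ← Module.End.mul_apply, commute_pp hGc, Module.End.mul_apply]
    exact this
  have e2 : pm e * G = 0 := by
    rw [← commute_pm hGc]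
    ext v
    have h5 := congrArg (fun f => ((f (⟨pm e v, ⟨v, rfl⟩⟩ : LinearMap.range (pm e)) :
      LinearMap.range (pm e)) : V)) hr3
    simp only [cmp_apply, LinearMap.zero_apply, ZeroMemClass.coe_zero] at h5
    rw [LinearMap.zero_apply, ← h5, Module.End.mul_apply]
    have : G (pm e v) = pm e (G (pm e v)) := by
      have h6 : pm e v = pm e (pm e v) := by rw [← Module.End.mul_apply, hpm]
      conv_lhs => rw [h6, ← Module.End.mul_apply, commute_pm hGc, Module.End.mul_apply]
    exact this
  calc G = (pp e + pm e) * G := by rw [pp_add_pm, one_mul]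
    _ = pp e := by rw [add_mul, e1, e2, add_zero]

end Descent

end NCSign
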