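import Mathlib
import Pool.Agent.Lib_MP_8f22fa_ag.Defs
import Pool.Agent.Lib_MP_8f22fa_ag.Descent

/-!
Basic facts on super fibre functors: finiteness, rationality of super-traces, the algebra of
algebraic endomorphisms.
-/

open CategoryTheory MonoidalCategory Functor.LaxMonoidal Functor.OplaxMonoidal Functor.Monoidal
open Polynomial

universe u v₁ u₁ v₂ u₂

namespace NCSign

open SVect

section Parity

variable {K : Type u} [Field K] (M : SVect K)

theorem par_mul_par : (M.par.hom * M.par.hom : Module.End K M.V) = 1 := by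
  ext v
  exact par_par M v

theorem lin_comm (f : M ⟶ M) : (lin f : Module.End K M.V) * M.par.hom = M.par.hom * lin f := by
  ext v
  exact comm_apply f v

theorem lin_evenProj : (lin M.evenProj : Module.End K M.V) = pp (M.par.hom : Module.End K M.V) := by
  rfl

variable [CharZero K]

theorem pp_apply_even {v : M.V} (hv : M.par.hom v = v) : pp (M.par.hom : Module.End K M.V) v = v := by
  rw [pp, LinearMap.smul_apply, LinearMap.add_apply, Module.End.one_apply, hv, ← two_smul K v,
    smul_smul, inv_mul_cancel₀ two_ne_zero, one_smul]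

theorem pm_apply_odd {v : M.V} (hv : M.par.hom v = -v) : pm (M.par.hom : Module.End K M.V) v = v := by
  rw [pm, LinearMap.smul_apply, LinearMap.sub_apply, Module.End.one_apply, hv, sub_neg_eq_add,
    ← two_smul K v, smul_smul, inv_mul_cancel₀ two_ne_zero, one_smul]

omit [CharZero K] in
theorem pp_apply_odd {v : M.V} (hv : M.par.hom v = -v) : pp (M.par.hom : Module.End K M.V) v = 0 := by
  rw [pp, LinearMap.smul_apply, LinearMap.add_apply, Module.End.one_apply, hv, add_neg_cancel,
    smul_zero]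

theorem evenPart_eq : M.evenPart = LinearMap.range (pp (M.par.hom : Module.End K M.V)) := by
  ext v
  rw [evenPart, LinearMap.mem_ker, LinearMap.sub_apply, LinearMap.id_apply, sub_eq_zero]
  constructor
  · intro h
    exact ⟨v, pp_apply_even M h⟩
  · rintro ⟨w, rfl⟩
    have h1 : (M.par.hom : Module.End K M.V) * pp (M.par.hom : Module.End K M.V) = pp M.par.hom := by
      rw [pp, mul_smul_comm, mul_add, mul_one, par_mul_par, add_comm]
    exact congrArg (fun f => f w) h1

theorem oddPart_eq : M.oddPart = LinearMap.range (pm (M.par.hom : Module.End K M.V)) := by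
  ext v
  rw [oddPart, LinearMap.mem_ker, LinearMap.add_apply, LinearMap.id_apply, add_eq_zero_iff_eq_neg]
  constructor
  · intro h
    exact ⟨v, pm_apply_odd M h⟩
  · rintro ⟨w, rfl⟩
    have h1 : (M.par.hom : Module.End K M.V) * pm (M.par.hom : Module.End K M.V) = -pm M.par.hom := by
      rw [pm, mul_smul_comm, mul_sub, mul_one, par_mul_par, ← smul_neg, neg_sub]
    exact congrArg (fun f => f w) h1

theorem evenDim_eq : M.evenDim = Module.finrank K (LinearMap.range (pp (M.par.hom : Module.End K M.V))) := by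
  rw [evenDim, evenPart_eq]

theorem oddDim_eq : M.oddDim = Module.finrank K (LinearMap.range (pm (M.par.hom : Module.End K M.V))) := by
  rw [oddDim, oddPart_eq]

theorem par_mul_pp : (M.par.hom : Module.End K M.V) * pp (M.par.hom : Module.End K M.V) = pp M.par.hom := by
  rw [pp, mul_smul_comm, mul_add, mul_one, par_mul_par, add_comm]

theorem par_mul_pm : (M.par.hom : Module.End K M.V) * pm (M.par.hom : Module.End K M.V) = -pm M.par.hom := by
  rw [pm, mul_smul_comm, mul_sub, mul_one, par_mul_par, ← smul_neg, neg_sub]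

end Parity

section Fun

variable {C : Type u₁} [Category.{v₁} C] [Preadditive C]
variable {K : Type u} [Field K] [CharZero K] (F : C ⥤ SVect K) [F.Additive]

omit [CharZero K] in
theorem lin_nsmul {M N : SVect K} (n : ℕ) (f : M ⟶ N) : lin (n • f) = (n : K) • lin f := by
  have h : lin (n • f) = n • lin f := by
    change (n • f.f).hom = n • f.f.hom
    rfl
  rw [h, Nat.cast_smul_eq_nsmul]

omit [CharZero K] in
theorem lin_zsmul {M N : SVect K} (n : ℤ) (f : M ⟶ N) : lin (n • f) = (n : K) • lin f := by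
  have h : lin (n • f) = n • lin f := by
    change (n • f.f).hom = n • f.f.hom
    rfl
  rw [h, Int.cast_smul_eq_zsmul]

/-- Additive functors are compatible with rational scalars. -/
theorem lin_map_rat_smul [Linear ℚ C] {X Y : C} (q : ℚ) (f : X ⟶ Y) :
    lin (F.map (q • f)) = (q : K) • lin (F.map f) := by
  have h1 : q.den • (q • f) = q.num • f := by
    rw [← Nat.cast_smul_eq_nsmul ℚ, ← Int.cast_smul_eq_zsmul ℚ, smul_smul, Rat.den_mul_eq_num]
  have h2 : q.den • F.map (q • f) = q.num • F.map f := by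
    rw [← Functor.map_nsmul, ← Functor.map_zsmul, h1]
  have h3 : (q.den : K) • lin (F.map (q • f)) = (q.num : K) • lin (F.map f) := by
    rw [← lin_nsmul, ← lin_zsmul, h2]
  have h4 : (q.den : K) ≠ 0 := by exact_mod_cast q.den_nz
  have h5 : (q : K) = (q.den : K)⁻¹ * (q.num : K) := by
    rw [Rat.cast_def]; field_simp
  rw [h5, mul_smul, ← h3, smul_smul, inv_mul_cancel₀ h4, one_smul]

omit [CharZero K] in
theorem lin_map_comp {X Y Z : C} (f : X ⟶ Y) (g : Y ⟶ Z) :
    lin (F.map (f ≫ g)) = lin (F.map g) ∘ₗ lin (F.map f) := by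
  rw [F.map_comp]; rfl

/-- The ring of algebraic endomorphisms of `F(X)`. -/
def algRing (X : C) : Subring (Module.End K (F.obj X).V) where
  carrier := Set.range fun f : X ⟶ X => (lin (F.map f) : Module.End K (F.obj X).V)
  mul_mem' := by
    rintro _ _ ⟨f, rfl⟩ ⟨g, rfl⟩
    exact ⟨g ≫ f, lin_map_comp F g f⟩
  one_mem' := ⟨𝟙 X, by simp only [F.map_id]; rfl⟩
  add_mem' := by
    rintro _ _ ⟨f, rfl⟩ ⟨g, rfl⟩
    exact ⟨f + g, by simp only [F.map_add]; rfl⟩
  zero_mem' := ⟨0, by simp only [F.map_zero]; rfl⟩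
  neg_mem' := by
    rintro _ ⟨f, rfl⟩
    exact ⟨-f, by simp only [F.map_neg]; rfl⟩

omit [CharZero K] in
theorem mem_algRing {X : C} (g : Module.End K (F.obj X).V) :
    g ∈ algRing F X ↔ ∃ f : X ⟶ X, (lin (F.map f) : Module.End K (F.obj X).V) = g := Iff.rfl

theorem algRing_smul [Linear ℚ C] {X : C} (q : ℚ) (g : Module.End K (F.obj X).V)
    (hg : g ∈ algRing F X) : (q : K) • g ∈ algRing F X := by
  obtain ⟨f, rfl⟩ := hg
  exact ⟨q • f, lin_map_rat_smul F q f⟩

omit [CharZero K] in
theorem algRing_comm {X : C} (g : Module.End K (F.obj X).V) (hg : g ∈ algRing F X) :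
    g * (F.obj X).par.hom = (F.obj X).par.hom * g := by
  obtain ⟨f, rfl⟩ := hg
  exact lin_comm _ _

omit [CharZero K] in
theorem cplus_iff {X : C} : CPlus F X ↔
    pp ((F.obj X).par.hom : Module.End K (F.obj X).V) ∈ algRing F X := by
  rw [mem_algRing, CPlus]
  constructor
  · rintro ⟨p, hp⟩
    exact ⟨p, by rw [hp]; rfl⟩
  · rintro ⟨p, hp⟩
    exact ⟨p, SVect.hom_ext (ModuleCat.hom_ext hp)⟩

theorem par_mem_of_cplus [Linear ℚ C] {X : C} (h : CPlus F X) :
    ((F.obj X).par.hom : Module.End K (F.obj X).V) ∈ algRing F X := by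
  rw [cplus_iff] at h
  have h1 : ((F.obj X).par.hom : Module.End K (F.obj X).V) =
      ((2 : ℚ) : K) • pp ((F.obj X).par.hom : Module.End K (F.obj X).V) - 1 := by
    rw [pp, smul_smul]
    push_cast
    rw [mul_inv_cancel₀ two_ne_zero, one_smul]
    abel
  rw [h1]
  exact (algRing F X).sub_mem (algRing_smul F 2 _ h) (algRing F X).one_mem

theorem cplus_of_par_mem [Linear ℚ C] {X : C}
    (h : ((F.obj X).par.hom : Module.End K (F.obj X).V) ∈ algRing F X) : CPlus F X := by
  rw [cplus_iff]
  have h1 : pp ((F.obj X).par.hom : Module.End K (F.obj X).V) =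
      ((2⁻¹ : ℚ) : K) • (1 + (F.obj X).par.hom) := by
    rw [pp]
    push_cast
    rfl
  rw [h1]
  exact algRing_smul F _ _ ((algRing F X).add_mem (algRing F X).one_mem h)

end Fun

section Mon

variable {C : Type u₁} [Category.{v₁} C] [Preadditive C] [MonoidalCategory C] [BraidedCategory C]
variable {K : Type u} [Field K] [CharZero K] (F : C ⥤ SVect K) [F.Braided]

theorem map_finite (X : C) [HasRightDual X] : Module.Finite K (F.obj X).V :=
  svect_finite (coF F X Xᘁ) (evF F X Xᘁ) (snakeF F X Xᘁ)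

theorem trD_map (X : C) [HasRightDual X] (f : X ⟶ X) :
    (ε F ≫ F.map (catTrace f) ≫ η F).f.hom (1 : K) =
      LinearMap.trace K (F.obj X).V (((F.obj X).par.hom : Module.End K (F.obj X).V) *
        (lin (F.map f) : Module.End K (F.obj X).V)) := by
  rw [map_catTrace]
  simp only [ε_η_assoc, ε_η, Category.assoc, Category.comp_id]
  exact trD_apply (coF F X Xᘁ) (evF F X Xᘁ) (snakeF F X Xᘁ) (F.map f)

/-- Rational categorical traces are super-traces. -/
theorem trace_of_catTrace [F.Additive] [Linear ℚ C] (X : C) [HasRightDual X] (f : X ⟶ X) (q : ℚ)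
    (h : catTrace f = q • 𝟙 (𝟙_ C)) :
    (q : K) = LinearMap.trace K (F.obj X).V (((F.obj X).par.hom : Module.End K (F.obj X).V) *
        (lin (F.map f) : Module.End K (F.obj X).V)) := by
  rw [← trD_map, h]
  have h1 : (ε F ≫ F.map (q • 𝟙 (𝟙_ C)) ≫ η F).f.hom (1 : K) =
      (η F).f.hom (lin (F.map (q • 𝟙 (𝟙_ C))) ((ε F).f.hom (1 : K))) := rfl
  have h3 : (η F).f.hom ((ε F).f.hom (1 : K)) = (1 : K) := by
    have := congrArg (fun g => g.f.hom (1 : K)) (ε_η F)
    exact this
  rw [h1, lin_map_rat_smul, F.map_id]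
  have h2 : (lin (𝟙 (F.obj (𝟙_ C)))) ((ε F).f.hom (1 : K)) = (ε F).f.hom (1 : K) := rfl
  rw [LinearMap.smul_apply, h2, map_smul, h3]
  exact (mul_one (q : K)).symm

end Mon

end NCSign
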