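import Mathlib
import Pool.Agent.Lib_MP_8f22fa_ag.Basics

/-!
The main results.
-/

open CategoryTheory MonoidalCategory Functor.LaxMonoidal Functor.OplaxMonoidal Functor.Monoidal
open Polynomial

universe u v₁ u₁ v₂ u₂ w

namespace NCSign

open SVect

section MonMain

variable {C : Type u₁} [Category.{v₁} C] [Preadditive C] [Linear ℚ C] [MonoidalCategory C]
  [BraidedCategory C]
variable {K : Type u} [Field K] [CharZero K] (F : C ⥤ SVect K) [F.Braided] [F.Additive]

theorem catTrace_of_trace (hQ : ∀ t : 𝟙_ C ⟶ 𝟙_ C, ∃ q : ℚ, t = q • 𝟙 (𝟙_ C)) {X : C}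
    [HasRightDual X] (f : X ⟶ X) (q : ℚ)
    (h : LinearMap.trace K (F.obj X).V (((F.obj X).par.hom : Module.End K (F.obj X).V) *
        (lin (F.map f) : Module.End K (F.obj X).V)) = (q : K)) :
    catTrace f = q • 𝟙 (𝟙_ C) := by
  obtain ⟨q', hq'⟩ := hQ (catTrace f)
  have h1 := trace_of_catTrace F X f q' hq'
  rw [h] at h1
  rw [hq', Rat.cast_injective h1]

theorem lin_map_pow {X : C} (f : X ⟶ X) (n : ℕ) :
    (lin (F.map (iter f n)) : Module.End K (F.obj X).V) =
      (lin (F.map f) : Module.End K (F.obj X).V) ^ n := by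
  induction n with
  | zero =>
    rw [pow_zero, iter, F.map_id]; rfl
  | succ n ih =>
    rw [pow_succ, iter, lin_map_comp, ih]
    rfl

theorem trace_par_pp (M : SVect K) [Module.Finite K M.V] :
    LinearMap.trace K M.V ((M.par.hom : Module.End K M.V) * pp (M.par.hom : Module.End K M.V)) =
      (M.evenDim : K) := by
  rw [par_mul_pp, trace_idem (pp_mul_pp (par_mul_par M)), evenDim_eq]

theorem trace_par_pm (M : SVect K) [Module.Finite K M.V] :
    LinearMap.trace K M.V ((M.par.hom : Module.End K M.V) * pm (M.par.hom : Module.End K M.V)) =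
      -(M.oddDim : K) := by
  rw [par_mul_pm, map_neg, trace_idem (pm_mul_pm (par_mul_par M)), oddDim_eq]

theorem pp_pow (M : SVect K) (n : ℕ) :
    pp (M.par.hom : Module.End K M.V) ^ (n + 1) = pp (M.par.hom : Module.End K M.V) := by
  induction n with
  | zero => rw [zero_add, pow_one]
  | succ n ih => rw [pow_succ, ih, pp_mul_pp (par_mul_par M)]

/-- The implication from constant traces to `C⁺`, with dimension `evenDim`. -/
theorem cplus_of_const {X : C} [Module.Finite K (F.obj X).V] (f : X ⟶ X)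
    (h : ∀ n : ℕ, LinearMap.trace K (F.obj X).V (((F.obj X).par.hom : Module.End K (F.obj X).V) *
        (lin (F.map f) : Module.End K (F.obj X).V) ^ (n + 1)) = ((F.obj X).evenDim : K)) :
    CPlus F X := by
  rw [cplus_iff]
  obtain ⟨m, hm, -, -, hm4⟩ := const_trace (par_mul_par (F.obj X))
    (lin_comm (F.obj X) (F.map f)) h
  have hm' : m = ((F.obj X).evenDim : ℤ) := by exact_mod_cast hm
  obtain ⟨r, hr⟩ := hm4 (by rw [hm', evenDim_eq])
  rw [← hr]
  exact rat_poly_mem (fun q g hg => algRing_smul F q g hg) ⟨f, rfl⟩ r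

/-- The implication from constant traces to `C⁺`, with dimension `-oddDim`. -/
theorem cplus_of_const' {X : C} [Module.Finite K (F.obj X).V] (f : X ⟶ X)
    (h : ∀ n : ℕ, LinearMap.trace K (F.obj X).V (((F.obj X).par.hom : Module.End K (F.obj X).V) *
        (lin (F.map f) : Module.End K (F.obj X).V) ^ (n + 1)) = -((F.obj X).oddDim : K)) :
    CPlus F X := by
  rw [cplus_iff]
  have he : (-(F.obj X).par.hom : Module.End K (F.obj X).V) * (-(F.obj X).par.hom) = 1 := by
    rw [neg_mul_neg]; exact par_mul_par _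
  have hc : (lin (F.map f) : Module.End K (F.obj X).V) * (-(F.obj X).par.hom) =
      (-(F.obj X).par.hom) * (lin (F.map f) : Module.End K (F.obj X).V) := by
    rw [mul_neg, neg_mul]; exact congrArg _ (lin_comm (F.obj X) (F.map f))
  obtain ⟨m, hm, -, -, hm4⟩ := const_trace (c := ((F.obj X).oddDim : K)) he hc (by
    intro n
    rw [neg_mul, map_neg, h n, neg_neg])
  have hm' : m = ((F.obj X).oddDim : ℤ) := by exact_mod_cast hm
  obtain ⟨r, hr⟩ := hm4 (by rw [hm', oddDim_eq, ← pm_eq])
  rw [← pm_eq] at hr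
  have h1 : pp ((F.obj X).par.hom : Module.End K (F.obj X).V) =
      1 - pm ((F.obj X).par.hom : Module.End K (F.obj X).V) := by
    rw [← pp_add_pm ((F.obj X).par.hom : Module.End K (F.obj X).V)]; abel
  rw [h1, ← hr]
  exact (algRing F X).sub_mem (algRing F X).one_mem
    (rat_poly_mem (fun q g hg => algRing_smul F q g hg) ⟨f, rfl⟩ r)

theorem cplus_of_span (hQ : ∀ t : 𝟙_ C ⟶ 𝟙_ C, ∃ q : ℚ, t = q • 𝟙 (𝟙_ C)) {X : C}
    [HasRightDual X]
    (h : (lin (F.obj X).evenProj : Module.End K (F.obj X).V) ∈ Submodule.span K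
      (Set.range fun f : X ⟶ X => (lin (F.map f) : Module.End K (F.obj X).V))) :
    CPlus F X := by
  have := map_finite F X
  rw [cplus_iff]
  obtain ⟨g, hg, r, hr⟩ := span_descent (par_mul_par (F.obj X))
    (S := algRing F X) (fun q g hg => algRing_smul F q g hg) (fun g hg => algRing_comm F g hg)
    (by
      rintro g ⟨f, rfl⟩
      obtain ⟨q, hq⟩ := hQ (catTrace f)
      exact ⟨q, trace_of_catTrace F X f q hq⟩) h
  rw [← hr]
  exact rat_poly_mem (fun q g hg => algRing_smul F q g hg) hg r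

theorem aeval_evenRes {M : SVect K} (f : M ⟶ M) (q : K[X]) (v : M.evenPart) :
    ((aeval (evenRes f : Module.End K M.evenPart) q v : M.evenPart) : M.V) =
      aeval (lin f : Module.End K M.V) q (v : M.V) := by
  induction q using Polynomial.induction_on' generalizing v with
  | add p q hp hq => simp [hp, hq]
  | monomial n a =>
    rw [aeval_monomial, aeval_monomial, ← Algebra.smul_def, ← Algebra.smul_def,
      LinearMap.smul_apply, LinearMap.smul_apply, Submodule.coe_smul]
    congr 1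
    induction n generalizing v with
    | zero => rfl
    | succ n ih =>
      rw [pow_succ, pow_succ, Module.End.mul_apply, Module.End.mul_apply, ih]
      rfl

theorem aeval_oddRes {M : SVect K} (f : M ⟶ M) (q : K[X]) (v : M.oddPart) :
    ((aeval (oddRes f : Module.End K M.oddPart) q v : M.oddPart) : M.V) =
      aeval (lin f : Module.End K M.V) q (v : M.V) := by
  induction q using Polynomial.induction_on' generalizing v with
  | add p q hp hq => simp [hp, hq]
  | monomial n a =>
    rw [aeval_monomial, aeval_monomial, ← Algebra.smul_def, ← Algebra.smul_def,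
      LinearMap.smul_apply, LinearMap.smul_apply, Submodule.coe_smul]
    congr 1
    induction n generalizing v with
    | zero => rfl
    | succ n ih =>
      rw [pow_succ, pow_succ, Module.End.mul_apply, Module.End.mul_apply, ih]
      rfl

theorem span_of_coprime {X : C} (f : X ⟶ X)
    (h : IsCoprime (minpoly K (evenRes (F.map f) : Module.End K (F.obj X).evenPart))
      (minpoly K (oddRes (F.map f) : Module.End K (F.obj X).oddPart))) :
    (lin (F.obj X).evenProj : Module.End K (F.obj X).V) ∈ Submodule.span K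
      (Set.range fun f : X ⟶ X => (lin (F.map f) : Module.End K (F.obj X).V)) := by
  obtain ⟨a, b, hab⟩ := h
  set p := minpoly K (evenRes (F.map f) : Module.End K (F.obj X).evenPart) with hp
  set q := minpoly K (oddRes (F.map f) : Module.End K (F.obj X).oddPart) with hq
  have hkey : (lin (F.obj X).evenProj : Module.End K (F.obj X).V) =
      aeval (lin (F.map f) : Module.End K (F.obj X).V) (b * q) := by
    set M := F.obj X with hM
    have heven : ∀ v ∈ M.evenPart, aeval (lin (F.map f) : Module.End K M.V) (b * q) v = v := by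
      intro v hv
      rw [← aeval_evenRes (F.map f) (b * q) ⟨v, hv⟩]
      have h1 : b * q = 1 - a * p := by rw [← hab]; ring
      have h2 : aeval (evenRes (F.map f) : Module.End K M.evenPart) (b * q) = 1 := by
        rw [h1, map_sub, map_one, map_mul, hp, minpoly.aeval, mul_zero, sub_zero]
      rw [h2]
      rfl
    have hodd : ∀ v ∈ M.oddPart, aeval (lin (F.map f) : Module.End K M.V) (b * q) v = 0 := by
      intro v hv
      rw [← aeval_oddRes (F.map f) (b * q) ⟨v, hv⟩]
      have h2 : aeval (oddRes (F.map f) : Module.End K M.oddPart) (b * q) = 0 := by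
        rw [map_mul, hq, minpoly.aeval, mul_zero]
      rw [h2]
      rfl
    rw [lin_evenProj]
    ext v
    have h3 : v = pp (M.par.hom : Module.End K M.V) v + pm (M.par.hom : Module.End K M.V) v := by
      rw [← LinearMap.add_apply, pp_add_pm]; rfl
    conv_rhs => rw [h3]
    rw [map_add, heven _ (by rw [evenPart_eq]; exact ⟨v, rfl⟩),
      hodd _ (by rw [oddPart_eq]; exact ⟨v, rfl⟩), add_zero]
  rw [hkey]
  generalize b * q = s
  induction s using Polynomial.induction_on' with
  | add p q hp hq => rw [map_add]; exact Submodule.add_mem _ hp hq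
  | monomial n a =>
    rw [aeval_monomial, ← Algebra.smul_def]
    refine Submodule.smul_mem _ _ (Submodule.subset_span ⟨iter f n, ?_⟩)
    exact lin_map_pow F f n

theorem coprime_of_cplus {A : C} (h : CPlus F A) :
    ∃ f : A ⟶ A, IsCoprime (minpoly K (evenRes (F.map f) : Module.End K (F.obj A).evenPart))
      (minpoly K (oddRes (F.map f) : Module.End K (F.obj A).oddPart)) := by
  obtain ⟨p, hp⟩ := h
  refine ⟨p, ?_⟩
  have h1 : minpoly K (evenRes (F.map p) : Module.End K (F.obj A).evenPart) ∣ X - 1 := by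
    apply minpoly.dvd
    rw [map_sub, aeval_X, map_one, sub_eq_zero]
    ext v
    have hv : (F.obj A).par.hom (v : (F.obj A).V) = v := by
      have h : (v : (F.obj A).V) ∈ LinearMap.ker ((F.obj A).par.hom - LinearMap.id) := v.2
      rw [LinearMap.mem_ker, LinearMap.sub_apply, LinearMap.id_apply, sub_eq_zero] at h
      exact h
    rw [hp]
    exact pp_apply_even (F.obj A) hv
  have h2 : minpoly K (oddRes (F.map p) : Module.End K (F.obj A).oddPart) ∣ X := by
    apply minpoly.dvd
    rw [aeval_X]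
    ext v
    have hv : (F.obj A).par.hom (v : (F.obj A).V) = -v := by
      have h : (v : (F.obj A).V) ∈ LinearMap.ker ((F.obj A).par.hom + LinearMap.id) := v.2
      rw [LinearMap.mem_ker, LinearMap.add_apply, LinearMap.id_apply,
        add_eq_zero_iff_eq_neg] at h
      exact h
    rw [hp]
    exact pp_apply_odd (F.obj A) hv
  have h3 : IsCoprime (X - 1 : K[X]) X := ⟨-1, 1, by ring⟩
  exact (h3.of_isCoprime_of_dvd_left h1).of_isCoprime_of_dvd_right h2

variable [MonoidalPreadditive C]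

omit [Linear ℚ C] in
theorem catTrace_sub {X : C} [HasRightDual X] (f g : X ⟶ X) :
    catTrace (f - g) = catTrace f - catTrace g := by
  simp only [catTrace]
  have h : (f - g) ▷ Xᘁ = f ▷ Xᘁ - g ▷ Xᘁ := by
    have h1 : (f - g) ▷ Xᘁ + g ▷ Xᘁ = f ▷ Xᘁ := by
      rw [← MonoidalPreadditive.add_whiskerRight, sub_add_cancel]
    rw [← h1, add_sub_cancel_right]
  rw [h, Preadditive.sub_comp, Preadditive.comp_sub]

/-- Constancy of the traces of the powers of a numerically idempotent endomorphism. -/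
theorem trace_const_of_num (hQ : ∀ t : 𝟙_ C ⟶ 𝟙_ C, ∃ q : ℚ, t = q • 𝟙 (𝟙_ C)) {X : C}
    [HasRightDual X] (f : X ⟶ X) (hf : NumTrivial (f ≫ f - f)) (q : ℚ)
    (h : catTrace f = q • 𝟙 (𝟙_ C)) (n : ℕ) :
    LinearMap.trace K (F.obj X).V (((F.obj X).par.hom : Module.End K (F.obj X).V) *
        (lin (F.map f) : Module.End K (F.obj X).V) ^ (n + 1)) = (q : K) := by
  have h1 : ∀ n : ℕ, catTrace (iter f (n + 1)) = q • 𝟙 (𝟙_ C) := by
    intro n
    induction n with
    | zero =>
      have : iter f (0 + 1) = f := by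
        change f ≫ 𝟙 X = f
        rw [Category.comp_id]
      rw [this, h]
    | succ n ih =>
      have h2 := hf (iter f n)
      rw [Preadditive.sub_comp, catTrace_sub, sub_eq_zero, Category.assoc] at h2
      rw [← ih]
      exact h2
  have h3 := trace_of_catTrace F X (iter f (n + 1)) q (h1 n)
  rw [lin_map_pow] at h3
  exact h3.symm

/-- Integrality and bounds for the traces of numerically idempotent endomorphisms. -/
theorem num_bounds (hQ : ∀ t : 𝟙_ C ⟶ 𝟙_ C, ∃ q : ℚ, t = q • 𝟙 (𝟙_ C)) {X : C}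
    [HasRightDual X] (f : X ⟶ X) (hf : NumTrivial (f ≫ f - f)) :
    ∃ m : ℤ, catTrace f = (m : ℚ) • 𝟙 (𝟙_ C) ∧ -((F.obj X).oddDim : ℤ) ≤ m ∧
      m ≤ ((F.obj X).evenDim : ℤ) := by
  have := map_finite F X
  obtain ⟨q, hq⟩ := hQ (catTrace f)
  obtain ⟨m, hm, hm1, hm2, -⟩ := const_trace (par_mul_par (F.obj X))
    (lin_comm (F.obj X) (F.map f)) (trace_const_of_num F hQ f hf q hq)
  refine ⟨m, ?_, by rw [oddDim_eq]; exact hm2, by rw [evenDim_eq]; exact hm1⟩
  have : (m : ℚ) = q := by exact_mod_cast hm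
  rw [this, hq]

theorem num_of_lin_idem (hQ : ∀ t : 𝟙_ C ⟶ 𝟙_ C, ∃ q : ℚ, t = q • 𝟙 (𝟙_ C)) {X : C}
    [HasRightDual X] (f : X ⟶ X) (hf : F.map (f ≫ f) = F.map f) : NumTrivial (f ≫ f - f) := by
  intro g
  have h1 : catTrace ((f ≫ f - f) ≫ g) = (0 : ℚ) • 𝟙 (𝟙_ C) := by
    apply catTrace_of_trace F hQ
    have h2 : F.map ((f ≫ f - f) ≫ g) = 0 := by
      rw [F.map_comp, F.map_sub, hf, sub_self, Limits.zero_comp]
    rw [h2]
    have h3 : (lin (0 : F.obj X ⟶ F.obj X) : Module.End K (F.obj X).V) = 0 := rfl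
    rw [h3, mul_zero, map_zero, Rat.cast_zero]
  rw [h1, zero_smul]

/-- **Criteria for `C⁺`.** -/
theorem criteria (hQ : ∀ t : 𝟙_ C ⟶ 𝟙_ C, ∃ q : ℚ, t = q • 𝟙 (𝟙_ C)) (X : C)
    [HasRightDual X] :
    [CPlus F X,
      (lin (F.obj X).evenProj : Module.End K (F.obj X).V) ∈ Submodule.span K
        (Set.range fun f : X ⟶ X => (lin (F.map f) : Module.End K (F.obj X).V)),
      ∃ f : X ⟶ X, IsCoprime (minpoly K (evenRes (F.map f) : Module.End K (F.obj X).evenPart))
        (minpoly K (oddRes (F.map f) : Module.End K (F.obj X).oddPart)),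
      ∃ f : X ⟶ X, ∀ n : ℕ, catTrace (iter f (n + 1)) = ((F.obj X).evenDim : ℚ) • 𝟙 (𝟙_ C),
      ∃ f : X ⟶ X, NumTrivial (f ≫ f - f) ∧ catTrace f = ((F.obj X).evenDim : ℚ) • 𝟙 (𝟙_ C),
      ∃ f : X ⟶ X, NumTrivial (f ≫ f - f) ∧
        catTrace f = (-((F.obj X).oddDim : ℚ)) • 𝟙 (𝟙_ C)].TFAE := by
  have := map_finite F X
  tfae_have 1 → 3 := coprime_of_cplus F
  tfae_have 3 → 2 := fun ⟨f, hf⟩ => span_of_coprime F f hf
  tfae_have 2 → 1 := cplus_of_span F hQ
  tfae_have 1 → 4 := by
    rintro ⟨p, hp⟩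
    refine ⟨p, fun n => catTrace_of_trace F hQ _ _ ?_⟩
    rw [lin_map_pow, hp, lin_evenProj, pp_pow, trace_par_pp]
    simp
  tfae_have 4 → 1 := by
    rintro ⟨f, hf⟩
    refine cplus_of_const F f fun n => ?_
    have h := trace_of_catTrace F X _ _ (hf n)
    rw [lin_map_pow] at h
    rw [← h]
    simp
  tfae_have 1 → 5 := by
    rintro ⟨p, hp⟩
    refine ⟨p, num_of_lin_idem F hQ p ?_, catTrace_of_trace F hQ _ _ ?_⟩
    · rw [F.map_comp, hp]
      apply SVect.hom_ext
      apply ModuleCat.hom_ext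
      exact pp_mul_pp (par_mul_par (F.obj X))
    · rw [hp, lin_evenProj, trace_par_pp]
      simp
  tfae_have 5 → 1 := by
    rintro ⟨f, hf, hf'⟩
    refine cplus_of_const F f fun n => ?_
    rw [trace_const_of_num F hQ f hf _ hf' n]
    simp
  tfae_have 1 → 6 := by
    rintro ⟨p, hp⟩
    have h1 : (lin (F.map (𝟙 X - p)) : Module.End K (F.obj X).V) =
        pm ((F.obj X).par.hom : Module.End K (F.obj X).V) := by
      rw [F.map_sub, F.map_id, hp]
      have : (lin (𝟙 (F.obj X) - (F.obj X).evenProj) : Module.End K (F.obj X).V) =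
          1 - pp ((F.obj X).par.hom : Module.End K (F.obj X).V) := rfl
      rw [this, ← pp_add_pm ((F.obj X).par.hom : Module.End K (F.obj X).V)]
      abel
    refine ⟨𝟙 X - p, num_of_lin_idem F hQ _ ?_, catTrace_of_trace F hQ _ _ ?_⟩
    · apply SVect.hom_ext
      apply ModuleCat.hom_ext
      change lin (F.map ((𝟙 X - p) ≫ (𝟙 X - p))) = lin (F.map (𝟙 X - p))
      rw [lin_map_comp, h1]
      exact pm_mul_pm (par_mul_par (F.obj X))
    · rw [h1, trace_par_pm]
      simp
  tfae_have 6 → 1 := by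
    rintro ⟨f, hf, hf'⟩
    refine cplus_of_const' F f fun n => ?_
    rw [trace_const_of_num F hQ f hf _ hf' n]
    simp
  tfae_finish

end MonMain

section Tensor

variable {C : Type u₁} [Category.{v₁} C] [Preadditive C] [Linear ℚ C] [MonoidalCategory C]
  [BraidedCategory C]
variable {K : Type u} [Field K] [CharZero K] (F : C ⥤ SVect K) [F.Braided] [F.Additive]

/-- The parity operator as a morphism of super vector spaces. -/
def parHom (M : SVect K) : M ⟶ M := ⟨M.par, rfl⟩

theorem cplus_iff_parHom {X : C} : CPlus F X ↔ ∃ p : X ⟶ X, F.map p = parHom (F.obj X) := by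
  constructor
  · intro h
    obtain ⟨p, hp⟩ := par_mem_of_cplus F h
    exact ⟨p, SVect.hom_ext (ModuleCat.hom_ext hp)⟩
  · rintro ⟨p, hp⟩
    apply cplus_of_par_mem
    exact ⟨p, by simp only [hp]; rfl⟩

theorem parHom_natural {M N : SVect K} (f : M ⟶ N) : parHom M ≫ f = f ≫ parHom N :=
  SVect.hom_ext f.comm

theorem parHom_tensor (M N : SVect K) : parHom (M ⊗ N) = parHom M ⊗ₘ parHom N := rfl

/-- `C⁺` for a tensor product implies `C⁺` for each non-zero factor. -/
theorem cplus_left_of_tensor {X Y : C} [HasRightDual Y] (hY : Nontrivial (F.obj Y).V)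
    (h : CPlus F (X ⊗ Y)) : CPlus F X := by
  have := map_finite F Y
  rw [cplus_iff_parHom] at h
  obtain ⟨p, hp⟩ := h
  have h1 : μ F X Y ≫ F.map p ≫ δ F X Y = parHom (F.obj X) ⊗ₘ parHom (F.obj Y) := by
    rw [hp, ← Category.assoc, ← parHom_natural, Category.assoc, μ_δ, Category.comp_id]
    rfl
  have h2 := map_parTrace F p
  rw [h1, parD_tensor] at h2
  have h3 : (trD (coF F Y Yᘁ) (evF F Y Yᘁ) (parHom (F.obj Y))).f.hom (1 : K) =
      (Module.finrank K (F.obj Y).V : K) := by
    rw [trD_apply _ _ (snakeF F Y Yᘁ)]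
    have h4 : (F.obj Y).par.hom ∘ₗ (parHom (F.obj Y)).f.hom = LinearMap.id := by
      ext v
      exact par_par _ v
    rw [h4, LinearMap.trace_id]
  set d := Module.finrank K (F.obj Y).V with hd
  have hd0 : (d : ℚ) ≠ 0 := by
    have : 0 < d := Module.finrank_pos
    exact_mod_cast this.ne'
  apply cplus_of_par_mem
  refine ⟨(d : ℚ)⁻¹ • parTrace p, ?_⟩
  change lin (F.map ((d : ℚ)⁻¹ • parTrace p)) = _
  rw [lin_map_rat_smul, h2]
  ext v
  have h5 : (lin (parHom (F.obj X) ≫ (ρ_ (F.obj X)).inv ≫ F.obj X ◁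
      trD (coF F Y Yᘁ) (evF F Y Yᘁ) (parHom (F.obj Y)) ≫ (ρ_ (F.obj X)).hom)) v =
      (d : K) • (F.obj X).par.hom v := by
    have h6 := scalar_apply (trD (coF F Y Yᘁ) (evF F Y Yᘁ) (parHom (F.obj Y))) (F.obj X)
      ((F.obj X).par.hom v)
    rw [h3] at h6
    exact h6
  rw [LinearMap.smul_apply, h5, smul_smul]
  have h7 : (((d : ℚ)⁻¹ : ℚ) : K) * (d : K) = 1 := by
    have : (d : K) ≠ 0 := by exact_mod_cast hd0
    push_cast
    exact inv_mul_cancel₀ this
  rw [h7, one_smul]

/-- `C⁺` is invariant under isomorphism. -/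
theorem cplus_iso {X Y : C} (e : X ≅ Y) (h : CPlus F X) : CPlus F Y := by
  rw [cplus_iff_parHom] at h ⊢
  obtain ⟨p, hp⟩ := h
  refine ⟨e.inv ≫ p ≫ e.hom, ?_⟩
  rw [F.map_comp, F.map_comp, hp, parHom_natural, ← Category.assoc, ← F.map_comp, e.inv_hom_id,
    F.map_id, Category.id_comp]

theorem cplus_tensor {X Y : C} (hX : CPlus F X) (hY : CPlus F Y) : CPlus F (X ⊗ Y) := by
  rw [cplus_iff_parHom] at hX hY ⊢
  obtain ⟨p, hp⟩ := hX
  obtain ⟨q, hq⟩ := hY
  refine ⟨p ⊗ₘ q, ?_⟩
  rw [map_tensor, hp, hq, ← parHom_tensor, parHom_natural, δ_μ_assoc]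

/-- For objects with non-zero realisation, `C⁺(X ⊗ Y)` is equivalent to `C⁺(X)` and `C⁺(Y)`. -/
theorem cplus_tensor_iff {X Y : C} [HasRightDual X] [HasRightDual Y]
    (hX : Nontrivial (F.obj X).V) (hY : Nontrivial (F.obj Y).V) :
    CPlus F (X ⊗ Y) ↔ CPlus F X ∧ CPlus F Y := by
  constructor
  · intro h
    exact ⟨cplus_left_of_tensor F hY h, cplus_left_of_tensor F hX (cplus_iso F (β_ X Y) h)⟩
  · rintro ⟨h1, h2⟩
    exact cplus_tensor F h1 h2

end Tensor

section Transport

variable {C : Type u₁} [Category.{v₁} C] [Preadditive C] [Linear ℚ C] [MonoidalCategory C]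
  [BraidedCategory C]
variable {K : Type u} [Field K] [CharZero K] (F : C ⥤ SVect K) [F.Braided] [F.Additive]
variable {C' : Type u₂} [Category.{v₂} C'] [Preadditive C'] [Linear ℚ C'] [MonoidalCategory C']
  [BraidedCategory C']
variable {L : Type w} [Field L] [CharZero L] (F' : C' ⥤ SVect L) [F'.Braided] [F'.Additive]

/-- `C⁺` is transported by symmetric monoidal functors which preserve the even Betti number. -/
theorem cplus_transport (T : C ⥤ C') [T.Braided] [T.Additive]
    (hQ : ∀ t : 𝟙_ C ⟶ 𝟙_ C, ∃ q : ℚ, t = q • 𝟙 (𝟙_ C)) (X : C) [HasRightDual X]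
    (hd : (F'.obj (T.obj X)).evenDim = (F.obj X).evenDim) (h : CPlus F X) :
    CPlus F' (T.obj X) := by
  have hfin := map_finite F X
  have hfin' : Module.Finite L (F'.obj (T.obj X)).V := map_finite (T ⋙ F') X
  obtain ⟨p, hp⟩ := h
  refine cplus_of_const F' (T.map p) fun n => ?_
  have h1 : catTrace (iter p (n + 1)) = ((F.obj X).evenDim : ℚ) • 𝟙 (𝟙_ C) := by
    apply catTrace_of_trace F hQ
    rw [lin_map_pow, hp, lin_evenProj, pp_pow, trace_par_pp]
    simp
  have h2 := trace_of_catTrace (T ⋙ F') X _ _ h1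
  rw [lin_map_pow] at h2
  rw [hd]
  have h3 : (((F.obj X).evenDim : ℚ) : L) = ((F.obj X).evenDim : L) := by simp
  rw [← h3, h2]
  rfl

end Transport

end NCSign
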