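import Mathlib
import Pool.Agent.Lib_MP_8f22fa_ag.Main

/-!
`C⁺` for the symmetric or exterior square implies `C⁺`.
-/

open CategoryTheory MonoidalCategory Functor.LaxMonoidal Functor.OplaxMonoidal Functor.Monoidal
open TensorProduct

universe u v₁ u₁

namespace NCSign

open SVect

section Super

variable {K : Type u} [Field K] [CharZero K]
variable {A B : SVect K} (co : 𝟙_ (SVect K) ⟶ A ⊗ B) (ev : B ⊗ A ⟶ 𝟙_ (SVect K))
  (h : co ▷ A ≫ (α_ _ _ _).hom ≫ A ◁ ev = (λ_ A).hom ≫ (ρ_ A).inv)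

/-- The contraction `x ⊗ a ↦ ev(w ⊗ par a) x`. -/
noncomputable def psi (X : SVect K) (w : B.V) : X.V ⊗[K] A.V →ₗ[K] X.V :=
  (TensorProduct.rid K X.V).toLinearMap ∘ₗ
    LinearMap.lTensor X.V (evForm ev ∘ₗ (TensorProduct.mk K B.V A.V w) ∘ₗ A.par.hom)

omit [CharZero K] in
theorem psi_tmul (X : SVect K) (w : B.V) (x : X.V) (a : A.V) :
    psi ev X w (x ⊗ₜ[K] a) = evForm ev (w ⊗ₜ[K] A.par.hom a) • x := by
  simp only [psi, LinearMap.comp_apply, LinearMap.lTensor_tmul, LinearEquiv.coe_coe,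
    TensorProduct.rid_tmul, TensorProduct.mk_apply]

theorem ev_kz (a : A.V) (w : B.V) :
    evForm ev ((kz A B).hom (a ⊗ₜ[K] w)) = evForm ev (w ⊗ₜ[K] A.par.hom a) := by
  have h2 : (kz A B).hom (a ⊗ₜ[K] w) = (2⁻¹ : K) • (w ⊗ₜ[K] a +
      w ⊗ₜ[K] A.par.hom a + B.par.hom w ⊗ₜ[K] a
        - B.par.hom w ⊗ₜ[K] A.par.hom a) := kz_tmul A B _ _
  rw [h2, map_smul, map_sub, map_add, map_add, ev_par, ev_par', smul_eq_mul]
  field_simp
  ring

theorem contr_eq (X : SVect K) (t : X.V ⊗[K] A.V) (w : B.V) :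
    (TensorProduct.rid K X.V) ((LinearMap.lTensor X.V (evForm ev ∘ₗ (kz A B).hom))
      ((TensorProduct.assoc K X.V A.V B.V) (t ⊗ₜ[K] w))) = psi ev X w t := by
  induction t using TensorProduct.induction_on with
  | zero => simp
  | add s t hs ht => rw [TensorProduct.add_tmul, map_add, map_add, map_add, hs, ht, map_add]
  | tmul x a =>
    rw [TensorProduct.assoc_tmul, LinearMap.lTensor_tmul, TensorProduct.rid_tmul, psi_tmul,
      LinearMap.comp_apply]
    congr 1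
    exact ev_kz ev a w

theorem contr_sum (X : SVect K) (G : X.V ⊗[K] A.V →ₗ[K] X.V ⊗[K] A.V) (S : Finset (A.V × B.V))
    (v : X.V) : (TensorProduct.rid K X.V) ((LinearMap.lTensor X.V (evForm ev ∘ₗ (kz A B).hom))
      ((TensorProduct.assoc K X.V A.V B.V)
        ((LinearMap.rTensor B.V G) ((TensorProduct.assoc K X.V A.V B.V).symm
          (v ⊗ₜ[K] (∑ i ∈ S, i.1 ⊗ₜ[K] i.2)))))) = ∑ i ∈ S, psi ev X i.2 (G (v ⊗ₜ[K] i.1)) := by
  rw [TensorProduct.tmul_sum, map_sum, map_sum, map_sum, map_sum, map_sum]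
  refine Finset.sum_congr rfl fun i _ => ?_
  rw [TensorProduct.assoc_symm_tmul, LinearMap.rTensor_tmul]
  exact contr_eq ev X _ _

theorem parD_apply {X : SVect K} (g : X ⊗ A ⟶ X ⊗ A) {S : Finset (A.V × B.V)}
    (hS : coElt co = ∑ i ∈ S, i.1 ⊗ₜ[K] i.2) (v : X.V) :
    (parD co ev g).f.hom v = ∑ i ∈ S, psi ev X i.2 (g.f.hom (v ⊗ₜ[K] i.1)) := by
  have h1 : (parD co ev g).f.hom v =
      (TensorProduct.rid K X.V) ((LinearMap.lTensor X.V (evForm ev ∘ₗ (kz A B).hom))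
      ((TensorProduct.assoc K X.V A.V B.V)
        ((LinearMap.rTensor B.V (g.f.hom : X.V ⊗[K] A.V →ₗ[K] X.V ⊗[K] A.V))
          ((TensorProduct.assoc K X.V A.V B.V).symm (v ⊗ₜ[K] (coElt co)))))) := rfl
  rw [h1, hS]
  exact contr_sum ev X g.f.hom S v

include h in
theorem parD_flip : parD co ev ((parHom A ⊗ₘ parHom A) ≫ (β_ A A).hom) = 𝟙 A := by
  obtain ⟨S, hS⟩ := TensorProduct.exists_finset (coElt co)
  apply SVect.hom_ext
  apply ModuleCat.hom_ext
  ext v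
  rw [parD_apply co ev _ hS]
  have h1 : ∀ a : A.V, ((parHom A ⊗ₘ parHom A) ≫ (β_ A A).hom).f.hom (v ⊗ₜ[K] a) =
      (2⁻¹ : K) • (A.par.hom a ⊗ₜ[K] A.par.hom v + A.par.hom a ⊗ₜ[K] v
      + a ⊗ₜ[K] A.par.hom v - a ⊗ₜ[K] v) := by
    intro a
    have h2 := kz_tmul A A (A.par.hom v) (A.par.hom a)
    rw [par_par, par_par] at h2
    exact h2
  have h3 : ∀ i ∈ S, psi ev A i.2 (((parHom A ⊗ₘ parHom A) ≫ (β_ A A).hom).f.hom (v ⊗ₜ[K] i.1)) =
      (2⁻¹ : K) • (A.par.hom (evForm ev (i.2 ⊗ₜ[K] v) • i.1) +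
        A.par.hom (evForm ev (i.2 ⊗ₜ[K] A.par.hom v) • i.1) +
        evForm ev (i.2 ⊗ₜ[K] v) • i.1 - evForm ev (i.2 ⊗ₜ[K] A.par.hom v) • i.1) := by
    intro i _
    rw [h1, map_smul, map_sub, map_add, map_add, psi_tmul, psi_tmul, psi_tmul, psi_tmul, par_par,
      map_smul, map_smul]
  have h4 := fun u => snake_sum (snake_elt co ev h) hS u
  rw [Finset.sum_congr rfl h3, ← Finset.smul_sum, Finset.sum_sub_distrib, Finset.sum_add_distrib,
    Finset.sum_add_distrib, ← map_sum, ← map_sum, h4, h4, par_par]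
  have h5 : A.par.hom v + v + v - A.par.hom v = (2 : K) • v := by rw [two_smul]; abel
  rw [h5, smul_smul, inv_mul_cancel₀ two_ne_zero, one_smul]
  rfl

theorem parD_add {D : Type*} [Category* D] [MonoidalCategory D] [BraidedCategory D]
    [Preadditive D] [MonoidalPreadditive D] {X A B : D} (co : 𝟙_ D ⟶ A ⊗ B)
    (ev : B ⊗ A ⟶ 𝟙_ D) (g g' : X ⊗ A ⟶ X ⊗ A) :
    parD co ev (g + g') = parD co ev g + parD co ev g' := by
  simp [parD]

end Super

section Square

variable {C : Type u₁} [Category.{v₁} C] [Preadditive C] [Linear ℚ C] [MonoidalCategory C]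
  [BraidedCategory C]
variable {K : Type u} [Field K] [CharZero K] (F : C ⥤ SVect K) [F.Braided] [F.Additive]

/-- The element `s` is `1` for the symmetric square and `-1` for the exterior square. -/
theorem cplus_of_square {X Y : C} [HasRightDual X] (i : Y ⟶ X ⊗ X) (r : X ⊗ X ⟶ Y) (s : ℚ)
    (hs : r ≫ i = (2⁻¹ : ℚ) • (𝟙 (X ⊗ X) + s • (β_ X X).hom)) (h : CPlus F Y) : CPlus F X := by
  have := map_finite F X
  rw [cplus_iff_parHom] at h
  obtain ⟨p, hp⟩ := h
  set co := coF F X Xᘁ with hco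
  set ev := evF F X Xᘁ with hev
  have hsn := snakeF F X Xᘁ
  rw [← hco, ← hev] at hsn
  have hg : μ F X X ≫ F.map (r ≫ p ≫ i) ≫ δ F X X = (parHom (F.obj X) ⊗ₘ parHom (F.obj X)) ≫
      (μ F X X ≫ F.map (r ≫ i) ≫ δ F X X) := by
    have h1 : F.map (r ≫ p ≫ i) = parHom (F.obj (X ⊗ X)) ≫ F.map (r ≫ i) := by
      rw [F.map_comp, F.map_comp, hp, F.map_comp, ← Category.assoc, ← parHom_natural,
        Category.assoc]
    rw [h1, ← parHom_tensor]
    simp only [← Category.assoc]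
    rw [parHom_natural]
  obtain ⟨S, hS⟩ := TensorProduct.exists_finset (coElt co)
  -- the linear map of `μ ≫ F(r ≫ i) ≫ δ`
  have hlin : ∀ t, (lin (μ F X X ≫ F.map (r ≫ i) ≫ δ F X X) :
      _ →ₗ[K] _) t = (2⁻¹ : K) • (t + (s : K) • (lin (β_ (F.obj X) (F.obj X)).hom) t) := by
    intro t
    have h1 : (lin (μ F X X ≫ F.map (r ≫ i) ≫ δ F X X)) t =
      lin (δ F X X) (lin (F.map (r ≫ i)) (lin (μ F X X) t)) := rfl
    have h3 : lin (F.map ((2⁻¹ : ℚ) • (𝟙 (X ⊗ X) + s • (β_ X X).hom))) =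
        ((2⁻¹ : ℚ) : K) • (lin (F.map (𝟙 (X ⊗ X))) + (s : K) • lin (F.map (β_ X X).hom)) := by
      rw [lin_map_rat_smul, F.map_add, ← lin_map_rat_smul]
      rfl
    have h4 : lin (δ F X X) (lin (F.map (𝟙 (X ⊗ X))) (lin (μ F X X) t)) = t := by
      have h5 : μ F X X ≫ F.map (𝟙 (X ⊗ X)) ≫ δ F X X = 𝟙 _ := by
        rw [F.map_id, Category.id_comp, μ_δ]
      exact congrArg (fun g => g.f.hom t) h5
    have h6 : lin (δ F X X) (lin (F.map (β_ X X).hom) (lin (μ F X X) t)) =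
        (lin (β_ (F.obj X) (F.obj X)).hom) t := by
      have h5 : μ F X X ≫ F.map (β_ X X).hom ≫ δ F X X = (β_ (F.obj X) (F.obj X)).hom := by
        rw [Functor.map_braiding]; simp
      exact congrArg (fun g => g.f.hom t) h5
    rw [h1, hs, h3, LinearMap.smul_apply, LinearMap.add_apply, LinearMap.smul_apply, map_smul,
      map_add, map_smul, h4, h6]
    push_cast
    rfl
  have hpar : ∀ v, (lin (F.map (parTrace (r ≫ p ≫ i)))) v = (2⁻¹ : K) •
      ((Module.finrank K (F.obj X).V : K) • (F.obj X).par.hom v + (s : K) • v) := by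
    intro v
    rw [map_parTrace, hg]
    have e1 := parD_apply co ev ((parHom (F.obj X) ⊗ₘ parHom (F.obj X)) ≫
      (μ F X X ≫ F.map (r ≫ i) ≫ δ F X X)) hS v
    have e2 := parD_apply co ev (parHom (F.obj X) ⊗ₘ parHom (F.obj X)) hS v
    have e3 := parD_apply co ev ((parHom (F.obj X) ⊗ₘ parHom (F.obj X)) ≫ (β_ _ _).hom) hS v
    rw [parD_flip co ev hsn] at e3
    have e4 : ∀ j ∈ S, psi ev (F.obj X) j.2 (((parHom (F.obj X) ⊗ₘ parHom (F.obj X)) ≫
      (μ F X X ≫ F.map (r ≫ i) ≫ δ F X X)).f.hom (v ⊗ₜ[K] j.1)) =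
      (2⁻¹ : K) • (psi ev (F.obj X) j.2 ((parHom (F.obj X) ⊗ₘ parHom (F.obj X)).f.hom (v ⊗ₜ[K] j.1)) +
        (s : K) • psi ev (F.obj X) j.2 (((parHom (F.obj X) ⊗ₘ parHom (F.obj X)) ≫
          (β_ _ _).hom).f.hom (v ⊗ₜ[K] j.1))) := by
      intro j _
      rw [← map_smul, ← map_add, ← map_smul]
      congr 1
      exact hlin _
    rw [Finset.sum_congr rfl e4, ← Finset.smul_sum, Finset.sum_add_distrib, ← Finset.smul_sum,
      ← e2, ← e3] at e1
    refine e1.trans ?_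
    congr 2
    rw [parD_tensor]
    have h6 := scalar_apply (trD co ev (parHom (F.obj X))) (F.obj X) ((F.obj X).par.hom v)
    have h3 : (trD co ev (parHom (F.obj X))).f.hom (1 : K) = (Module.finrank K (F.obj X).V : K) := by
      rw [trD_apply _ _ hsn]
      have h4 : (F.obj X).par.hom ∘ₗ (parHom (F.obj X)).f.hom = LinearMap.id := by
        ext v
        exact par_par _ v
      rw [h4, LinearMap.trace_id]
    rw [h3] at h6
    exact h6
  by_cases hd : Module.finrank K (F.obj X).V = 0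
  · apply cplus_of_par_mem
    have hsub : Subsingleton (F.obj X).V := Module.finrank_zero_iff.mp hd
    have : ((F.obj X).par.hom : Module.End K (F.obj X).V) = 1 := by
      ext v
      exact Subsingleton.elim _ _
    rw [this]
    exact (algRing F X).one_mem
  · apply cplus_of_par_mem
    set d := Module.finrank K (F.obj X).V with hdd
    refine ⟨(d : ℚ)⁻¹ • ((2 : ℚ) • parTrace (r ≫ p ≫ i) - s • 𝟙 X), ?_⟩
    change lin (F.map ((d : ℚ)⁻¹ • ((2 : ℚ) • parTrace (r ≫ p ≫ i) - s • 𝟙 X))) = _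
    have hd' : (d : K) ≠ 0 := by exact_mod_cast hd
    ext v
    have h1 : (lin (F.map ((2 : ℚ) • parTrace (r ≫ p ≫ i) - s • 𝟙 X))) v =
        (2 : K) • (lin (F.map (parTrace (r ≫ p ≫ i)))) v - (s : K) • v := by
      rw [F.map_sub]
      have h2 : (lin (F.map ((2 : ℚ) • parTrace (r ≫ p ≫ i)) - F.map (s • 𝟙 X))) v =
        (lin (F.map ((2 : ℚ) • parTrace (r ≫ p ≫ i)))) v - (lin (F.map (s • 𝟙 X))) v := rfl
      rw [h2, lin_map_rat_smul, lin_map_rat_smul, F.map_id]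
      simp only [LinearMap.smul_apply]
      push_cast
      rfl
    rw [lin_map_rat_smul, LinearMap.smul_apply, h1, hpar, smul_smul, mul_inv_cancel₀ two_ne_zero,
      one_smul, add_sub_cancel_right, smul_smul]
    push_cast
    rw [inv_mul_cancel₀ hd', one_smul]

end Square

end NCSign
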