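import Mathlib
import Pool.Agent.Lib_MP_8f22fa_ag.Square

/-!
Invariance of `C⁺` under isomorphism of numerical motives with the same even Betti number.
-/

open CategoryTheory MonoidalCategory

universe u v₁ u₁

namespace NCSign

open SVect

variable {C : Type u₁} [Category.{v₁} C] [Preadditive C] [Linear ℚ C] [MonoidalCategory C]
  [BraidedCategory C] [MonoidalPreadditive C]
variable {K : Type u} [Field K] [CharZero K] (F : C ⥤ SVect K) [F.Braided] [F.Additive]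

include F in
omit [MonoidalPreadditive C] in
/-- Cyclicity of the trace. -/
theorem catTrace_cyclic (hQ : ∀ t : 𝟙_ C ⟶ 𝟙_ C, ∃ q : ℚ, t = q • 𝟙 (𝟙_ C)) {X Y : C}
    [HasRightDual X] [HasRightDual Y] (f : X ⟶ Y) (g : Y ⟶ X) :
    catTrace (f ≫ g) = catTrace (g ≫ f) := by
  obtain ⟨q, hq⟩ := hQ (catTrace (g ≫ f))
  rw [hq]
  apply catTrace_of_trace F hQ
  rw [trace_of_catTrace F Y (g ≫ f) q hq]
  have h1 : ((F.obj X).par.hom : Module.End K (F.obj X).V) * (lin (F.map (f ≫ g)) : Module.End K (F.obj X).V)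
      = lin (F.map g) ∘ₗ ((F.obj Y).par.hom ∘ₗ lin (F.map f)) := by
    rw [lin_map_comp]
    ext v
    exact (comm_apply (F.map g) _).symm
  have h2 : ((F.obj Y).par.hom : Module.End K (F.obj Y).V) * (lin (F.map (g ≫ f)) : Module.End K (F.obj Y).V)
      = ((F.obj Y).par.hom ∘ₗ lin (F.map f)) ∘ₗ lin (F.map g) := by
    rw [lin_map_comp]
    rfl
  have := map_finite F X
  have := map_finite F Y
  rw [h1, h2, LinearMap.trace_comp_comm']

include F in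
theorem num_conj (hQ : ∀ t : 𝟙_ C ⟶ 𝟙_ C, ∃ q : ℚ, t = q • 𝟙 (𝟙_ C)) {X Y : C}
    [HasRightDual X] [HasRightDual Y] (f : X ⟶ Y) (g : Y ⟶ X) (n : X ⟶ X) (hn : NumTrivial n) :
    NumTrivial (g ≫ n ≫ f) := by
  intro h
  have : (g ≫ n ≫ f) ≫ h = g ≫ (n ≫ f ≫ h) := by simp
  rw [this, catTrace_cyclic F hQ]
  have h2 : (n ≫ f ≫ h) ≫ g = n ≫ (f ≫ h ≫ g) := by simp
  rw [h2]
  exact hn _

theorem num_add {X : C} [HasRightDual X] {a b : X ⟶ X} (ha : NumTrivial a) (hb : NumTrivial b) :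
    NumTrivial (a + b) := by
  intro g
  have h1 := hb g
  have : (a + b) ≫ g = a ≫ g - (-b) ≫ g := by simp
  rw [this, catTrace_sub, ha g]
  have h2 : (-b) ≫ g = b ≫ g - (b ≫ g + b ≫ g) := by simp
  have h3 : catTrace ((-b) ≫ g) = 0 := by
    rw [h2, catTrace_sub, h1]
    have h4 : b ≫ g + b ≫ g = b ≫ (g + g) := by simp
    rw [h4, hb]
    simp
  rw [h3, sub_zero]

/-- One direction of numerical invariance. -/
theorem num_inv (hQ : ∀ t : 𝟙_ C ⟶ 𝟙_ C, ∃ q : ℚ, t = q • 𝟙 (𝟙_ C)) {X Y : C}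
    [HasRightDual X] [HasRightDual Y] (f : X ⟶ Y) (g : Y ⟶ X)
    (h1 : NumTrivial (f ≫ g - 𝟙 X))
    (hd : (F.obj X).evenDim = (F.obj Y).evenDim) (hX : CPlus F X) : CPlus F Y := by
  rw [(criteria F hQ X).out 0 4 rfl rfl] at hX
  rw [(criteria F hQ Y).out 0 4 rfl rfl]
  obtain ⟨p, hp, hp'⟩ := hX
  refine ⟨g ≫ p ≫ f, ?_, ?_⟩
  · have e1 : (g ≫ p ≫ f) ≫ (g ≫ p ≫ f) - g ≫ p ≫ f =
        (g ≫ p) ≫ (f ≫ g - 𝟙 X) ≫ (p ≫ f) + g ≫ (p ≫ p - p) ≫ f := by
      simp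
    rw [e1]
    apply num_add
    · have := num_conj F hQ (p ≫ f) (g ≫ p) (f ≫ g - 𝟙 X) h1
      simpa using this
    · exact num_conj F hQ f g _ hp
  · have e2 : g ≫ p ≫ f = g ≫ (p ≫ f) := rfl
    rw [catTrace_cyclic F hQ g (p ≫ f)]
    have e3 : catTrace ((p ≫ f) ≫ g) = catTrace p := by
      have h2 := h1 p
      rw [Preadditive.sub_comp, catTrace_sub, Category.id_comp, sub_eq_zero] at h2
      rw [← h2, Category.assoc, catTrace_cyclic F hQ]
    rw [e3, hp', hd]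

end NCSign
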