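import Mathlib
import Pool.Agent.Lib_MP_8f22fa_ag.NumInv

/-!
`C⁺` is transported by symmetric monoidal functors and numerical direct summands preserving the
even Betti number.
-/

open CategoryTheory MonoidalCategory

universe u v₁ u₁ v₂ u₂ w

namespace NCSign

open SVect

section Iter

variable {C : Type u₁} [Category.{v₁} C]

theorem iter_comp_iter {X : C} (f : X ⟶ X) (n : ℕ) : iter f n ≫ f = f ≫ iter f n := by
  induction n with
  | zero => simp [iter]
  | succ n ih => rw [iter, Category.assoc, ih]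

end Iter

section Num

variable {C' : Type u₂} [Category.{v₂} C'] [Preadditive C'] [Linear ℚ C'] [MonoidalCategory C']
  [BraidedCategory C'] [MonoidalPreadditive C']
variable {L : Type w} [Field L] [CharZero L] (F' : C' ⥤ SVect L) [F'.Braided] [F'.Additive]

theorem num_zero {X : C'} [HasRightDual X] : NumTrivial (0 : X ⟶ X) := by
  intro g
  have h := catTrace_sub (0 : X ⟶ X) 0
  rw [sub_zero, sub_self] at h
  rw [Limits.zero_comp, h]

theorem num_comp_right {X : C'} [HasRightDual X] {a : X ⟶ X} (ha : NumTrivial a) (b : X ⟶ X) :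
    NumTrivial (a ≫ b) := by
  intro g
  rw [Category.assoc]
  exact ha _

include F' in
theorem num_comp_left (hQ : ∀ t : 𝟙_ C' ⟶ 𝟙_ C', ∃ q : ℚ, t = q • 𝟙 (𝟙_ C')) {X : C'}
    [HasRightDual X] {a : X ⟶ X} (ha : NumTrivial a) (b : X ⟶ X) :
    NumTrivial (b ≫ a) := by
  intro g
  rw [Category.assoc, catTrace_cyclic F' hQ, Category.assoc]
  exact ha _

include F' in
/-- Powers of `g ≫ p ≫ f` are numerically equivalent to `g ≫ p ^ n ≫ f`. -/
theorem num_iter (hQ : ∀ t : 𝟙_ C' ⟶ 𝟙_ C', ∃ q : ℚ, t = q • 𝟙 (𝟙_ C')) {X Y : C'}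
    [HasRightDual X] [HasRightDual Y] (f : X ⟶ Y) (g : Y ⟶ X) (p : X ⟶ X)
    (h1 : NumTrivial (f ≫ g - 𝟙 X)) (n : ℕ) :
    NumTrivial (iter (g ≫ p ≫ f) (n + 1) - g ≫ iter p (n + 1) ≫ f) := by
  induction n with
  | zero =>
    have : iter (g ≫ p ≫ f) (0 + 1) - g ≫ iter p (0 + 1) ≫ f = 0 := by
      simp [iter]
    rw [this]
    exact num_zero
  | succ n ih =>
    have e1 : iter (g ≫ p ≫ f) (n + 1 + 1) - g ≫ iter p (n + 1 + 1) ≫ f =
        (g ≫ p ≫ f) ≫ (iter (g ≫ p ≫ f) (n + 1) - g ≫ iter p (n + 1) ≫ f) +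
        (g ≫ p) ≫ (f ≫ g - 𝟙 X) ≫ (iter p (n + 1) ≫ f) := by
      have i1 : iter (g ≫ p ≫ f) (n + 1 + 1) = (g ≫ p ≫ f) ≫ iter (g ≫ p ≫ f) (n + 1) := rfl
      have i2 : iter p (n + 1 + 1) = p ≫ iter p (n + 1) := rfl
      rw [i1, i2]
      generalize iter (g ≫ p ≫ f) (n + 1) = a
      generalize iter p (n + 1) = b
      simp
    rw [e1]
    apply num_add
    · exact num_comp_left F' hQ ih _
    · have := num_conj F' hQ (iter p (n + 1) ≫ f) (g ≫ p) (f ≫ g - 𝟙 X) h1
      simpa using this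

end Num

section Transport

variable {C : Type u₁} [Category.{v₁} C] [Preadditive C] [Linear ℚ C] [MonoidalCategory C]
  [BraidedCategory C]
variable {K : Type u} [Field K] [CharZero K] (F : C ⥤ SVect K) [F.Braided] [F.Additive]
variable {C' : Type u₂} [Category.{v₂} C'] [Preadditive C'] [Linear ℚ C'] [MonoidalCategory C']
  [BraidedCategory C'] [MonoidalPreadditive C']
variable {L : Type w} [Field L] [CharZero L] (F' : C' ⥤ SVect L) [F'.Braided] [F'.Additive]

/-- `C⁺` is transported by symmetric monoidal functors and numerical direct summands which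
preserve the even Betti number. -/
theorem cplus_num_transport (T : C ⥤ C') [T.Braided] [T.Additive]
    (hQ : ∀ t : 𝟙_ C ⟶ 𝟙_ C, ∃ q : ℚ, t = q • 𝟙 (𝟙_ C))
    (hQ' : ∀ t : 𝟙_ C' ⟶ 𝟙_ C', ∃ q : ℚ, t = q • 𝟙 (𝟙_ C'))
    (X : C) [HasRightDual X] (Y : C') [HasRightDual Y] [HasRightDual (T.obj X)]
    (f : T.obj X ⟶ Y) (g : Y ⟶ T.obj X) (hfg : NumTrivial (f ≫ g - 𝟙 (T.obj X)))
    (hd : (F'.obj Y).evenDim = (F.obj X).evenDim) (h : CPlus F X) :
    CPlus F' Y := by
  have hfin := map_finite F X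
  have hfin' : Module.Finite L (F'.obj Y).V := map_finite F' Y
  have hfin'' : Module.Finite L (F'.obj (T.obj X)).V := map_finite F' (T.obj X)
  obtain ⟨p, hp⟩ := h
  refine cplus_of_const F' (g ≫ T.map p ≫ f) fun n => ?_
  have h1 : catTrace (iter p (n + 1)) = ((F.obj X).evenDim : ℚ) • 𝟙 (𝟙_ C) := by
    apply catTrace_of_trace F hQ
    rw [lin_map_pow, hp, lin_evenProj, pp_pow, trace_par_pp]
    simp
  have h2 := trace_of_catTrace (T ⋙ F') X _ _ h1
  have h5 : catTrace (iter (T.map p) (n + 1)) = ((F.obj X).evenDim : ℚ) • 𝟙 (𝟙_ C') := by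
    apply catTrace_of_trace F' hQ'
    rw [h2]
    have h6 : T.map (iter p (n + 1)) = iter (T.map p) (n + 1) := by
      induction (n + 1) with
      | zero => simp [iter]
      | succ n ih => rw [iter, T.map_comp, ih]; rfl
    rw [← h6]
    rfl
  have h7 : catTrace (iter (g ≫ T.map p ≫ f) (n + 1)) =
      ((F.obj X).evenDim : ℚ) • 𝟙 (𝟙_ C') := by
    have h8 := num_iter F' hQ' f g (T.map p) hfg n (𝟙 Y)
    rw [Category.comp_id, catTrace_sub, sub_eq_zero] at h8
    rw [h8, catTrace_cyclic F' hQ', ← h5, Category.assoc]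
    have h9 := hfg (iter (T.map p) (n + 1))
    rw [Preadditive.sub_comp, catTrace_sub, sub_eq_zero, Category.id_comp] at h9
    rw [← h9, catTrace_cyclic F' hQ' (f ≫ g)]
  have h10 := trace_of_catTrace F' Y _ _ h7
  rw [lin_map_pow] at h10
  rw [hd, ← h10]
  simp

end Transport

end NCSign
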