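import Mathlib
import Pool.Agent.Lib_MP_8f22fa_ag.SuperFib
import Pool.Agent.Lib_MP_8f22fa_ag.Transport

/-!
Lifting a monoidal functor with a parity operator to super vector spaces.
-/

open CategoryTheory MonoidalCategory Functor.LaxMonoidal Functor.OplaxMonoidal Functor.Monoidal

universe u v₁ u₁ v₂ u₂

namespace NCSuper

open NCSign

section Lift

variable {C : Type u₁} [Category.{v₁} C] [MonoidalCategory C] [BraidedCategory C]
variable {K : Type u} [Field K] [CharZero K] {F : C ⥤ ModuleCat.{u} K} [F.Monoidal]
  {par : F ⟶ F} (h : IsParity F par)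

/-- The lifted functor. -/
def lift (h : IsParity F par) : C ⥤ SVect K where
  obj X := ⟨F.obj X, par.app X, h.sq X⟩
  map f := ⟨F.map f, (par.naturality f).symm⟩
  map_id X := SVect.hom_ext (F.map_id X)
  map_comp f g := SVect.hom_ext (F.map_comp f g)

/-- The lifted functor is monoidal. -/
noncomputable def liftCore : (lift h).CoreMonoidal where
  εIso := SVect.mkIso (X := 𝟙_ (SVect K)) (Y := (lift h).obj (𝟙_ C)) (εIso F) (by
    change 𝟙 _ ≫ ε F = ε F ≫ par.app (𝟙_ C)
    rw [h.unit, Category.id_comp])
  μIso X Y := SVect.mkIso (X := (lift h).obj X ⊗ (lift h).obj Y) (Y := (lift h).obj (X ⊗ Y))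
    (μIso F X Y) (h.tensor X Y).symm
  μIso_hom_natural_left f X' := SVect.hom_ext (μ_natural_left F f X')
  μIso_hom_natural_right X' f := SVect.hom_ext (μ_natural_right F X' f)
  associativity X Y Z := SVect.hom_ext (Functor.LaxMonoidal.associativity F X Y Z)
  left_unitality X := SVect.hom_ext (Functor.LaxMonoidal.left_unitality F X)
  right_unitality X := SVect.hom_ext (Functor.LaxMonoidal.right_unitality F X)

/-- The monoidal structure of the lifted functor. -/
noncomputable instance liftMonoidal : (lift h).Monoidal := (liftCore h).toMonoidal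

theorem kz_eq (X Y : SVect K) : SVect.kz X Y =
    ((2⁻¹ : K) • (𝟙 (X.V ⊗ Y.V) + X.par ▷ Y.V + X.V ◁ Y.par - (X.par ⊗ₘ Y.par))) ≫
      (β_ X.V Y.V).hom := by
  apply ModuleCat.MonoidalCategory.tensor_ext
  intro x y
  rw [SVect.kz_tmul]
  simp only [ModuleCat.hom_comp, LinearMap.comp_apply, ModuleCat.hom_smul, ModuleCat.hom_sub,
    ModuleCat.hom_add, ModuleCat.hom_id, LinearMap.smul_apply, LinearMap.sub_apply,
    LinearMap.add_apply, LinearMap.id_apply, ModuleCat.MonoidalCategory.whiskerRight_apply,
    ModuleCat.MonoidalCategory.whiskerLeft_apply, ModuleCat.MonoidalCategory.tensorHom_tmul,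
    map_smul, map_sub, map_add, ModuleCat.MonoidalCategory.braiding_hom_apply]

/-- The lifted functor is symmetric monoidal. -/
noncomputable instance liftBraided : (lift h).Braided where
  braided X Y := SVect.hom_ext (by
    change μ F X Y ≫ F.map (β_ X Y).hom =
      SVect.kz ((lift h).obj X) ((lift h).obj Y) ≫ μ F Y X
    rw [kz_eq, h.koszul]
    simp only [Category.assoc]
    rfl)

instance liftAdditive [Preadditive C] [F.Additive] : (lift h).Additive where
  map_add := SVect.hom_ext (F.map_add)

theorem lift_evenProj (X : C) : ((lift h).obj X).evenProj.f = evenProj par X := rfl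

theorem cplus_lift (X : C) : NCSign.CPlus (lift h) X ↔ CPlus par X := by
  constructor
  · rintro ⟨p, hp⟩
    exact ⟨p, congrArg (fun g => g.f) hp⟩
  · rintro ⟨p, hp⟩
    exact ⟨p, SVect.hom_ext hp⟩

theorem evenDim_lift (X : C) : ((lift h).obj X).evenDim = evenDim par X := rfl
theorem oddDim_lift (X : C) : ((lift h).obj X).oddDim = oddDim par X := rfl

end Lift

section Tr

variable {C : Type u₁} [Category.{v₁} C] [MonoidalCategory C] [BraidedCategory C]

theorem catTrace_eq {X : C} [HasRightDual X] (f : X ⟶ X) : catTrace f = NCSign.catTrace f := rfl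

theorem numTrivial_iff [Preadditive C] {X : C} [HasRightDual X] (f : X ⟶ X) :
    NumTrivial f ↔ NCSign.NumTrivial f := Iff.rfl

theorem iter_eq {X : C} (f : X ⟶ X) (n : ℕ) : iter f n = NCSign.iter f n := by
  induction n with
  | zero => rfl
  | succ n ih => rw [iter, NCSign.iter, ih]

end Tr

section Span

variable {C : Type u₁} [Category.{v₁} C] [MonoidalCategory C] [BraidedCategory C]
variable {K : Type u} [Field K] [CharZero K] {F : C ⥤ ModuleCat.{u} K} [F.Monoidal]
  {par : F ⟶ F} (h : IsParity F par)

/-- Passing from morphisms to linear maps. -/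
def homEquiv (M : ModuleCat.{u} K) : (M ⟶ M) ≃ₗ[K] Module.End K M where
  toFun f := f.hom
  invFun f := ModuleCat.ofHom f
  map_add' _ _ := rfl
  map_smul' _ _ := rfl
  left_inv _ := rfl
  right_inv _ := rfl

theorem span_plain (M : ModuleCat.{u} K) (S : Set (M ⟶ M)) (x : M ⟶ M) :
    x ∈ Submodule.span K S ↔
      (x.hom : Module.End K M) ∈ Submodule.span K ((homEquiv M) '' S) := by
  have h2 : Submodule.span K ((homEquiv M) '' S) =
      (Submodule.span K S).map (homEquiv M : (M ⟶ M) →ₗ[K] Module.End K M) :=
    Submodule.span_image _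
  rw [h2]
  constructor
  · intro h3
    exact ⟨_, h3, rfl⟩
  · rintro ⟨g, hg, hg'⟩
    have : g = x := (homEquiv M).injective hg'
    rw [← this]
    exact hg

theorem span_lift (X : C) : SpanCPlus par X ↔
    (SVect.lin ((lift h).obj X).evenProj : Module.End K ((lift h).obj X).V) ∈ Submodule.span K
        (Set.range fun f : X ⟶ X => (SVect.lin ((lift h).map f) : Module.End K ((lift h).obj X).V)) := by
  have h1 : (Set.range fun f : X ⟶ X => ((F.map f).hom : Module.End K (F.obj X))) =
      (homEquiv (F.obj X)) '' (Set.range fun f : X ⟶ X => F.map f) := by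
    rw [← Set.range_comp]
    rfl
  have h2 := span_plain (F.obj X) (Set.range fun f : X ⟶ X => F.map f) (evenProj par X)
  rw [← h1] at h2
  exact h2

theorem separates_lift {X : C} (f : X ⟶ X) : Separates par f ↔
    IsCoprime (minpoly K (SVect.evenRes ((lift h).map f) : Module.End K ((lift h).obj X).evenPart))
      (minpoly K (SVect.oddRes ((lift h).map f) : Module.End K ((lift h).obj X).oddPart)) :=
  Iff.rfl

end Span

end NCSuper
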