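import Mathlib
import Pool.Agent.Lib_MP_8f22fa_ag.Lift

/-!
# Descent of coefficients and a Katz-Messing criterion for the even Künneth projector
-/

open CategoryTheory MonoidalCategory NCSuper

universe u v₁ u₁

namespace Pool.Agent.Results.MP_8f22fa_ag.CoefficientDescent

/-- **Descent of coefficients.** The even projector of `F(X)` is realised by an endomorphism of
`X` as soon as it is a `K`-linear combination of such realisations, and this happens if and only
if some endomorphism of `X` acts on the even and on the odd part of `F(X)` with coprime minimal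
polynomials over `K`. -/
theorem result {C : Type u₁} [Category.{v₁} C] [Preadditive C] [Linear ℚ C] [MonoidalCategory C]
    [MonoidalPreadditive C] [SymmetricCategory C] [RightRigidCategory C]
    (hQ : ∀ t : 𝟙_ C ⟶ 𝟙_ C, ∃ q : ℚ, t = q • 𝟙 (𝟙_ C))
    {K : Type u} [Field K] [CharZero K] (F : C ⥤ ModuleCat.{u} K) [F.Additive] [F.Monoidal]
    (par : F ⟶ F) (hpar : IsParity F par) (X : C) :
    (CPlus par X ↔ SpanCPlus par X) ∧ (CPlus par X ↔ ∃ f : X ⟶ X, Separates par f) := by
  constructor
  · rw [← cplus_lift hpar, span_lift hpar]
    exact (NCSign.criteria (lift hpar) hQ X).out 0 1 rfl rfl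
  · rw [← cplus_lift hpar]
    exact (NCSign.criteria (lift hpar) hQ X).out 0 2 rfl rfl

end Pool.Agent.Results.MP_8f22fa_ag.CoefficientDescent
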