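import Mathlib
import Pool.Agent.Lib_MP_8f22fa_ag.Criterion

/-!
Rational algebras of endomorphisms with a non-degenerate trace form are von Neumann regular.
-/

open Module

namespace NCSign

section Reg

variable {K : Type*} [Field K] [CharZero K] {W : Type*} [AddCommGroup W] [Module K W]
  [FiniteDimensional K W] [Module ℚ W] [IsScalarTower ℚ K W]

theorem rat_finite (E : Subalgebra ℚ (Module.End K W))
    (h1 : ∀ a ∈ E, ∃ q : ℚ, LinearMap.trace K W a = q)
    (h2 : ∀ a ∈ E, (∀ b ∈ E, LinearMap.trace K W (a * b) = 0) → a = 0) :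
    Module.Finite ℚ E := by
  obtain ⟨b, hbE, hspan, hli⟩ := exists_linearIndependent K (E : Set (Module.End K W))
  have hfin : Finite b := hli.finite
  have h1' : ∀ a : E, ∀ i : b, ∃ q : ℚ, LinearMap.trace K W ((a : Module.End K W) * (i : Module.End K W)) = q :=
    fun a i => h1 _ (E.mul_mem a.2 (hbE i.2))
  choose τ hτ using h1'
  let Φ : E →ₗ[ℚ] (b → ℚ) :=
    { toFun := fun a i => τ a i
      map_add' := by
        intro x y
        funext i
        have : ((τ (x + y) i : ℚ) : K) = ((τ x i + τ y i : ℚ) : K) := by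
          rw [← hτ, Rat.cast_add, ← hτ, ← hτ, ← map_add, ← add_mul]
          rfl
        exact Rat.cast_injective this
      map_smul' := by
        intro q x
        funext i
        have : ((τ (q • x) i : ℚ) : K) = ((q * τ x i : ℚ) : K) := by
          rw [← hτ, Rat.cast_mul, ← hτ]
          have h3 : ((q • x : E) : Module.End K W) = (q : K) • (x : Module.End K W) := by
            rw [SetLike.val_smul]
            ext w
            rw [LinearMap.smul_apply, LinearMap.smul_apply]
            have : (q : K) = q • (1 : K) := by rw [Rat.smul_def, mul_one]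
            rw [this, smul_assoc, one_smul]
          rw [h3, smul_mul_assoc, map_smul, smul_eq_mul]
        exact Rat.cast_injective this }
  apply Module.Finite.of_injective Φ
  rw [← LinearMap.ker_eq_bot, LinearMap.ker_eq_bot']
  intro a ha
  apply Subtype.ext
  apply h2 _ a.2
  intro c hc
  have hc' : c ∈ Submodule.span K b := by
    rw [hspan]
    exact Submodule.subset_span hc
  clear hc
  induction hc' using Submodule.span_induction with
  | mem x hx =>
    rw [hτ a ⟨x, hx⟩]
    have : τ a ⟨x, hx⟩ = 0 := congrFun ha ⟨x, hx⟩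
    rw [this, Rat.cast_zero]
  | zero => rw [mul_zero, map_zero]
  | add x y hx hy hx' hy' => rw [mul_add, map_add, hx', hy', add_zero]
  | smul r x hx hx' => rw [mul_smul_comm, map_smul, hx', smul_zero]

theorem reg_of_nondeg (E : Subalgebra ℚ (Module.End K W))
    (h1 : ∀ a ∈ E, ∃ q : ℚ, LinearMap.trace K W a = q)
    (h2 : ∀ a ∈ E, (∀ b ∈ E, LinearMap.trace K W (a * b) = 0) → a = 0) :
    ∀ t ∈ E, ∃ x ∈ E, t * x * t = t := by
  have hfin : Module.Finite ℚ E := rat_finite E h1 h2
  have hart : IsArtinianRing E := IsArtinianRing.of_finite ℚ E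
  have hjac : Ring.jacobson E = ⊥ := by
    obtain ⟨n, hn⟩ := IsSemiprimaryRing.isNilpotent (R := E)
    rw [eq_bot_iff]
    intro a ha
    rw [Submodule.mem_bot]
    apply Subtype.ext
    apply h2 _ a.2
    intro c hc
    have hac : a * ⟨c, hc⟩ ∈ Ring.jacobson E := Ideal.mul_mem_right _ _ ha
    have hnil : (a * ⟨c, hc⟩) ^ n = 0 := by
      have := Ideal.pow_mem_pow hac n
      rw [hn] at this
      simpa using this
    have hnil' : IsNilpotent ((a : Module.End K W) * c) := by
      refine ⟨n, ?_⟩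
      have := congrArg (fun z : E => (z : Module.End K W)) hnil
      simpa using this
    exact (LinearMap.isNilpotent_trace_of_isNilpotent hnil').eq_zero
  have hss : IsSemisimpleRing E := IsArtinianRing.isSemisimpleRing_iff_jacobson.mpr hjac
  intro t ht
  obtain ⟨e, he, hspan⟩ := IsSemisimpleRing.ideal_eq_span_idempotent (Ideal.span {(⟨t, ht⟩ : E)})
  have h3 : e ∈ Ideal.span {(⟨t, ht⟩ : E)} := by
    rw [hspan]
    exact Ideal.subset_span (Set.mem_singleton _)
  have h4 : (⟨t, ht⟩ : E) ∈ Ideal.span {e} := by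
    rw [← hspan]
    exact Ideal.subset_span (Set.mem_singleton _)
  obtain ⟨x, hx⟩ := Ideal.mem_span_singleton'.mp h3
  obtain ⟨y, hy⟩ := Ideal.mem_span_singleton'.mp h4
  refine ⟨x, x.2, ?_⟩
  have h5 : (⟨t, ht⟩ : E) * x * ⟨t, ht⟩ = ⟨t, ht⟩ := by
    rw [mul_assoc, hx, ← hy, mul_assoc, he.eq]
  exact congrArg (fun z : E => (z : Module.End K W)) h5

end Reg

section Reg2

variable {K : Type*} [Field K] [CharZero K] {V : Type*} [AddCommGroup V] [Module K V]
  [FiniteDimensional K V]

/-- The main linear algebra statement. -/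
theorem regular_part {e σ : Module.End K V} {ε : K} (hε : ε * ε = 1) (heσ : e * σ = ε • σ)
    (hσ : σ * σ = σ) {S : Subring (Module.End K V)}
    (hsm : ∀ (q : ℚ) (g : Module.End K V), g ∈ S → (q : K) • g ∈ S)
    (hcomm : ∀ g ∈ S, g * σ = σ * g)
    (hεq : ∃ q : ℚ, (q : K) = ε)
    (htr : ∀ g ∈ S, ∃ q : ℚ, LinearMap.trace K V (e * g) = q)
    (hσS : σ ∈ S)
    (hnum : ∀ g ∈ S, (∀ h ∈ S, LinearMap.trace K V (e * (g * h)) = 0) → σ * g = 0) :
    ∀ t ∈ S, ∃ x ∈ S, σ * (t * x * t) = σ * t := by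
  let iK : Module ℚ V := Module.compHom V (algebraMap ℚ K)
  have hst : IsScalarTower ℚ K V := ⟨fun q k v => by
    change (q • k) • v = (algebraMap ℚ K q) • (k • v)
    rw [Algebra.smul_def, mul_smul]⟩
  have hqs : ∀ (q : ℚ) (v : V), q • v = (q : K) • v := fun q v => by
    change (algebraMap ℚ K q) • v = _
    rfl
  set ρ : Module.End K V := 1 - σ with hρ
  have hσρ : σ * ρ = 0 := by rw [hρ, mul_sub, mul_one, hσ, sub_self]
  have hρσ : ρ * σ = 0 := by rw [hρ, sub_mul, one_mul, hσ, sub_self]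
  have hρρ : ρ * ρ = ρ := by
    conv_lhs => rw [hρ]
    rw [sub_mul, one_mul, hσρ, sub_zero]
  have hdec : ∀ s ∈ S, σ * s = σ * s * σ := by
    intro s hs
    rw [mul_assoc, hcomm s hs, ← mul_assoc, hσ]
  let E : Subalgebra ℚ (Module.End K V) :=
    { carrier := {a | ∃ s ∈ S, ∃ q : ℚ, a = σ * s + (q : K) • ρ}
      mul_mem' := by
        rintro _ _ ⟨s, hs, q, rfl⟩ ⟨s', hs', q', rfl⟩
        refine ⟨s * s', S.mul_mem hs hs', q * q', ?_⟩
        rw [mul_add, add_mul, add_mul]
        have e1 : σ * s * (σ * s') = σ * (s * s') := by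
          rw [← mul_assoc, ← hdec s hs, mul_assoc]
        have e2 : (q : K) • ρ * (σ * s') = 0 := by
          rw [smul_mul_assoc, ← mul_assoc, hρσ, zero_mul, smul_zero]
        have e3 : σ * s * (q' : K) • ρ = 0 := by
          rw [hdec s hs, mul_smul_comm, mul_assoc, hσρ, mul_zero, smul_zero]
        have e4 : (q : K) • ρ * (q' : K) • ρ = ((q * q' : ℚ) : K) • ρ := by
          rw [smul_mul_smul_comm, hρρ]
          push_cast
          rfl
        rw [e1, e2, e3, e4, add_zero, zero_add]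
      add_mem' := by
        rintro _ _ ⟨s, hs, q, rfl⟩ ⟨s', hs', q', rfl⟩
        refine ⟨s + s', S.add_mem hs hs', q + q', ?_⟩
        push_cast
        rw [mul_add, add_smul]
        abel
      algebraMap_mem' := by
        intro q
        refine ⟨(q : K) • 1, hsm q 1 S.one_mem, q, ?_⟩
        rw [mul_smul_comm, mul_one, ← smul_add, hρ, add_sub_cancel]
        ext v
        rw [Module.algebraMap_end_apply, hqs]
        rfl }
  have hmem : ∀ a, a ∈ E ↔ ∃ s ∈ S, ∃ q : ℚ, a = σ * s + (q : K) • ρ := fun a => Iff.rfl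
  obtain ⟨ε', hε'⟩ := hεq
  have htrσ : ∀ s, LinearMap.trace K V (σ * s) = ε * LinearMap.trace K V (e * (σ * s)) := by
    intro s
    rw [← mul_assoc e, heσ, smul_mul_assoc, map_smul, smul_eq_mul, ← mul_assoc, hε, one_mul]
  have h1 : ∀ a ∈ E, ∃ q : ℚ, LinearMap.trace K V a = q := by
    rintro _ ⟨s, hs, q, rfl⟩
    obtain ⟨q1, hq1⟩ := htr _ (S.mul_mem hσS hs)
    refine ⟨ε' * q1 + q * (finrank K (LinearMap.range ρ) : ℚ), ?_⟩
    rw [map_add, htrσ, hq1, map_smul, trace_idem hρρ, ← hε', smul_eq_mul]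
    push_cast
    rfl
  have h2 : ∀ a ∈ E, (∀ b ∈ E, LinearMap.trace K V (a * b) = 0) → a = 0 := by
    rintro _ ⟨s, hs, q, rfl⟩ h
    have hρE : ρ ∈ E := ⟨0, S.zero_mem, 1, by simp⟩
    have h3 := h ρ hρE
    have e1 : (σ * s + (q : K) • ρ) * ρ = (q : K) • ρ := by
      rw [add_mul, hdec s hs, mul_assoc (σ * s), hσρ, mul_zero, zero_add, smul_mul_assoc, hρρ]
    rw [e1, map_smul, smul_eq_mul, mul_eq_zero] at h3
    have h4 : (q : K) • ρ = 0 := by
      rcases h3 with h3 | h3
      · rw [h3, zero_smul]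
      · rw [idem_zero hρρ h3, smul_zero]
    rw [h4, add_zero]
    have h5 : σ * (σ * s) = 0 := by
      apply hnum _ (S.mul_mem hσS hs)
      intro g hg
      have h6 := h (σ * g) ⟨g, hg, 0, by simp⟩
      rw [h4, add_zero] at h6
      have e2 : σ * s * (σ * g) = σ * (s * g) := by
        rw [← mul_assoc, ← hdec s hs, mul_assoc]
      rw [e2, htrσ] at h6
      have h7 : ε ≠ 0 := by
        rintro rfl
        simp at hε
      rw [mul_assoc σ]
      exact (mul_eq_zero.mp h6).resolve_left h7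
    rwa [← mul_assoc, hσ] at h5
  intro t ht
  obtain ⟨x, hx, hx'⟩ := reg_of_nondeg E h1 h2 (σ * t) ⟨t, ht, 0, by simp⟩
  obtain ⟨s, hs, q, rfl⟩ := hx
  refine ⟨s, hs, ?_⟩
  rw [← hx']
  have e1 : σ * t * (σ * s + (q : K) • ρ) = σ * t * s := by
    rw [mul_add, mul_smul_comm, hdec t ht, mul_assoc (σ * t) σ ρ, hσρ, mul_zero, smul_zero,
      add_zero, ← mul_assoc, mul_assoc (σ * t) σ σ, hσ]
  rw [e1]
  have e2 : σ * t * s = σ * t * s * σ := by
    rw [mul_assoc σ]
    exact hdec _ (S.mul_mem ht hs)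
  calc σ * (t * s * t) = σ * t * s * t := by simp only [mul_assoc]
    _ = σ * t * s * (σ * t) := by rw [← mul_assoc (σ * t * s) σ t, ← e2]

end Reg2

end NCSign
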