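import Mathlib
import Pool.Agent.Lib_MP_8f22fa_ag.NumInv
import Pool.Agent.Lib_MP_8f22fa_ag.Regular
import Pool.Agent.Lib_MP_8f22fa_ag.Lift

/-!
Domination in one parity by an object satisfying `C⁺` and `hom = num` in that parity.
-/

open CategoryTheory MonoidalCategory

universe u v₁ u₁

namespace NCSign

open SVect

section Dom

variable {C : Type u₁} [Category.{v₁} C] [Preadditive C] [Linear ℚ C] [MonoidalCategory C]
  [BraidedCategory C]
variable {K : Type u} [Field K] [CharZero K] (F : C ⥤ SVect K) [F.Braided] [F.Additive]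

/-- The general form: `σ` is a central projector of the two realisations. -/
theorem dominate (hQ : ∀ t : 𝟙_ C ⟶ 𝟙_ C, ∃ q : ℚ, t = q • 𝟙 (𝟙_ C)) {X P : C}
    [HasRightDual P] (f : X ⟶ P) (g : P ⟶ X) {ε : K} (hε : ε * ε = 1)
    (hεq : ∃ q : ℚ, (q : K) = ε)
    (σP : Module.End K (F.obj P).V) (σX : Module.End K (F.obj X).V)
    (hσP : σP * σP = σP) (hσX : σX * σX = σX)
    (heσ : ((F.obj P).par.hom : Module.End K (F.obj P).V) * σP = ε • σP)
    (hcomm : ∀ s ∈ algRing F P, s * σP = σP * s)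
    (hf : lin (F.map f) ∘ₗ σX = σP ∘ₗ lin (F.map f))
    (hg : lin (F.map g) ∘ₗ σP = σX ∘ₗ lin (F.map g))
    (hσS : σP ∈ algRing F P)
    (hnum : ∀ a : P ⟶ P, NumTrivial a → σP * lin (F.map a) = 0)
    (hinj : ∀ w, σX w = w → lin (F.map f) w = 0 → w = 0)
    (hsur : ∀ w, σX w = w → ∃ v, σP v = v ∧ lin (F.map g) v = w) :
    ∃ (u : X ⟶ P) (v : P ⟶ X), lin (F.map (u ≫ v)) = σX := by
  have hfin := map_finite F P
  have hnum' : ∀ s ∈ algRing F P, (∀ h ∈ algRing F P, LinearMap.trace K (F.obj P).V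
      (((F.obj P).par.hom : Module.End K (F.obj P).V) * (s * h)) = 0) → σP * s = 0 := by
    rintro _ ⟨a, rfl⟩ h
    apply hnum a
    intro b
    have h1 : catTrace (a ≫ b) = (0 : ℚ) • 𝟙 (𝟙_ C) := by
      apply catTrace_of_trace F hQ
      have h2 := h _ ⟨b, rfl⟩
      rw [Rat.cast_zero, ← h2]
      have h3 : (lin (F.map (a ≫ b)) : Module.End K (F.obj P).V) = lin (F.map b) * lin (F.map a) :=
        lin_map_comp F a b
      rw [h3, ← mul_assoc, ← lin_comm (F.obj P) (F.map b), mul_assoc,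
        LinearMap.trace_mul_comm, mul_assoc]
    rw [h1, zero_smul]
  have htr : ∀ s ∈ algRing F P, ∃ q : ℚ, LinearMap.trace K (F.obj P).V
      (((F.obj P).par.hom : Module.End K (F.obj P).V) * s) = q := by
    rintro _ ⟨a, rfl⟩
    obtain ⟨q, hq⟩ := hQ (catTrace a)
    exact ⟨q, (trace_of_catTrace F P a q hq).symm⟩
  obtain ⟨_, ⟨x, rfl⟩, hx⟩ := regular_part hε heσ hσP (S := algRing F P)
    (fun q s hs => algRing_smul F q s hs) hcomm hεq htr hσS hnum' _ ⟨g ≫ f, rfl⟩
  obtain ⟨π, hπ⟩ := hσS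
  refine ⟨f ≫ x, π ≫ g, ?_⟩
  have e0 : lin (F.map ((f ≫ x) ≫ (π ≫ g))) =
      lin (F.map g) ∘ₗ σP ∘ₗ lin (F.map x) ∘ₗ lin (F.map f) := by
    have hπ' : lin (F.map π) = σP := hπ
    rw [lin_map_comp, lin_map_comp, lin_map_comp, hπ']
    rfl
  rw [e0]
  have hxc : ∀ v, σP (lin (F.map x) v) = lin (F.map x) (σP v) := fun v =>
    (congrArg (fun l => l v) (hcomm _ ⟨x, rfl⟩)).symm
  have hf' : ∀ w, lin (F.map f) (σX w) = σP (lin (F.map f) w) := fun w =>
    congrArg (fun l => l w) hf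
  have hg' : ∀ w, lin (F.map g) (σP w) = σX (lin (F.map g) w) := fun w =>
    congrArg (fun l => l w) hg
  have hx' : ∀ v, σP (lin (F.map f) (lin (F.map g) (lin (F.map x) (lin (F.map f)
      (lin (F.map g) v))))) = σP (lin (F.map f) (lin (F.map g) v)) := by
    intro v
    have h1 := congrArg (fun l => l v) hx
    have h2 : (lin (F.map (g ≫ f)) : Module.End K (F.obj P).V) =
        lin (F.map f) ∘ₗ lin (F.map g) := lin_map_comp F g f
    simp only [h2] at h1
    exact h1
  ext w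
  simp only [LinearMap.comp_apply]
  rw [hxc, ← hf']
  set w' := σX w with hw'
  have hσw : σX w' = w' := by
    have := congrArg (fun l => l w) hσX
    exact this
  obtain ⟨v, hv, hv'⟩ := hsur w' hσw
  set y := lin (F.map g) (lin (F.map x) (lin (F.map f) w')) with hy
  have hσy : σX y = y := by
    rw [hy, ← hg', hxc, ← hf', hσw]
  have h1 : y - w' = 0 := by
    apply hinj
    · rw [map_sub, hσy, hσw]
    · rw [map_sub, sub_eq_zero]
      have h2 := hx' v
      rw [hv', ← hy, ← hf', ← hf', hσy, hσw] at h2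
      exact h2
  exact sub_eq_zero.mp h1

omit [CharZero K] in
theorem lin_par {M N : SVect K} (f : M ⟶ N) (v : M.V) :
    lin f (M.par.hom v) = N.par.hom (lin f v) := comm_apply f v

omit [CharZero K] in
theorem lin_pp {M N : SVect K} (f : M ⟶ N) : lin f ∘ₗ pp (M.par.hom : Module.End K M.V) =
    pp (N.par.hom : Module.End K N.V) ∘ₗ lin f := by
  ext v
  change lin f ((2⁻¹ : K) • (v + M.par.hom v)) = (2⁻¹ : K) • (lin f v + N.par.hom (lin f v))
  rw [map_smul, map_add, lin_par]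

omit [CharZero K] in
theorem lin_pm {M N : SVect K} (f : M ⟶ N) : lin f ∘ₗ pm (M.par.hom : Module.End K M.V) =
    pm (N.par.hom : Module.End K N.V) ∘ₗ lin f := by
  ext v
  change lin f ((2⁻¹ : K) • (v - M.par.hom v)) = (2⁻¹ : K) • (lin f v - N.par.hom (lin f v))
  rw [map_smul, map_sub, lin_par]

theorem pm_fix {M : SVect K} {v : M.V} :
    pm (M.par.hom : Module.End K M.V) v = v ↔ v ∈ M.oddPart := by
  rw [oddPart_eq]
  constructor
  · intro h
    exact ⟨v, h⟩
  · rintro ⟨w, rfl⟩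
    exact congrArg (fun l => l w) (pm_mul_pm (par_mul_par M))

theorem pp_fix {M : SVect K} {v : M.V} :
    pp (M.par.hom : Module.End K M.V) v = v ↔ v ∈ M.evenPart := by
  rw [evenPart_eq]
  constructor
  · intro h
    exact ⟨v, h⟩
  · rintro ⟨w, rfl⟩
    exact congrArg (fun l => l w) (pp_mul_pp (par_mul_par M))

theorem dominate_odd (hQ : ∀ t : 𝟙_ C ⟶ 𝟙_ C, ∃ q : ℚ, t = q • 𝟙 (𝟙_ C)) {X P : C}
    [HasRightDual P] (f : X ⟶ P) (g : P ⟶ X) (hP : CPlus F P)
    (hnum : ∀ a : P ⟶ P, NumTrivial a → ∀ v ∈ (F.obj P).oddPart, lin (F.map a) v = 0)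
    (hinj : ∀ w ∈ (F.obj X).oddPart, lin (F.map f) w = 0 → w = 0)
    (hsur : ∀ w ∈ (F.obj X).oddPart, ∃ v ∈ (F.obj P).oddPart, lin (F.map g) v = w) :
    ∃ (u : X ⟶ P) (v : P ⟶ X), lin (F.map (u ≫ v)) =
      pm ((F.obj X).par.hom : Module.End K (F.obj X).V) := by
  have hpp := (cplus_iff F).mp hP
  have hpm : pm ((F.obj P).par.hom : Module.End K (F.obj P).V) ∈ algRing F P := by
    have h1 : pm ((F.obj P).par.hom : Module.End K (F.obj P).V) =
        1 - pp ((F.obj P).par.hom : Module.End K (F.obj P).V) := by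
      rw [← pp_add_pm ((F.obj P).par.hom : Module.End K (F.obj P).V)]; abel
    rw [h1]
    exact (algRing F P).sub_mem (algRing F P).one_mem hpp
  refine dominate F hQ f g (ε := -1) (by ring) ⟨-1, by push_cast; ring⟩
    (pm ((F.obj P).par.hom : Module.End K (F.obj P).V))
    (pm ((F.obj X).par.hom : Module.End K (F.obj X).V))
    (pm_mul_pm (par_mul_par _)) (pm_mul_pm (par_mul_par _)) ?_ ?_ (lin_pm _) (lin_pm _) hpm ?_
    ?_ ?_
  · rw [par_mul_pm, neg_one_smul]
  · intro s hs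
    exact commute_pm (algRing_comm F s hs)
  · intro a ha
    change pm ((F.obj P).par.hom : Module.End K (F.obj P).V) ∘ₗ lin (F.map a) = 0
    rw [← lin_pm]
    ext v
    exact hnum a ha _ (by rw [oddPart_eq]; exact ⟨v, rfl⟩)
  · intro w hw
    exact hinj w (pm_fix.mp hw)
  · intro w hw
    obtain ⟨v, hv, hv'⟩ := hsur w (pm_fix.mp hw)
    exact ⟨v, pm_fix.mpr hv, hv'⟩

theorem dominate_even (hQ : ∀ t : 𝟙_ C ⟶ 𝟙_ C, ∃ q : ℚ, t = q • 𝟙 (𝟙_ C)) {X P : C}
    [HasRightDual P] (f : X ⟶ P) (g : P ⟶ X) (hP : CPlus F P)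
    (hnum : ∀ a : P ⟶ P, NumTrivial a → ∀ v ∈ (F.obj P).evenPart, lin (F.map a) v = 0)
    (hinj : ∀ w ∈ (F.obj X).evenPart, lin (F.map f) w = 0 → w = 0)
    (hsur : ∀ w ∈ (F.obj X).evenPart, ∃ v ∈ (F.obj P).evenPart, lin (F.map g) v = w) :
    ∃ (u : X ⟶ P) (v : P ⟶ X), lin (F.map (u ≫ v)) =
      pp ((F.obj X).par.hom : Module.End K (F.obj X).V) := by
  have hpp := (cplus_iff F).mp hP
  refine dominate F hQ f g (ε := 1) (by ring) ⟨1, by push_cast; ring⟩
    (pp ((F.obj P).par.hom : Module.End K (F.obj P).V))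
    (pp ((F.obj X).par.hom : Module.End K (F.obj X).V))
    (pp_mul_pp (par_mul_par _)) (pp_mul_pp (par_mul_par _)) ?_ ?_ (lin_pp _) (lin_pp _) hpp ?_
    ?_ ?_
  · rw [par_mul_pp, one_smul]
  · intro s hs
    exact commute_pp (algRing_comm F s hs)
  · intro a ha
    change pp ((F.obj P).par.hom : Module.End K (F.obj P).V) ∘ₗ lin (F.map a) = 0
    rw [← lin_pp]
    ext v
    exact hnum a ha _ (by rw [evenPart_eq]; exact ⟨v, rfl⟩)
  · intro w hw
    exact hinj w (pp_fix.mp hw)
  · intro w hw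
    obtain ⟨v, hv, hv'⟩ := hsur w (pp_fix.mp hw)
    exact ⟨v, pp_fix.mpr hv, hv'⟩

end Dom

end NCSign

namespace NCSuper

open NCSign

section Dom2

variable {C : Type u₁} [Category.{v₁} C] {K : Type u} [Field K]

/-- The part of `F(X)` of parity `s`: the even part for `s = true`, the odd part for
`s = false`. -/
def part {F : C ⥤ ModuleCat.{u} K} (par : F ⟶ F) (s : Bool) (X : C) : Submodule K (F.obj X) :=
  match s with
  | true => evenPart par X
  | false => oddPart par X

/-- The projector onto the part of `F(X)` of parity `s`, along the other part. -/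
noncomputable def partProj {F : C ⥤ ModuleCat.{u} K} (par : F ⟶ F) (s : Bool) (X : C) :
    F.obj X ⟶ F.obj X :=
  match s with
  | true => evenProj par X
  | false => 𝟙 (F.obj X) - evenProj par X

/-- Homological and numerical equivalence agree on the part of parity `s` of `F(P)`: every
numerically trivial endomorphism of `P` acts as zero on it. -/
def HomNum [MonoidalCategory C] [BraidedCategory C] [Preadditive C]
    {F : C ⥤ ModuleCat.{u} K} (par : F ⟶ F) (s : Bool) (P : C) [HasRightDual P] : Prop :=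
  ∀ a : P ⟶ P, NumTrivial a → ∀ v ∈ part par s P, (F.map a).hom v = 0

/-- `P` dominates the part of parity `s` of `F(X)`: some morphism from `X` to `P` is injective on
it, and some morphism from `P` to `X` maps the part of parity `s` of `F(P)` onto it. -/
def Dominates {F : C ⥤ ModuleCat.{u} K} (par : F ⟶ F) (s : Bool) (X P : C) : Prop :=
  (∃ f : X ⟶ P, ∀ w ∈ part par s X, (F.map f).hom w = 0 → w = 0) ∧
    ∃ g : P ⟶ X, ∀ w ∈ part par s X, ∃ v ∈ part par s P, (F.map g).hom v = w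

/-- The part of parity `s` of `F(X)` is a direct factor of `P`: its projector is realised by
an endomorphism of `X` which factors through `P`. -/
def IsFactor {F : C ⥤ ModuleCat.{u} K} (par : F ⟶ F) (s : Bool) (X P : C) : Prop :=
  ∃ (u : X ⟶ P) (v : P ⟶ X), F.map (u ≫ v) = partProj par s X

end Dom2

section Dom3

variable {C : Type u₁} [Category.{v₁} C] [Preadditive C] [Linear ℚ C] [MonoidalCategory C]
  [MonoidalPreadditive C] [SymmetricCategory C] [RightRigidCategory C]
variable {K : Type u} [Field K] [CharZero K] {F : C ⥤ ModuleCat.{u} K} [F.Additive] [F.Monoidal]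
  {par : F ⟶ F}

theorem part_stable (s : Bool) {X : C} (f : X ⟶ X) :
    ∀ v ∈ part par s X, (F.map f).hom v ∈ part par s X := by
  cases s with
  | true => exact evenPart_stable par f
  | false => exact oddPart_stable par f

theorem exists_factor (hQ : ∀ t : 𝟙_ C ⟶ 𝟙_ C, ∃ q : ℚ, t = q • 𝟙 (𝟙_ C))
    (hpar : IsParity F par) (s : Bool) {X P : C} (hP : CPlus par P) (hn : HomNum par s P)
    (hd : Dominates par s X P) : IsFactor par s X P := by
  obtain ⟨⟨f, hf⟩, g, hg⟩ := hd
  cases s with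
  | true =>
    obtain ⟨u, v, huv⟩ := dominate_even (lift hpar) hQ f g ((cplus_lift hpar P).mpr hP) hn hf hg
    exact ⟨u, v, ModuleCat.hom_ext huv⟩
  | false =>
    obtain ⟨u, v, huv⟩ := dominate_odd (lift hpar) hQ f g ((cplus_lift hpar P).mpr hP) hn hf hg
    refine ⟨u, v, ?_⟩
    apply ModuleCat.hom_ext
    have h2 := pp_add_pm (((lift hpar).obj X).par.hom : Module.End K ((lift hpar).obj X).V)
    have h3 : (F.map (u ≫ v)).hom =
      pm (((lift hpar).obj X).par.hom : Module.End K ((lift hpar).obj X).V) := huv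
    rw [h3, ← sub_eq_of_eq_add' h2.symm]
    rfl

omit [Linear ℚ C] [MonoidalCategory C] [MonoidalPreadditive C] [SymmetricCategory C]
  [RightRigidCategory C] [CharZero K] [F.Monoidal] in
theorem cplus_of_factor (s : Bool) {X P : C} (h : IsFactor par s X P) : CPlus par X := by
  obtain ⟨u, v, h1⟩ := h
  cases s with
  | true => exact ⟨u ≫ v, h1⟩
  | false =>
    refine ⟨𝟙 X - u ≫ v, ?_⟩
    have h2 : F.map (u ≫ v) = 𝟙 (F.obj X) - evenProj par X := h1
    rw [F.map_sub, F.map_id, h2, sub_sub_cancel]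

theorem domination (hQ : ∀ t : 𝟙_ C ⟶ 𝟙_ C, ∃ q : ℚ, t = q • 𝟙 (𝟙_ C))
    (hpar : IsParity F par) (s : Bool) {X P : C} (hP : CPlus par P) (hn : HomNum par s P)
    (hd : Dominates par s X P) : CPlus par X ∧ IsFactor par s X P ∧ HomNum par s X := by
  have hfac := exists_factor hQ hpar s hP hn hd
  obtain ⟨⟨f, hf⟩, g, hg⟩ := hd
  refine ⟨cplus_of_factor s hfac, hfac, ?_⟩
  intro a ha w hw
  have h4 : NumTrivial (g ≫ a ≫ f) := num_conj (lift hpar) hQ f g a ha
  obtain ⟨v, hv, rfl⟩ := hg w hw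
  have h5 := hn _ h4 v hv
  have h6 : (F.map (g ≫ a ≫ f)).hom v = (F.map f).hom ((F.map a).hom ((F.map g).hom v)) := by
    rw [F.map_comp, F.map_comp]
    rfl
  rw [h6] at h5
  exact hf _ (part_stable s a _ hw) h5

end Dom3

end NCSuper
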