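import Mathlib

/-!
Linear operators which are diagonalisable with natural numbers as eigenvalues, and the traces of
their products with commuting idempotents.
-/

open Polynomial TensorProduct

universe u

namespace NCSign

section

variable {K : Type u} [Field K] {M N : Type u} [AddCommGroup M] [Module K M] [AddCommGroup N]
  [Module K N]

/-- Diagonalisable with natural eigenvalues. -/
def NatDiag (A : Module.End K M) : Prop :=
  ∃ (ι : Type) (_ : Fintype ι) (b : Module.Basis ι K M) (d : ι → ℕ), ∀ i, A (b i) = (d i : K) • b i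

theorem natDiag_zero [Module.Finite K M] : NatDiag (0 : Module.End K M) :=
  ⟨_, inferInstance, Module.finBasis K M, fun _ => 0, fun i => by simp⟩

theorem natDiag_conj {A : Module.End K M} (h : NatDiag A) (e : M ≃ₗ[K] N) {B : Module.End K N}
    (hB : ∀ v, B (e v) = e (A v)) : NatDiag B := by
  obtain ⟨ι, hι, b, d, hb⟩ := h
  refine ⟨ι, hι, b.map e, d, fun i => ?_⟩
  rw [Module.Basis.map_apply, hB, hb, map_smul]

theorem natDiag_tensor {A : Module.End K M} {B : Module.End K N} (hA : NatDiag A)
    (hB : NatDiag B) : NatDiag (LinearMap.rTensor N A + LinearMap.lTensor M B :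
      Module.End K (M ⊗[K] N)) := by
  obtain ⟨ι, hι, b, d, hb⟩ := hA
  obtain ⟨κ, hκ, c, e, hc⟩ := hB
  refine ⟨ι × κ, inferInstance, b.tensorProduct c, fun i => d i.1 + e i.2, fun i => ?_⟩
  rw [Module.Basis.tensorProduct_apply, LinearMap.add_apply, LinearMap.rTensor_tmul,
    LinearMap.lTensor_tmul, hb, hc, ← smul_tmul', tmul_smul, ← add_smul]
  push_cast
  rfl

theorem natDiag_idem [Module.Finite K M] {P : Module.End K M} (hP : P * P = P) : NatDiag P := by
  have hc : IsCompl (LinearMap.range P) (LinearMap.ker P) :=
    LinearMap.IsIdempotentElem.isCompl hP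
  let b1 := Module.finBasis K (LinearMap.range P)
  let b2 := Module.finBasis K (LinearMap.ker P)
  refine ⟨_, inferInstance, (b1.prod b2).map (Submodule.prodEquivOfIsCompl _ _ hc),
    Sum.elim (fun _ => 1) (fun _ => 0), ?_⟩
  rintro (i | i)
  · have h0 : (b1.prod b2) (Sum.inl i) = (b1 i, 0) := by simp
    rw [Module.Basis.map_apply, h0]
    obtain ⟨w, hw⟩ := (b1 i).2
    have h1 : (Submodule.prodEquivOfIsCompl _ _ hc) (b1 i, 0) = P w := by
      simp [hw]
    simp only [Sum.elim_inl]
    rw [h1, Nat.cast_one, one_smul]
    exact congrArg (fun f => f w) hP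
  · have h0 : (b1.prod b2) (Sum.inr i) = (0, b2 i) := by simp
    rw [Module.Basis.map_apply, h0]
    have h1 : (Submodule.prodEquivOfIsCompl _ _ hc) (0, b2 i) = (b2 i : M) := by simp
    simp only [Sum.elim_inr]
    rw [h1, Nat.cast_zero, zero_smul]
    exact LinearMap.mem_ker.mp (b2 i).2

theorem commute_aeval {A E : Module.End K M} (h : A * E = E * A) (p : K[X]) :
    (aeval A p : Module.End K M) * E = E * aeval A p := by
  have h1 : Commute E A := h.symm
  have h2 : aeval A p ∈ Algebra.adjoin K {A} := aeval_mem_adjoin_singleton K A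
  have h3 : Commute E (aeval A p) := by
    refine Algebra.adjoin_induction (p := fun x _ => Commute E x) ?_ ?_ ?_ ?_ h2
    · intro x hx
      rw [Set.mem_singleton_iff] at hx
      rw [hx]
      exact h1
    · intro r
      exact (Algebra.commute_algebraMap_right r E)
    · intro x y _ _ hx hy
      exact hx.add_right hy
    · intro x y _ _ hx hy
      exact hx.mul_right hy
  exact h3.symm

theorem natDiag_trace [CharZero K] [Module.Finite K M] {A E : Module.End K M} (hA : NatDiag A)
    (hE : E * E = E) (h : A * E = E * A) : ∃ m : ℕ, LinearMap.trace K M (A * E) = m := by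
  classical
  obtain ⟨ι, hι, b, d, hb⟩ := hA
  set S : Finset ℕ := Finset.univ.image d with hS
  have hinj : Set.InjOn (fun k : ℕ => (k : K)) S := fun x _ y _ hxy => Nat.cast_injective (R := K) hxy
  set Q : ℕ → Module.End K M := fun k => aeval A (Lagrange.basis S (fun k : ℕ => (k : K)) k)
    with hQ
  have hQb : ∀ k ∈ S, ∀ i, Q k (b i) = if d i = k then b i else 0 := by
    intro k hk i
    have h1 : ∀ p : K[X], aeval A p (b i) = (p.eval (d i : K)) • b i := by
      intro p
      induction p using Polynomial.induction_on' with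
      | add p q hp hq => rw [map_add, LinearMap.add_apply, hp, hq, eval_add, add_smul]
      | monomial n a =>
        rw [aeval_monomial, ← Algebra.smul_def, LinearMap.smul_apply, eval_monomial, mul_smul]
        congr 1
        induction n with
        | zero => simp
        | succ n ih =>
          rw [pow_succ, Module.End.mul_apply, hb, map_smul, ih, smul_smul, pow_succ, mul_comm]
    rw [hQ]
    simp only
    rw [h1]
    have hdi : d i ∈ S := by rw [hS]; exact Finset.mem_image_of_mem d (Finset.mem_univ i)
    split_ifs with hik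
    · have h2 := Lagrange.eval_basis_self hinj hk
      rw [hik]
      rw [h2, one_smul]
    · have h2 := Lagrange.eval_basis_of_ne (v := fun k : ℕ => (k : K)) (fun h => hik h.symm) hdi
      rw [h2, zero_smul]
  have hsum : A = ∑ k ∈ S, (k : K) • Q k := by
    refine b.ext fun i => ?_
    rw [LinearMap.sum_apply, hb]
    rw [Finset.sum_congr rfl fun k hk => by
      rw [LinearMap.smul_apply, hQb k hk i]]
    rw [Finset.sum_eq_single (d i)]
    · rw [if_pos rfl]
    · intro k _ hk
      rw [if_neg (fun h => hk h.symm), smul_zero]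
    · intro h
      exact absurd (by rw [hS]; exact Finset.mem_image_of_mem d (Finset.mem_univ i)) h
  have hidem : ∀ k ∈ S, (Q k * E) * (Q k * E) = Q k * E := by
    intro k hk
    have h1 : Q k * Q k = Q k := by
      refine b.ext fun i => ?_
      rw [Module.End.mul_apply, hQb k hk i]
      split_ifs with hik
      · rw [hQb k hk i, if_pos hik]
      · rw [map_zero]
    have h2 : Q k * E = E * Q k := commute_aeval h _
    calc (Q k * E) * (Q k * E) = Q k * (E * Q k) * E := by noncomm_ring
      _ = Q k * (Q k * E) * E := by rw [h2]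
      _ = (Q k * Q k) * (E * E) := by noncomm_ring
      _ = Q k * E := by rw [h1, hE]
  have htr : ∀ k ∈ S, ∃ m : ℕ, LinearMap.trace K M (Q k * E) = m := by
    intro k hk
    refine ⟨Module.finrank K (LinearMap.range (Q k * E)), ?_⟩
    exact (LinearMap.isProj_range_iff_isIdempotentElem _).mpr (hidem k hk) |>.trace
  choose! m hm using htr
  refine ⟨∑ k ∈ S, k * m k, ?_⟩
  conv_lhs => rw [hsum]
  rw [Finset.sum_mul, map_sum]
  push_cast
  refine Finset.sum_congr rfl fun k hk => ?_
  rw [smul_mul_assoc, map_smul, hm k hk, smul_eq_mul]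

end

end NCSign
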