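import Mathlib
import Pool.Agent.Lib_MP_8f22fa_ag.Lift

/-!
# A numerical criterion for the even Künneth projector to be algebraic

`C` is a rigid symmetric monoidal `ℚ`-linear category with `End(𝟙) = ℚ` (for instance
`NChow(k)_ℚ`), and `F` with parity operator `par` is a symmetric monoidal additive functor to super
vector spaces over a field of characteristic zero (for instance `HP_±` or `TP_±(-)_{1/p}`).
-/

open CategoryTheory MonoidalCategory NCSuper

universe u v₁ u₁

namespace Pool.Agent.Results.MP_8f22fa_ag.NumericalCriterion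

/-- **Numerical criterion for `C⁺`.** Every numerically idempotent endomorphism of `X` has an
integral trace in the interval `[-dim F(X)_-, dim F(X)_+]`, and the even projector of `F(X)` is
algebraic if and only if the upper bound is attained, if and only if the lower bound is attained,
if and only if some endomorphism of `X` has all its powers of trace `dim F(X)_+`. -/
theorem result {C : Type u₁} [Category.{v₁} C] [Preadditive C] [Linear ℚ C] [MonoidalCategory C]
    [MonoidalPreadditive C] [SymmetricCategory C] [RightRigidCategory C]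
    (hQ : ∀ t : 𝟙_ C ⟶ 𝟙_ C, ∃ q : ℚ, t = q • 𝟙 (𝟙_ C))
    {K : Type u} [Field K] [CharZero K] (F : C ⥤ ModuleCat.{u} K) [F.Additive] [F.Monoidal]
    (par : F ⟶ F) (hpar : IsParity F par) (X : C) :
    (∀ f : X ⟶ X, NumTrivial (f ≫ f - f) → ∃ m : ℤ, catTrace f = (m : ℚ) • 𝟙 (𝟙_ C) ∧
      -(oddDim par X : ℤ) ≤ m ∧ m ≤ (evenDim par X : ℤ)) ∧
    (CPlus par X ↔ ∃ f : X ⟶ X, NumTrivial (f ≫ f - f) ∧
      catTrace f = (evenDim par X : ℚ) • 𝟙 (𝟙_ C)) ∧
    (CPlus par X ↔ ∃ f : X ⟶ X, NumTrivial (f ≫ f - f) ∧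
      catTrace f = (-(oddDim par X : ℚ)) • 𝟙 (𝟙_ C)) ∧
    (CPlus par X ↔ ∃ f : X ⟶ X, ∀ n : ℕ,
      catTrace (iter f (n + 1)) = (evenDim par X : ℚ) • 𝟙 (𝟙_ C)) := by
  refine ⟨fun f hf => NCSign.num_bounds (lift hpar) hQ f hf, ?_, ?_, ?_⟩
  · rw [← cplus_lift hpar]
    exact (NCSign.criteria (lift hpar) hQ X).out 0 4 rfl rfl
  · rw [← cplus_lift hpar]
    exact (NCSign.criteria (lift hpar) hQ X).out 0 5 rfl rfl
  · rw [← cplus_lift hpar]
    simp only [iter_eq]
    exact (NCSign.criteria (lift hpar) hQ X).out 0 3 rfl rfl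

end Pool.Agent.Results.MP_8f22fa_ag.NumericalCriterion
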