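import Mathlib
import Pool.Agent.Lib_MP_8f22fa_ag.Main

/-!
The super-trace of a partial trace is the super-trace.
-/

open CategoryTheory MonoidalCategory TensorProduct
open BraidedCategory ExactPairing

universe u v₁ u₁

namespace NCSign

section Lin

variable {K : Type u} [Field K] {V A B : Type u} [AddCommGroup V] [Module K V] [AddCommGroup A]
  [Module K A] [AddCommGroup B] [Module K B]

/-- Contraction with an element of `B`. -/
noncomputable def contr (q : A ⊗[K] B →ₗ[K] K) (y : B) : V ⊗[K] A →ₗ[K] V :=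
  (TensorProduct.rid K V).toLinearMap ∘ₗ LinearMap.lTensor V q ∘ₗ
    (TensorProduct.assoc K V A B).toLinearMap ∘ₗ (TensorProduct.mk K (V ⊗[K] A) B).flip y

theorem contr_apply (q : A ⊗[K] B →ₗ[K] K) (y : B) (t : V ⊗[K] A) : contr q y t =
    (TensorProduct.rid K V) ((LinearMap.lTensor V q) ((TensorProduct.assoc K V A B) (t ⊗ₜ[K] y))) :=
  rfl

theorem contr_tmul (q : A ⊗[K] B →ₗ[K] K) (y : B) (v : V) (a : A) :
    contr q y (v ⊗ₜ[K] a) = q (a ⊗ₜ[K] y) • v := by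
  rw [contr_apply, TensorProduct.assoc_tmul, LinearMap.lTensor_tmul, TensorProduct.rid_tmul]

theorem trace_ptr [Module.Finite K V] [Module.Finite K A] (S : Finset (A × B))
    (q : A ⊗[K] B →ₗ[K] K) (pr : A →ₗ[K] A)
    (htr : ∀ b : A →ₗ[K] A, ∑ i ∈ S, q (b i.1 ⊗ₜ[K] i.2) = LinearMap.trace K A (pr ∘ₗ b))
    (g : V ⊗[K] A →ₗ[K] V ⊗[K] A) (P : V →ₗ[K] V)
    (hP : ∀ v, P v = ∑ i ∈ S, contr q i.2 (g (v ⊗ₜ[K] i.1))) (h : V →ₗ[K] V) :
    LinearMap.trace K V (h ∘ₗ P) = LinearMap.trace K (V ⊗[K] A) (TensorProduct.map h pr ∘ₗ g) := by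
  classical
  let PL : (V ⊗[K] A →ₗ[K] V ⊗[K] A) →ₗ[K] (V →ₗ[K] V) :=
    ∑ i ∈ S, ((LinearMap.compRight K (contr q i.2)) ∘ₗ
      (LinearMap.lcomp K (V ⊗[K] A) ((TensorProduct.mk K V A).flip i.1)))
  have hPL : ∀ (g : V ⊗[K] A →ₗ[K] V ⊗[K] A) (v : V), PL g v =
      ∑ i ∈ S, contr q i.2 (g (v ⊗ₜ[K] i.1)) := by
    intro g v
    simp only [PL, LinearMap.sum_apply]
    rfl
  have hPg : P = PL g := by
    ext v
    rw [hP, hPL]
  rw [hPg]
  let L1 : (V ⊗[K] A →ₗ[K] V ⊗[K] A) →ₗ[K] K :=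
    LinearMap.trace K V ∘ₗ LinearMap.compRight K h ∘ₗ PL
  let L2 : (V ⊗[K] A →ₗ[K] V ⊗[K] A) →ₗ[K] K :=
    LinearMap.trace K (V ⊗[K] A) ∘ₗ LinearMap.compRight K (TensorProduct.map h pr)
  suffices hL : L1 = L2 from congrArg (fun f => f g) hL
  have h1 : L1 ∘ₗ (homTensorHomEquiv K V A V A).toLinearMap =
      L2 ∘ₗ (homTensorHomEquiv K V A V A).toLinearMap := by
    refine TensorProduct.ext' fun a b => ?_
    have h2 : (homTensorHomEquiv K V A V A) (a ⊗ₜ[K] b) = TensorProduct.map a b := by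
      rw [homTensorHomEquiv_apply]
      exact homTensorHomMap_apply a b
    change L1 ((homTensorHomEquiv K V A V A) (a ⊗ₜ[K] b)) =
      L2 ((homTensorHomEquiv K V A V A) (a ⊗ₜ[K] b))
    rw [h2]
    have h3 : PL (TensorProduct.map a b) = LinearMap.trace K A (pr ∘ₗ b) • a := by
      ext v
      rw [hPL, ← htr, LinearMap.smul_apply, Finset.sum_smul]
      refine Finset.sum_congr rfl fun i _ => ?_
      rw [TensorProduct.map_tmul, contr_tmul]
    have h4 : L1 (TensorProduct.map a b) =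
        LinearMap.trace K V (h ∘ₗ PL (TensorProduct.map a b)) := rfl
    have h5 : L2 (TensorProduct.map a b) =
        LinearMap.trace K (V ⊗[K] A) (TensorProduct.map h pr ∘ₗ TensorProduct.map a b) := rfl
    rw [h4, h5, h3, LinearMap.comp_smul, map_smul, ← TensorProduct.map_comp,
      LinearMap.trace_tensorProduct', smul_eq_mul, mul_comm]
  ext g'
  obtain ⟨x, rfl⟩ := (homTensorHomEquiv K V A V A).surjective g'
  exact congrArg (fun f => f x) h1

end Lin

section Super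

variable {K : Type u} [Field K] [CharZero K]

open SVect

/-- The super-trace. -/
noncomputable def str (M : SVect K) (f : M ⟶ M) : K :=
  LinearMap.trace K M.V ((M.par.hom : Module.End K M.V) * (lin f : Module.End K M.V))

omit [CharZero K] in
theorem lin_comp {M N L : SVect K} (f : M ⟶ N) (g : N ⟶ L) : lin (f ≫ g) = lin g ∘ₗ lin f := rfl

variable {M A B : SVect K} (co : 𝟙_ (SVect K) ⟶ A ⊗ B) (ev : B ⊗ A ⟶ 𝟙_ (SVect K))
  (h : co ▷ A ≫ (α_ _ _ _).hom ≫ A ◁ ev = (λ_ A).hom ≫ (ρ_ A).inv)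

include h in
theorem str_parD [Module.Finite K M.V] [Module.Finite K A.V] (g : M ⊗ A ⟶ M ⊗ A) (f : M ⟶ M) :
    str M (f ≫ parD co ev g) = str (M ⊗ A) (f ▷ A ≫ g) := by
  classical
  obtain ⟨S, hS⟩ := TensorProduct.exists_finset (coElt co)
  set q : A.V ⊗[K] B.V →ₗ[K] K := evForm ev ∘ₗ (kz A B).hom with hq
  have htr : ∀ b : A.V →ₗ[K] A.V, ∑ i ∈ S, q (b i.1 ⊗ₜ[K] i.2) =
      LinearMap.trace K A.V (A.par.hom ∘ₗ b) := by
    intro b
    rw [lin_trace (snake_elt co ev h) hS]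
    refine Finset.sum_congr rfl fun i _ => ?_
    rw [hq, LinearMap.comp_apply]
    have h2 : (kz A B).hom ((b i.1) ⊗ₜ[K] i.2) = (2⁻¹ : K) • (i.2 ⊗ₜ[K] (b i.1) +
        i.2 ⊗ₜ[K] A.par.hom (b i.1) + B.par.hom i.2 ⊗ₜ[K] (b i.1)
          - B.par.hom i.2 ⊗ₜ[K] A.par.hom (b i.1)) := kz_tmul A B _ _
    rw [h2, map_smul, map_sub, map_add, map_add, ev_par, ev_par', LinearMap.comp_apply, smul_eq_mul]
    have h3 : (2 : K) ≠ 0 := two_ne_zero
    field_simp
    ring
  let G : M.V ⊗[K] A.V →ₗ[K] M.V ⊗[K] A.V := g.f.hom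
  have hP : ∀ v, lin (parD co ev g) v = ∑ i ∈ S, contr q i.2 (G (v ⊗ₜ[K] i.1)) := by
    intro v
    let c : K →ₗ[K] A.V ⊗[K] B.V := co.f.hom
    let r : M.V ⊗[K] K →ₗ[K] M.V := (ρ_ M.V).hom.hom
    let w : M.V →ₗ[K] M.V ⊗[K] K := (ρ_ M.V).inv.hom
    have hw : w v = v ⊗ₜ[K] (1 : K) := ModuleCat.MonoidalCategory.rightUnitor_inv_apply (M := M.V) v
    have hr : ∀ t : M.V ⊗[K] K, r t = TensorProduct.rid K M.V t := fun t => rfl
    have hc : c 1 = coElt co := rfl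
    have h1 : lin (parD co ev g) v =
        r ((LinearMap.lTensor M.V q) ((TensorProduct.assoc K M.V A.V B.V)
          ((LinearMap.rTensor B.V G) ((TensorProduct.assoc K M.V A.V B.V).symm
            ((LinearMap.lTensor M.V c) (w v)))))) := rfl
    rw [h1, hw, LinearMap.lTensor_tmul, hc, hr]
    rw [hS, TensorProduct.tmul_sum, map_sum, map_sum, map_sum, map_sum, map_sum]
    refine Finset.sum_congr rfl fun i _ => ?_
    rw [TensorProduct.assoc_symm_tmul, LinearMap.rTensor_tmul, contr_apply]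
  let f' : M.V →ₗ[K] M.V := lin f
  have h6 := trace_ptr S q A.par.hom htr (G ∘ₗ LinearMap.rTensor A.V f')
    (lin (parD co ev g) ∘ₗ f') (by
      intro v
      rw [LinearMap.comp_apply, hP]
      refine Finset.sum_congr rfl fun i _ => ?_
      rw [LinearMap.comp_apply, LinearMap.rTensor_tmul])
    (M.par.hom : Module.End K M.V)
  exact h6

end Super

end NCSign
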