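import Mathlib

/-!
# Tensor powers and their permutations in a symmetric monoidal category
-/

open CategoryTheory MonoidalCategory

universe v₁ u₁

namespace NCSuper

variable {C : Type u₁} [Category.{v₁} C] [MonoidalCategory C]

/-- The tensor power `X^{⊗n} = ((𝟙 ⊗ X) ⊗ ... ) ⊗ X`. -/
def tpow (X : C) : ℕ → C
  | 0 => 𝟙_ C
  | n + 1 => tpow X n ⊗ X

/-- The endomorphism of `X^{⊗(n+2)}` which exchanges the last two factors. -/
def swapLast [BraidedCategory C] (X : C) (n : ℕ) : tpow X (n + 2) ⟶ tpow X (n + 2) :=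
  (α_ (tpow X n) X X).hom ≫ tpow X n ◁ (β_ X X).hom ≫ (α_ (tpow X n) X X).inv

/-- `IsPerm X n g`: the endomorphism `g` of `X^{⊗n}` is a permutation of the `n` factors, that is,
a composition of exchanges of two neighbouring factors. -/
inductive IsPerm [BraidedCategory C] (X : C) : (n : ℕ) → (tpow X n ⟶ tpow X n) → Prop
  | id (n : ℕ) : IsPerm X n (𝟙 (tpow X n))
  | comp (n : ℕ) (f g : tpow X n ⟶ tpow X n) : IsPerm X n f → IsPerm X n g → IsPerm X n (f ≫ g)
  | whisker (n : ℕ) (f : tpow X n ⟶ tpow X n) : IsPerm X n f → IsPerm X (n + 1) (f ▷ X)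
  | swap (n : ℕ) : IsPerm X (n + 2) (swapLast X n)

end NCSuper
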