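import Mathlib
import Pool.Agent.Lib_MP_8f22fa_ag.SchurDefs
import Pool.Agent.Lib_MP_8f22fa_ag.NatDiag
import Pool.Agent.Lib_MP_8f22fa_ag.PTrace

/-!
Derivations on tensor powers of super vector spaces and permutations.
-/

open CategoryTheory MonoidalCategory Functor.LaxMonoidal Functor.OplaxMonoidal Functor.Monoidal
open NCSuper

universe u v₁ u₁

namespace NCSign

open SVect

section Whisk

variable {K : Type u} [Field K]

theorem add_wr {M N : SVect K} (f g : M ⟶ N) (L : SVect K) : (f + g) ▷ L = f ▷ L + g ▷ L :=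
  hom_ext (by
    change (f.f + g.f) ▷ L.V = f.f ▷ L.V + g.f ▷ L.V
    rw [MonoidalPreadditive.add_whiskerRight])

theorem zero_wr {M N : SVect K} (L : SVect K) : (0 : M ⟶ N) ▷ L = 0 :=
  hom_ext (by
    change (0 : M.V ⟶ N.V) ▷ L.V = 0
    exact MonoidalPreadditive.zero_whiskerRight)

theorem wl_add {M N : SVect K} (L : SVect K) (f g : M ⟶ N) : L ◁ (f + g) = L ◁ f + L ◁ g :=
  hom_ext (by
    change L.V ◁ (f.f + g.f) = L.V ◁ f.f + L.V ◁ g.f
    rw [MonoidalPreadditive.whiskerLeft_add])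

theorem wl_zero {M N : SVect K} (L : SVect K) : L ◁ (0 : M ⟶ N) = 0 :=
  hom_ext (by
    change L.V ◁ (0 : M.V ⟶ N.V) = 0
    exact MonoidalPreadditive.whiskerLeft_zero)

instance : MonoidalPreadditive (SVect K) where
  whiskerLeft_zero := wl_zero _
  zero_whiskerRight := zero_wr _
  whiskerLeft_add f g := wl_add _ f g
  add_whiskerRight f g := add_wr f g _

end Whisk

section Gen

variable {D : Type u₁} [Category.{v₁} D] [MonoidalCategory D] [BraidedCategory D]

/-- The swap of the last two factors. -/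
def sw (A V : D) : (A ⊗ V) ⊗ V ⟶ (A ⊗ V) ⊗ V :=
  (α_ A V V).hom ≫ A ◁ (β_ V V).hom ≫ (α_ A V V).inv

theorem sw_nat (A V : D) (a : A ⟶ A) : sw A V ≫ (a ▷ V) ▷ V = (a ▷ V) ▷ V ≫ sw A V := by
  simp only [sw, Category.assoc]
  rw [associator_naturality_left_assoc, ← whisker_exchange_assoc, associator_inv_naturality_left]

theorem sw_left (A V : D) (f : V ⟶ V) : sw A V ≫ (A ◁ f) ▷ V = (A ⊗ V) ◁ f ≫ sw A V := by
  simp only [sw, Category.assoc]
  rw [← associator_inv_naturality_middle, associator_naturality_right_assoc,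
    ← whiskerLeft_comp_assoc, ← whiskerLeft_comp_assoc, BraidedCategory.braiding_naturality_right]

end Gen

section Sym

variable {D : Type u₁} [Category.{v₁} D] [MonoidalCategory D] [SymmetricCategory D]

theorem sw_sw (A V : D) : sw A V ≫ sw A V = 𝟙 _ := by
  simp only [sw, Category.assoc, Iso.inv_hom_id_assoc]
  rw [← whiskerLeft_comp_assoc, SymmetricCategory.symmetry, whiskerLeft_id, Category.id_comp,
    Iso.hom_inv_id]

theorem sw_right (A V : D) (f : V ⟶ V) : sw A V ≫ (A ⊗ V) ◁ f = (A ◁ f) ▷ V ≫ sw A V := by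
  have h := sw_left A V f
  calc sw A V ≫ (A ⊗ V) ◁ f = sw A V ≫ ((A ⊗ V) ◁ f ≫ sw A V) ≫ sw A V := by
        rw [Category.assoc, sw_sw, Category.comp_id]
    _ = (sw A V ≫ sw A V) ≫ (A ◁ f) ▷ V ≫ sw A V := by
        rw [← h]; simp only [Category.assoc]
    _ = (A ◁ f) ▷ V ≫ sw A V := by rw [sw_sw, Category.id_comp]

end Sym

section Der

variable {C : Type u₁} [Category.{v₁} C] [Preadditive C] [Linear ℚ C] [MonoidalCategory C]
  [SymmetricCategory C]
variable {K : Type u} [Field K] [CharZero K] (F : C ⥤ SVect K) [F.Braided] [F.Additive]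

/-- Transport of an endomorphism of `F T ⊗ F X` to `F (T ⊗ X)`. -/
noncomputable def cjT (T X : C) (x : F.obj T ⊗ F.obj X ⟶ F.obj T ⊗ F.obj X) :
    F.obj (T ⊗ X) ⟶ F.obj (T ⊗ X) :=
  δ F T X ≫ x ≫ μ F T X

/-- Transport of an endomorphism of `F (X^{⊗n}) ⊗ F X` to `F (X^{⊗(n+1)})`. -/
noncomputable def cj (X : C) (n : ℕ)
    (x : F.obj (tpow X n) ⊗ F.obj X ⟶ F.obj (tpow X n) ⊗ F.obj X) :
    F.obj (tpow X (n + 1)) ⟶ F.obj (tpow X (n + 1)) :=
  cjT F (tpow X n) X x

section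

omit [Preadditive C] [Linear ℚ C] [F.Additive]

theorem cjT_comp (T X : C) (x y : F.obj T ⊗ F.obj X ⟶ F.obj T ⊗ F.obj X) :
    cjT F T X (x ≫ y) = cjT F T X x ≫ cjT F T X y := by
  simp only [cjT, Category.assoc, μ_δ_assoc]

theorem cjT_id (T X : C) : cjT F T X (𝟙 _) = 𝟙 _ := by
  simp only [cjT, Category.id_comp, δ_μ]

theorem cjT_add (T X : C) (x y : F.obj T ⊗ F.obj X ⟶ F.obj T ⊗ F.obj X) :
    cjT F T X (x + y) = cjT F T X x + cjT F T X y := by
  simp only [cjT, Preadditive.add_comp, Preadditive.comp_add]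

theorem cjT_map (T X : C) (g : T ⟶ T) :
    cjT F T X (F.map g ▷ F.obj X) = F.map (g ▷ X) := by
  rw [cjT, map_whiskerRight]

theorem cj_comp (X : C) (n : ℕ)
    (x y : F.obj (tpow X n) ⊗ F.obj X ⟶ F.obj (tpow X n) ⊗ F.obj X) :
    cj F X n (x ≫ y) = cj F X n x ≫ cj F X n y := cjT_comp F _ X x y

theorem cj_id (X : C) (n : ℕ) : cj F X n (𝟙 _) = 𝟙 _ := cjT_id F _ X

theorem cj_add (X : C) (n : ℕ)
    (x y : F.obj (tpow X n) ⊗ F.obj X ⟶ F.obj (tpow X n) ⊗ F.obj X) :
    cj F X n (x + y) = cj F X n x + cj F X n y := cjT_add F _ X x y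

theorem cj_map (X : C) (n : ℕ) (g : tpow X n ⟶ tpow X n) :
    cj F X n (F.map g ▷ F.obj X) = F.map (g ▷ X) := cjT_map F _ X g

/-- The operator which acts on the last factor. -/
noncomputable def lst (X : C) (n : ℕ) (f : F.obj X ⟶ F.obj X) :
    F.obj (tpow X (n + 1)) ⟶ F.obj (tpow X (n + 1)) :=
  cj F X n (F.obj (tpow X n) ◁ f)

/-- The derivation of the tensor power. -/
noncomputable def der (X : C) (f : F.obj X ⟶ F.obj X) :
    (n : ℕ) → (F.obj (tpow X n) ⟶ F.obj (tpow X n))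
  | 0 => 0
  | n + 1 => cj F X n (der X f n ▷ F.obj X + F.obj (tpow X n) ◁ f)

theorem der_succ (X : C) (f : F.obj X ⟶ F.obj X) (n : ℕ) :
    der F X f (n + 1) = cj F X n (der F X f n ▷ F.obj X) + lst F X n f := by
  rw [der, cj_add, lst]

theorem der_add (X : C) (f g : F.obj X ⟶ F.obj X) (n : ℕ) :
    der F X (f + g) n = der F X f n + der F X g n := by
  induction n with
  | zero => simp only [der, add_zero]
  | succ n ih =>
    simp only [der_succ, lst, ih, add_wr, wl_add, cj_add]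
    abel

theorem der_comm (X : C) (f g : F.obj X ⟶ F.obj X) (n : ℕ) :
    der F X (f ≫ g) n + der F X g n ≫ der F X f n =
      der F X (g ≫ f) n + der F X f n ≫ der F X g n := by
  induction n with
  | zero => simp only [der, Limits.zero_comp]
  | succ n ih =>
    have h1 : ∀ a b : F.obj X ⟶ F.obj X, der F X a (n + 1) ≫ der F X b (n + 1) =
        cj F X n ((der F X a n ≫ der F X b n) ▷ F.obj X) +
          cj F X n (der F X a n ▷ F.obj X ≫ F.obj (tpow X n) ◁ b) +
          cj F X n (der F X b n ▷ F.obj X ≫ F.obj (tpow X n) ◁ a) +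
          cj F X n (F.obj (tpow X n) ◁ (a ≫ b)) := by
      intro a b
      rw [der_succ, der_succ, lst, lst, ← cj_add, ← cj_add, ← cj_comp, ← cj_add, ← cj_add,
        ← cj_add]
      congr 1
      rw [Preadditive.add_comp, Preadditive.comp_add, Preadditive.comp_add, comp_whiskerRight,
        whiskerLeft_comp, whisker_exchange]
      abel
    rw [h1 g f, h1 f g, der_succ, der_succ, lst, lst]
    have h2 := congrArg (fun t => cj F X n (t ▷ F.obj X)) ih
    simp only [add_wr, cj_add] at h2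
    have h3 : cj F X n (der F X (f ≫ g) n ▷ F.obj X) =
        cj F X n (der F X (g ≫ f) n ▷ F.obj X) +
          cj F X n ((der F X f n ≫ der F X g n) ▷ F.obj X) -
          cj F X n ((der F X g n ≫ der F X f n) ▷ F.obj X) := by
      rw [← h2]; abel
    rw [h3]
    abel

/-! ### Permutations commute with derivations -/

/-- Transport of an endomorphism of `(F T ⊗ F X) ⊗ F X` to `F ((T ⊗ X) ⊗ X)`. -/
noncomputable def ccT (T X : C)
    (x : (F.obj T ⊗ F.obj X) ⊗ F.obj X ⟶ (F.obj T ⊗ F.obj X) ⊗ F.obj X) :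
    F.obj ((T ⊗ X) ⊗ X) ⟶ F.obj ((T ⊗ X) ⊗ X) :=
  δ F (T ⊗ X) X ≫ (δ F T X ▷ F.obj X) ≫ x ≫ (μ F T X ▷ F.obj X) ≫ μ F (T ⊗ X) X

theorem ccT_comp (T X : C)
    (x y : (F.obj T ⊗ F.obj X) ⊗ F.obj X ⟶ (F.obj T ⊗ F.obj X) ⊗ F.obj X) :
    ccT F T X (x ≫ y) = ccT F T X x ≫ ccT F T X y := by
  have h : (μ F T X ▷ F.obj X) ≫ (δ F T X ▷ F.obj X) = 𝟙 _ := by
    rw [← comp_whiskerRight, μ_δ, id_whiskerRight]
  simp only [ccT, Category.assoc, μ_δ_assoc]
  rw [reassoc_of% h]

theorem ccT_add (T X : C)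
    (x y : (F.obj T ⊗ F.obj X) ⊗ F.obj X ⟶ (F.obj T ⊗ F.obj X) ⊗ F.obj X) :
    ccT F T X (x + y) = ccT F T X x + ccT F T X y := by
  simp only [ccT, Preadditive.add_comp, Preadditive.comp_add]

theorem ccT_right (T X : C) (x : F.obj T ⊗ F.obj X ⟶ F.obj T ⊗ F.obj X) :
    cjT F (T ⊗ X) X (cjT F T X x ▷ F.obj X) = ccT F T X (x ▷ F.obj X) := by
  simp only [cjT, ccT, comp_whiskerRight, Category.assoc]

theorem ccT_left (T X : C) (f : F.obj X ⟶ F.obj X) :
    cjT F (T ⊗ X) X (F.obj (T ⊗ X) ◁ f) = ccT F T X ((F.obj T ⊗ F.obj X) ◁ f) := by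
  simp only [cjT, ccT]
  rw [whisker_exchange_assoc, ← comp_whiskerRight_assoc, δ_μ, id_whiskerRight, Category.id_comp]

theorem ccT_sw (T X : C) : F.map ((α_ T X X).hom ≫ T ◁ (β_ X X).hom ≫ (α_ T X X).inv) =
    ccT F T X (sw (F.obj T) (F.obj X)) := by
  simp only [ccT, sw, Functor.map_comp, map_associator, map_associator_inv, map_whiskerLeft,
    Functor.map_braiding, whiskerLeft_comp, Category.assoc, μ_δ_assoc, whiskerLeft_μ_δ_assoc]

/-- The derivation on `(T ⊗ X) ⊗ X`. -/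
theorem der_two (X : C) (f : F.obj X ⟶ F.obj X) (n : ℕ) :
    der F X f (n + 2) = (ccT F (tpow X n) X ((der F X f n ▷ F.obj X) ▷ F.obj X +
      ((F.obj (tpow X n) ◁ f) ▷ F.obj X + (F.obj (tpow X n) ⊗ F.obj X) ◁ f)) :
        F.obj ((tpow X n ⊗ X) ⊗ X) ⟶ F.obj ((tpow X n ⊗ X) ⊗ X)) := by
  have h1 : der F X f (n + 2) = cjT F (tpow X n ⊗ X) X
      (cjT F (tpow X n) X (der F X f n ▷ F.obj X + F.obj (tpow X n) ◁ f) ▷ F.obj X +
        F.obj (tpow X n ⊗ X) ◁ f) := rfl
  rw [h1, cjT_add, ccT_right, ccT_left, add_wr, ccT_add, ccT_add, ccT_add]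
  abel

theorem swap_comm (X : C) (f : F.obj X ⟶ F.obj X) (n : ℕ) :
    F.map (swapLast X n) ≫ der F X f (n + 2) = der F X f (n + 2) ≫ F.map (swapLast X n) := by
  have h1 : F.map (swapLast X n) = (ccT F (tpow X n) X (sw (F.obj (tpow X n)) (F.obj X)) :
    F.obj ((tpow X n ⊗ X) ⊗ X) ⟶ F.obj ((tpow X n ⊗ X) ⊗ X)) := ccT_sw F (tpow X n) X
  have h2 := der_two F X f n
  rw [h1, h2]
  have h3 := ccT_comp F (tpow X n) X (sw (F.obj (tpow X n)) (F.obj X))
    ((der F X f n ▷ F.obj X) ▷ F.obj X +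
      ((F.obj (tpow X n) ◁ f) ▷ F.obj X + (F.obj (tpow X n) ⊗ F.obj X) ◁ f))
  have h4 := ccT_comp F (tpow X n) X
    ((der F X f n ▷ F.obj X) ▷ F.obj X +
      ((F.obj (tpow X n) ◁ f) ▷ F.obj X + (F.obj (tpow X n) ⊗ F.obj X) ◁ f))
    (sw (F.obj (tpow X n)) (F.obj X))
  refine h3.symm.trans (Eq.trans ?_ h4)
  congr 1
  rw [Preadditive.comp_add, Preadditive.comp_add, Preadditive.add_comp, Preadditive.add_comp,
    sw_nat, sw_left, sw_right]
  abel

theorem perm_comm (X : C) (f : F.obj X ⟶ F.obj X) (n : ℕ) (g : tpow X n ⟶ tpow X n)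
    (hg : IsPerm X n g) : F.map g ≫ der F X f n = der F X f n ≫ F.map g := by
  induction hg with
  | id n => rw [F.map_id, Category.id_comp, Category.comp_id]
  | comp n a b _ _ ha hb =>
    rw [F.map_comp, Category.assoc, hb, ← Category.assoc, ha, Category.assoc]
  | whisker n a _ ha =>
    have h1 : F.map (a ▷ X) ≫ der F X f (n + 1) = cj F X n ((F.map a ▷ F.obj X) ≫
        (der F X f n ▷ F.obj X + F.obj (tpow X n) ◁ f)) := by
      rw [cj_comp, cj_map, der]
      rfl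
    have h2 : der F X f (n + 1) ≫ F.map (a ▷ X) = cj F X n
        ((der F X f n ▷ F.obj X + F.obj (tpow X n) ◁ f) ≫ (F.map a ▷ F.obj X)) := by
      rw [cj_comp, cj_map, der]
      rfl
    refine h1.trans (Eq.trans ?_ h2.symm)
    congr 1
    rw [Preadditive.comp_add, Preadditive.add_comp, ← comp_whiskerRight, ha, comp_whiskerRight,
      whisker_exchange]
  | swap n => exact swap_comm F X f n

end

theorem span_comm (X : C) (f : F.obj X ⟶ F.obj X) (n : ℕ) (g : tpow X n ⟶ tpow X n)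
    (hg : g ∈ Submodule.span ℚ {g : tpow X n ⟶ tpow X n | IsPerm X n g}) :
    (lin (der F X f n) : Module.End K (F.obj (tpow X n)).V) * lin (F.map g) =
      lin (F.map g) * lin (der F X f n) := by
  refine Submodule.span_induction (p := fun g _ =>
    (lin (der F X f n) : Module.End K (F.obj (tpow X n)).V) * lin (F.map g) =
      lin (F.map g) * lin (der F X f n)) ?_ ?_ ?_ ?_ hg
  · intro g hg
    exact congrArg (fun t => (lin t : Module.End K (F.obj (tpow X n)).V)) (perm_comm F X f n g hg)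
  · rw [F.map_zero]
    have h0 : (lin (0 : F.obj (tpow X n) ⟶ F.obj (tpow X n)) :
      Module.End K (F.obj (tpow X n)).V) = 0 := rfl
    rw [h0, mul_zero, zero_mul]
  · intro x y _ _ hx hy
    have h0 : (lin (F.map (x + y)) : Module.End K (F.obj (tpow X n)).V) =
      lin (F.map x) + lin (F.map y) := by rw [F.map_add]; rfl
    rw [h0, mul_add, add_mul, hx, hy]
  · intro q x _ hx
    have h0 : (lin (F.map (q • x)) : Module.End K (F.obj (tpow X n)).V) =
      (q : K) • (lin (F.map x) : Module.End K (F.obj (tpow X n)).V) := lin_map_rat_smul F q x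
    rw [h0, mul_smul_comm, smul_mul_assoc, hx]

end Der

end NCSign
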