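import Mathlib
import Pool.Agent.Lib_MP_8f22fa_ag.Schur

/-!
Cancellation of Schur functors for the statement `C⁺`.
-/

open CategoryTheory MonoidalCategory Functor.LaxMonoidal Functor.OplaxMonoidal Functor.Monoidal
open NCSuper TensorProduct

universe u v₁ u₁

namespace NCSign

open SVect

section Str

variable {K : Type u} [Field K]

theorem str_cyc {M N : SVect K} [Module.Finite K M.V] [Module.Finite K N.V] (f : M ⟶ N)
    (g : N ⟶ M) : str M (f ≫ g) = str N (g ≫ f) := by
  have h1 : (N.par.hom : Module.End K N.V) ∘ₗ lin f = lin f ∘ₗ (M.par.hom : Module.End K M.V) := by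
    ext v
    exact (comm_apply f v).symm
  have h2 : str M (f ≫ g) = LinearMap.trace K M.V ((M.par.hom ∘ₗ lin g) ∘ₗ lin f) := rfl
  have h3 : str N (g ≫ f) = LinearMap.trace K N.V ((N.par.hom ∘ₗ lin f) ∘ₗ lin g) := rfl
  rw [h2, h3, h1]
  exact (LinearMap.trace_comp_comm' (lin f) (M.par.hom ∘ₗ lin g)).trans
    (by rw [LinearMap.comp_assoc])

theorem str_add {M : SVect K} (f g : M ⟶ M) : str M (f + g) = str M f + str M g := by
  have h : (lin (f + g) : Module.End K M.V) = lin f + lin g := rfl
  rw [str, h, mul_add, map_add]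
  rfl

theorem str_zero {M : SVect K} : str M (0 : M ⟶ M) = 0 := by
  have h : (lin (0 : M ⟶ M) : Module.End K M.V) = 0 := rfl
  rw [str, h, mul_zero, map_zero]

theorem str_sub {M : SVect K} (f g : M ⟶ M) : str M (f - g) = str M f - str M g := by
  have h := str_add (f - g) g
  rw [sub_add_cancel] at h
  rw [h, add_sub_cancel_right]

variable [CharZero K]

/-- The super-trace form on the even endomorphisms is non-degenerate. -/
theorem str_nondeg {M : SVect K} [Module.Finite K M.V] (g : M ⟶ M)
    (h : ∀ f : M ⟶ M, str M (f ≫ g) = 0) : g = 0 := by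
  have key : ∀ k : Module.End K M.V, LinearMap.trace K M.V (M.par.hom * (lin g) * k) = 0 := by
    intro k
    have hk : M.par.hom * (k + M.par.hom * k * M.par.hom) =
        (k + M.par.hom * k * M.par.hom) * M.par.hom := by
      have h1 := par_mul_par M
      calc (M.par.hom : Module.End K M.V) * (k + M.par.hom * k * M.par.hom) =
          M.par.hom * k + (M.par.hom * M.par.hom) * k * M.par.hom := by noncomm_ring
        _ = M.par.hom * k + k * M.par.hom := by rw [h1, one_mul]
        _ = k * M.par.hom + M.par.hom * k * (M.par.hom * M.par.hom) := by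
            rw [h1, mul_one, add_comm]
        _ = _ := by noncomm_ring
    let f : M ⟶ M := ⟨ModuleCat.ofHom (k + M.par.hom * k * M.par.hom : Module.End K M.V), by
      apply ModuleCat.hom_ext
      exact hk.symm⟩
    have h2 := h f
    have h3 : str M (f ≫ g) = LinearMap.trace K M.V
      (M.par.hom * ((lin g : Module.End K M.V) * (k + M.par.hom * k * M.par.hom))) := rfl
    rw [h3, mul_add, mul_add, map_add] at h2
    have h4 : LinearMap.trace K M.V
        (M.par.hom * ((lin g : Module.End K M.V) * (M.par.hom * k * M.par.hom))) =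
        LinearMap.trace K M.V (M.par.hom * (lin g) * k) := by
      have h5 : (M.par.hom * ((lin g : Module.End K M.V) * (M.par.hom * k * M.par.hom))) =
          (M.par.hom * ((lin g : Module.End K M.V) * (M.par.hom * k))) * M.par.hom := by
        noncomm_ring
      rw [h5, LinearMap.trace_mul_comm]
      have h6 : (M.par.hom : Module.End K M.V) * (M.par.hom *
          ((lin g : Module.End K M.V) * (M.par.hom * k))) =
          (M.par.hom * M.par.hom) * ((lin g : Module.End K M.V) * M.par.hom) * k := by
        noncomm_ring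
      rw [h6, par_mul_par, one_mul, lin_comm]
    rw [h4, ← mul_assoc, ← two_mul] at h2
    exact (mul_eq_zero.mp h2).resolve_left two_ne_zero
  have h7 : (M.par.hom * (lin g) : Module.End K M.V) = 0 := by
    ext v
    rw [LinearMap.zero_apply]
    refine (Module.forall_dual_apply_eq_zero_iff K _).mp fun l => ?_
    have h8 := key (l.smulRight v)
    have h9 : (M.par.hom * (lin g) * (l.smulRight v : Module.End K M.V) : Module.End K M.V) =
        l.smulRight ((M.par.hom * (lin g) : Module.End K M.V) v) := by
      ext w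
      simp
    rw [h9, LinearMap.trace_smulRight] at h8
    exact h8
  have h10 : (lin g : Module.End K M.V) = 0 := by
    have h11 : (lin g : Module.End K M.V) = M.par.hom * (M.par.hom * lin g) := by
      rw [← mul_assoc, par_mul_par, one_mul]
    rw [h11, h7, mul_zero]
  exact hom_ext (ModuleCat.hom_ext h10)

/-- An even endomorphism which commutes with all even endomorphisms is a scalar on the image of an
even idempotent onto one homogeneous part. -/
theorem central_part {M : SVect K} (g : M ⟶ M) (h : ∀ f : M ⟶ M, f ≫ g = g ≫ f)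
    (P : Module.End K M.V) (hP : P * P = P) (e : K) (h1 : (M.par.hom : Module.End K M.V) * P = e • P)
    (h2 : P * (M.par.hom : Module.End K M.V) = e • P) :
    ∃ c : K, ∀ v, lin g (P v) = c • P v := by
  by_cases h0 : P = 0
  · exact ⟨0, fun v => by rw [h0]; simp⟩
  obtain ⟨v0, hv0⟩ : ∃ v0, P v0 ≠ 0 := by
    by_contra hcon
    push Not at hcon
    exact h0 (LinearMap.ext hcon)
  obtain ⟨l, hl⟩ : ∃ l : Module.Dual K M.V, l (P v0) ≠ 0 := by
    by_contra hcon
    push Not at hcon
    exact hv0 ((Module.forall_dual_apply_eq_zero_iff K _).mp hcon)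
  refine ⟨l (P (lin g (P v0))) / l (P v0), fun v => ?_⟩
  let k : Module.End K M.V := (l ∘ₗ P).smulRight (P v)
  have hk : (M.par.hom : Module.End K M.V) * k = k * M.par.hom := by
    ext x
    have h3 := congrArg (fun t => t v) h1
    have h4 := congrArg (fun t => t x) h2
    simp only [Module.End.mul_apply, LinearMap.smul_apply] at h3 h4
    simp only [k, Module.End.mul_apply, LinearMap.smulRight_apply, LinearMap.comp_apply, map_smul,
      h3, h4, smul_eq_mul, smul_smul, mul_comm]
  let f : M ⟶ M := ⟨ModuleCat.ofHom k, by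
    apply ModuleCat.hom_ext
    exact hk.symm⟩
  have h5 := congrArg (fun t => lin t (P v0)) (h f)
  have h6 : lin (f ≫ g) (P v0) = lin g (k (P v0)) := rfl
  have h7 : lin (g ≫ f) (P v0) = k (lin g (P v0)) := rfl
  simp only [h6, h7] at h5
  have h8 : P (P v0) = P v0 := congrArg (fun t => t v0) hP
  simp only [k, LinearMap.smulRight_apply, LinearMap.comp_apply, h8, map_smul] at h5
  rw [div_eq_inv_mul, mul_smul, ← h5, smul_smul, inv_mul_cancel₀ hl, one_smul]

theorem pp_mul_par (M : SVect K) : pp (M.par.hom : Module.End K M.V) * (M.par.hom) = pp M.par.hom := by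
  rw [pp, smul_mul_assoc, add_mul, one_mul, par_mul_par, add_comm]

theorem pm_mul_par (M : SVect K) : pm (M.par.hom : Module.End K M.V) * (M.par.hom) = -pm M.par.hom := by
  rw [pm, smul_mul_assoc, sub_mul, one_mul, par_mul_par, ← smul_neg, neg_sub]

theorem central_pp {M : SVect K} (g : M ⟶ M) (h : ∀ f : M ⟶ M, f ≫ g = g ≫ f) :
    ∃ c : K, ∀ v, lin g (pp (M.par.hom : Module.End K M.V) v) =
      c • pp (M.par.hom : Module.End K M.V) v :=
  central_part g h _ (pp_mul_pp (par_mul_par M)) 1 (by rw [par_mul_pp, one_smul])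
    (by rw [pp_mul_par, one_smul])

theorem central_pm {M : SVect K} (g : M ⟶ M) (h : ∀ f : M ⟶ M, f ≫ g = g ≫ f) :
    ∃ c : K, ∀ v, lin g (pm (M.par.hom : Module.End K M.V) v) =
      c • pm (M.par.hom : Module.End K M.V) v :=
  central_part g h _ (pm_mul_pm (par_mul_par M)) (-1) (by rw [par_mul_pm, neg_one_smul])
    (by rw [pm_mul_par, neg_one_smul])

end Str

end NCSign
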