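import Mathlib
import Pool.Agent.Lib_MP_8f22fa_ag.SchurMain

/-!
Cancellation of Schur functors for the statement `C⁺`: the main argument.
-/

open CategoryTheory MonoidalCategory Functor.LaxMonoidal Functor.OplaxMonoidal Functor.Monoidal
open NCSuper TensorProduct

universe u v₁ u₁

namespace NCSign

open SVect

section Cat

variable {C : Type u₁} [Category.{v₁} C] [Preadditive C] [Linear ℚ C] [MonoidalCategory C]
  [SymmetricCategory C] [RightRigidCategory C]
variable {K : Type u} [Field K] [CharZero K] (F : C ⥤ SVect K) [F.Braided] [F.Additive]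

section

omit [Linear ℚ C] [F.Additive]

omit [CharZero K] in
theorem svect_finite_tensor {M N : SVect K} [Module.Finite K M.V] [Module.Finite K N.V] :
    Module.Finite K (M ⊗ N).V :=
  inferInstanceAs (Module.Finite K (M.V ⊗[K] N.V))

/-- Partial trace over the last factor. -/
theorem str_right (T X : C) (w : T ⊗ X ⟶ T ⊗ X) (d : F.obj T ⟶ F.obj T) :
    str (F.obj T) (d ≫ F.map (parTrace w)) =
      str (F.obj (T ⊗ X)) (cjT F T X (d ▷ F.obj X) ≫ F.map w) := by
  have f1 := map_finite F T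
  have f2 := map_finite F X
  have f3 := map_finite F (T ⊗ X)
  have f4 : Module.Finite K (F.obj T ⊗ F.obj X).V := svect_finite_tensor
  rw [map_parTrace, str_parD _ _ (snakeF F X Xᘁ)]
  have h1 : d ▷ F.obj X ≫ μ F T X ≫ F.map w ≫ δ F T X =
      (d ▷ F.obj X ≫ μ F T X ≫ F.map w) ≫ δ F T X := by
    simp only [Category.assoc]
  rw [h1, str_cyc]
  simp only [cjT, Category.assoc]

/-- Partial trace over the first factor. -/
theorem str_left (T X : C) (w : T ⊗ X ⟶ T ⊗ X) (f : F.obj X ⟶ F.obj X) :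
    str (F.obj X) (f ≫ F.map (parTrace ((β_ X T).hom ≫ w ≫ (β_ T X).hom))) =
      str (F.obj (T ⊗ X)) (cjT F T X (F.obj T ◁ f) ≫ F.map w) := by
  have f1 := map_finite F (X ⊗ T)
  have f3 := map_finite F (T ⊗ X)
  rw [str_right]
  have h1 : cjT F X T (f ▷ F.obj T) ≫ F.map ((β_ X T).hom ≫ w ≫ (β_ T X).hom) =
      (cjT F X T (f ▷ F.obj T) ≫ F.map (β_ X T).hom ≫ F.map w) ≫ F.map (β_ T X).hom := by
    simp only [F.map_comp, Category.assoc]
  rw [h1, str_cyc]
  have h2 : F.map (β_ T X).hom ≫ cjT F X T (f ▷ F.obj T) ≫ F.map (β_ X T).hom =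
      cjT F T X (F.obj T ◁ f) := by
    simp only [cjT, Functor.map_braiding, Category.assoc, μ_δ_assoc]
    rw [← BraidedCategory.braiding_naturality_right_assoc, SymmetricCategory.symmetry_assoc]
  rw [← h2]
  simp only [Category.assoc]

end

/-- For every endomorphism `w` of the tensor power there is an endomorphism `p` of `X` such that
the super-trace form of `F p` is the super-trace of `F w` composed with derivations. -/
theorem exists_contract [MonoidalPreadditive C] (X : C) (n : ℕ) (w : tpow X n ⟶ tpow X n) :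
    ∃ p : X ⟶ X, ∀ f : F.obj X ⟶ F.obj X,
      str (F.obj X) (f ≫ F.map p) = str (F.obj (tpow X n)) (der F X f n ≫ F.map w) := by
  induction n with
  | zero =>
    refine ⟨0, fun f => ?_⟩
    rw [F.map_zero, Limits.comp_zero, der, Limits.zero_comp, str_zero, str_zero]
  | succ n ih =>
    let w' : tpow X n ⊗ X ⟶ tpow X n ⊗ X := w
    obtain ⟨p, hp⟩ := ih (parTrace w')
    refine ⟨p + parTrace ((β_ X (tpow X n)).hom ≫ w' ≫ (β_ (tpow X n) X).hom), fun f => ?_⟩
    rw [F.map_add, Preadditive.comp_add, str_add, hp, str_right, str_left, der_succ,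
      Preadditive.add_comp, str_add]
    rfl

section

omit [Linear ℚ C] [F.Additive]

/-- The monoidal comparison isomorphism as a linear equivalence. -/
noncomputable def muLin (T X : C) : (F.obj T).V ⊗[K] (F.obj X).V ≃ₗ[K] (F.obj (T ⊗ X)).V :=
  LinearEquiv.ofLinearMap (lin (μ F T X)) (lin (δ F T X))
    (by
      have h := congrArg lin (δ_μ F T X)
      exact h)
    (by
      have h := congrArg lin (μ_δ F T X)
      exact h)

theorem natDiag_der (X : C) (f : F.obj X ⟶ F.obj X) (n : ℕ)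
    (hf : NatDiag (lin f : Module.End K (F.obj X).V)) :
    NatDiag (lin (der F X f n) : Module.End K (F.obj (tpow X n)).V) := by
  induction n with
  | zero =>
    have := map_finite F (tpow X 0)
    exact natDiag_zero
  | succ n ih =>
    refine natDiag_conj (natDiag_tensor ih hf) (muLin F (tpow X n) X) fun v => ?_
    have h1 : (lin (der F X f (n + 1)) : Module.End K (F.obj (tpow X (n + 1))).V) =
        lin (μ F (tpow X n) X) ∘ₗ (LinearMap.rTensor _ (lin (der F X f n)) +
          LinearMap.lTensor _ (lin f)) ∘ₗ lin (δ F (tpow X n) X) := rfl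
    rw [h1]
    have h2 : lin (δ F (tpow X n) X) ((muLin F (tpow X n) X) v) = v :=
      (muLin F (tpow X n) X).symm_apply_apply v
    rw [LinearMap.comp_apply, LinearMap.comp_apply, h2]
    rfl

omit [CharZero K] in
theorem nsmul_wr {M N : SVect K} (m : ℕ) (f : M ⟶ N) (L : SVect K) : (m • f) ▷ L = m • (f ▷ L) := by
  induction m with
  | zero => rw [zero_smul, zero_smul, zero_wr]
  | succ m ih => rw [succ_nsmul, succ_nsmul, add_wr, ih]

theorem cj_nsmul (X : C) (n m : ℕ)
    (x : F.obj (tpow X n) ⊗ F.obj X ⟶ F.obj (tpow X n) ⊗ F.obj X) :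
    cj F X n (m • x) = m • cj F X n x := by
  have h0 : cj F X n 0 = 0 := by
    have h := cj_add F X n 0 0
    rw [add_zero] at h
    exact left_eq_add.mp h
  induction m with
  | zero => rw [zero_smul, zero_smul, h0]
  | succ m ih => rw [succ_nsmul, succ_nsmul, cj_add, ih]

theorem der_id (X : C) (n : ℕ) : der F X (𝟙 _) n = n • 𝟙 (F.obj (tpow X n)) := by
  induction n with
  | zero => rw [der, zero_smul]
  | succ n ih =>
    rw [der_succ, ih, lst, whiskerLeft_id, cj_id, nsmul_wr, cj_nsmul, id_whiskerRight, cj_id,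
      succ_nsmul]

end

/-- The odd projector. -/
noncomputable def oddProj (M : SVect K) : M ⟶ M := 𝟙 M - M.evenProj

theorem lin_oddProj (M : SVect K) : (lin (oddProj M) : Module.End K M.V) =
    pm (M.par.hom : Module.End K M.V) := by
  have h : (lin (oddProj M) : Module.End K M.V) = 1 - pp (M.par.hom : Module.End K M.V) := rfl
  rw [h, ← pp_add_pm (M.par.hom : Module.End K M.V)]
  abel

/-- Every object with purely odd realisation satisfies `C⁺`. -/
theorem cplus_of_pp_zero {X : C}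
    (h : pp ((F.obj X).par.hom : Module.End K (F.obj X).V) = 0) : CPlus F X := by
  rw [cplus_iff, h]
  exact (algRing F X).zero_mem

theorem cplus_of_pm_zero {X : C}
    (h : pm ((F.obj X).par.hom : Module.End K (F.obj X).V) = 0) : CPlus F X := by
  rw [cplus_iff]
  have h1 := pp_add_pm ((F.obj X).par.hom : Module.End K (F.obj X).V)
  rw [h, add_zero] at h1
  rw [h1]
  exact (algRing F X).one_mem

/-- The derivation on `F (X^{⊗n} ⊗ Z)`. -/
noncomputable def dz (X Z : C) (n : ℕ) (f : F.obj X ⟶ F.obj X) :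
    F.obj (tpow X n ⊗ Z) ⟶ F.obj (tpow X n ⊗ Z) :=
  cjT F (tpow X n) Z (der F X f n ▷ F.obj Z)

section

omit [Preadditive C] [Linear ℚ C] [RightRigidCategory C] [F.Additive]

theorem dz_add (X Z : C) (n : ℕ) (f g : F.obj X ⟶ F.obj X) :
    dz F X Z n (f + g) = dz F X Z n f + dz F X Z n g := by
  rw [dz, der_add, add_wr, cjT_add, dz, dz]

theorem dz_comm (X Z : C) (n : ℕ) (f g : F.obj X ⟶ F.obj X) :
    dz F X Z n (f ≫ g) + dz F X Z n g ≫ dz F X Z n f =
      dz F X Z n (g ≫ f) + dz F X Z n f ≫ dz F X Z n g := by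
  have h1 : ∀ a b : F.obj X ⟶ F.obj X, dz F X Z n a ≫ dz F X Z n b =
      cjT F (tpow X n) Z ((der F X a n ≫ der F X b n) ▷ F.obj Z) := by
    intro a b
    rw [dz, dz, ← cjT_comp, comp_whiskerRight]
  rw [h1, h1, dz, dz, ← cjT_add, ← cjT_add, ← add_wr, ← add_wr, der_comm]

theorem dz_perm (X Z : C) (n : ℕ) (f : F.obj X ⟶ F.obj X) (g : tpow X n ⟶ tpow X n)
    (hg : IsPerm X n g) (z : Z ⟶ Z) :
    F.map (g ⊗ₘ z) ≫ dz F X Z n f = dz F X Z n f ≫ F.map (g ⊗ₘ z) := by
  have h1 : F.map (g ⊗ₘ z) = cjT F (tpow X n) Z (F.map g ⊗ₘ F.map z) := by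
    rw [cjT, map_tensor]
  rw [h1, dz, ← cjT_comp, ← cjT_comp]
  congr 1
  rw [MonoidalCategory.tensorHom_def, Category.assoc, whisker_exchange, ← comp_whiskerRight_assoc,
    perm_comm F X f n g hg, comp_whiskerRight_assoc]

theorem dz_id [Preadditive C] [RightRigidCategory C] (X Z : C) (n : ℕ) :
    dz F X Z n (𝟙 _) = n • 𝟙 _ := by
  have h2 : ∀ m : ℕ, ∀ x : F.obj (tpow X n) ⊗ F.obj Z ⟶ F.obj (tpow X n) ⊗ F.obj Z,
      cjT F (tpow X n) Z (m • x) = m • cjT F (tpow X n) Z x := by
    intro m x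
    have h0 : cjT F (tpow X n) Z 0 = 0 := by
      have h := cjT_add F (tpow X n) Z 0 0
      rw [add_zero] at h
      exact left_eq_add.mp h
    induction m with
    | zero => rw [zero_smul, zero_smul, h0]
    | succ m ih => rw [succ_nsmul, succ_nsmul, cjT_add, ih]
  rw [dz, der_id, nsmul_wr, h2, id_whiskerRight, cjT_id]

theorem natDiag_dz [Preadditive C] [RightRigidCategory C] (X Z : C) (n : ℕ)
    (f : F.obj X ⟶ F.obj X) (hf : NatDiag (lin f : Module.End K (F.obj X).V)) :
    NatDiag (lin (dz F X Z n f) : Module.End K (F.obj (tpow X n ⊗ Z)).V) := by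
  have fZ := map_finite F Z
  refine natDiag_conj (natDiag_tensor (natDiag_der F X f n hf) (natDiag_zero (M := (F.obj Z).V)))
    (muLin F (tpow X n) Z) fun v => ?_
  have h1 : (lin (dz F X Z n f) : Module.End K (F.obj (tpow X n ⊗ Z)).V) =
      lin (μ F (tpow X n) Z) ∘ₗ (LinearMap.rTensor _ (lin (der F X f n))) ∘ₗ
        lin (δ F (tpow X n) Z) := rfl
  have h2 : lin (δ F (tpow X n) Z) ((muLin F (tpow X n) Z) v) = v :=
    (muLin F (tpow X n) Z).symm_apply_apply v
  rw [h1, LinearMap.lTensor_zero, add_zero]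
  exact congrArg (fun t => (muLin F (tpow X n) Z)
    ((LinearMap.rTensor (F.obj Z).V (lin (der F X f n))) t)) h2

end

theorem dz_span (X Z : C) (n : ℕ) (f : F.obj X ⟶ F.obj X) (g : tpow X n ⊗ Z ⟶ tpow X n ⊗ Z)
    (hg : g ∈ Submodule.span ℚ {g : tpow X n ⊗ Z ⟶ tpow X n ⊗ Z |
      ∃ (s : tpow X n ⟶ tpow X n) (z : Z ⟶ Z), IsPerm X n s ∧ g = s ⊗ₘ z}) :
    (lin (dz F X Z n f) : Module.End K (F.obj (tpow X n ⊗ Z)).V) * lin (F.map g) =
      lin (F.map g) * lin (dz F X Z n f) := by
  refine Submodule.span_induction (p := fun g _ =>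
    (lin (dz F X Z n f) : Module.End K (F.obj (tpow X n ⊗ Z)).V) * lin (F.map g) =
      lin (F.map g) * lin (dz F X Z n f)) ?_ ?_ ?_ ?_ hg
  · rintro g ⟨s, z, hs, rfl⟩
    exact congrArg (fun t => (lin t : Module.End K (F.obj (tpow X n ⊗ Z)).V))
      (dz_perm F X Z n f s hs z)
  · rw [F.map_zero]
    have h0 : (lin (0 : F.obj (tpow X n ⊗ Z) ⟶ F.obj (tpow X n ⊗ Z)) :
      Module.End K (F.obj (tpow X n ⊗ Z)).V) = 0 := rfl
    rw [h0, mul_zero, zero_mul]
  · intro x y _ _ hx hy
    have h0 : (lin (F.map (x + y)) : Module.End K (F.obj (tpow X n ⊗ Z)).V) =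
      lin (F.map x) + lin (F.map y) := by rw [F.map_add]; rfl
    rw [h0, mul_add, add_mul, hx, hy]
  · intro q x _ hx
    have h0 : (lin (F.map (q • x)) : Module.End K (F.obj (tpow X n ⊗ Z)).V) =
      (q : K) • (lin (F.map x) : Module.End K (F.obj (tpow X n ⊗ Z)).V) := lin_map_rat_smul F q x
    rw [h0, mul_smul_comm, smul_mul_assoc, hx]

/-- **Cancellation of Schur functors.** -/
theorem cplus_of_schur [MonoidalPreadditive C] (X Y Z : C) (n : ℕ) (hn : 0 < n)
    (i : Y ⟶ tpow X n ⊗ Z) (r : tpow X n ⊗ Z ⟶ Y) (hir : i ≫ r = 𝟙 Y)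
    (hs : r ≫ i ∈ Submodule.span ℚ {g : tpow X n ⊗ Z ⟶ tpow X n ⊗ Z |
      ∃ (s : tpow X n ⟶ tpow X n) (z : Z ⟶ Z), IsPerm X n s ∧ g = s ⊗ₘ z})
    (hY : Nontrivial (F.obj Y).V) (h : CPlus F Y) : CPlus F X := by
  classical
  have fX := map_finite F X
  have fT := map_finite F (tpow X n ⊗ Z)
  -- trivial cases
  by_cases h0 : pp ((F.obj X).par.hom : Module.End K (F.obj X).V) = 0
  · exact cplus_of_pp_zero F h0
  by_cases h0' : pm ((F.obj X).par.hom : Module.End K (F.obj X).V) = 0
  · exact cplus_of_pm_zero F h0'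
  -- the parity operator on the image of the idempotent
  rw [cplus_iff_parHom] at h
  obtain ⟨q, hq⟩ := h
  set e : tpow X n ⊗ Z ⟶ tpow X n ⊗ Z := r ≫ i with he
  set w : tpow X n ⊗ Z ⟶ tpow X n ⊗ Z := r ≫ q ≫ i with hw
  have hFw : F.map w = F.map e ≫ parHom (F.obj (tpow X n ⊗ Z)) := by
    rw [hw, he, F.map_comp, F.map_comp, hq, parHom_natural, F.map_comp, Category.assoc]
  set E : Module.End K (F.obj (tpow X n ⊗ Z)).V := lin (F.map e) with hE
  have hEE : E * E = E := by
    have h1 : e ≫ e = e := by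
      rw [he, Category.assoc, ← Category.assoc i r i, hir, Category.id_comp]
    have h2 := lin_map_comp F e e
    rw [h1] at h2
    exact h2.symm
  obtain ⟨p, hp0⟩ := exists_contract F X n (parTrace w)
  have hp : ∀ f : F.obj X ⟶ F.obj X,
      str (F.obj X) (f ≫ F.map p) = str (F.obj (tpow X n ⊗ Z)) (dz F X Z n f ≫ F.map w) := by
    intro f
    rw [hp0, str_right]
    rfl
  -- the trace form of p
  have hform : ∀ f : F.obj X ⟶ F.obj X, str (F.obj X) (f ≫ F.map p) =
      LinearMap.trace K (F.obj (tpow X n ⊗ Z)).V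
        ((lin (dz F X Z n f) : Module.End K (F.obj (tpow X n ⊗ Z)).V) * E) := by
    intro f
    rw [hp, hFw]
    set PT : Module.End K (F.obj (tpow X n ⊗ Z)).V := (F.obj (tpow X n ⊗ Z)).par.hom with hPT
    have h1 : str (F.obj (tpow X n ⊗ Z)) (dz F X Z n f ≫ F.map e ≫ parHom (F.obj (tpow X n ⊗ Z))) =
        LinearMap.trace K (F.obj (tpow X n ⊗ Z)).V (PT * (PT * (E * lin (dz F X Z n f)))) := rfl
    have h2 : PT * (PT * (E * lin (dz F X Z n f))) = E * lin (dz F X Z n f) := by
      rw [← mul_assoc, par_mul_par, one_mul]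
    rw [h1, h2, LinearMap.trace_mul_comm]
  have hcomm : ∀ f : F.obj X ⟶ F.obj X,
      (lin (dz F X Z n f) : Module.End K (F.obj (tpow X n ⊗ Z)).V) * E = E * lin (dz F X Z n f) :=
    fun f => dz_span F X Z n f e hs
  -- p is central
  have hcentral : ∀ f : F.obj X ⟶ F.obj X, f ≫ F.map p = F.map p ≫ f := by
    intro f
    rw [← sub_eq_zero]
    refine str_nondeg _ fun g => ?_
    rw [Preadditive.comp_sub, str_sub, ← Category.assoc, ← Category.assoc]
    have h1 : str (F.obj X) ((g ≫ F.map p) ≫ f) = str (F.obj X) ((f ≫ g) ≫ F.map p) := by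
      rw [str_cyc, Category.assoc]
    rw [h1, hform, hform, ← map_sub, ← sub_mul]
    have h2 := congrArg (fun t => (lin t : Module.End K (F.obj (tpow X n ⊗ Z)).V)) (dz_comm F X Z n f g)
    have h3 : (lin (dz F X Z n (f ≫ g) + dz F X Z n g ≫ dz F X Z n f) :
        Module.End K (F.obj (tpow X n ⊗ Z)).V) =
      lin (dz F X Z n (f ≫ g)) + (lin (dz F X Z n f) : Module.End K (F.obj (tpow X n ⊗ Z)).V) *
        lin (dz F X Z n g) := rfl
    have h4 : (lin (dz F X Z n (g ≫ f) + dz F X Z n f ≫ dz F X Z n g) :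
        Module.End K (F.obj (tpow X n ⊗ Z)).V) =
      lin (dz F X Z n (g ≫ f)) + (lin (dz F X Z n g) : Module.End K (F.obj (tpow X n ⊗ Z)).V) *
        lin (dz F X Z n f) := rfl
    simp only [h3, h4] at h2
    have h5 : (lin (dz F X Z n (g ≫ f)) : Module.End K (F.obj (tpow X n ⊗ Z)).V) -
          lin (dz F X Z n (f ≫ g)) =
        (lin (dz F X Z n f) : Module.End K (F.obj (tpow X n ⊗ Z)).V) * lin (dz F X Z n g) -
          (lin (dz F X Z n g) : Module.End K (F.obj (tpow X n ⊗ Z)).V) * lin (dz F X Z n f) := by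
      rw [sub_eq_sub_iff_add_eq_add, ← h2]
      abel
    rw [h5, sub_mul, map_sub]
    have h6 : LinearMap.trace K (F.obj (tpow X n ⊗ Z)).V
        ((lin (dz F X Z n f) : Module.End K (F.obj (tpow X n ⊗ Z)).V) *
        lin (dz F X Z n g) * E) = LinearMap.trace K (F.obj (tpow X n ⊗ Z)).V
          ((lin (dz F X Z n g) : Module.End K (F.obj (tpow X n ⊗ Z)).V) * lin (dz F X Z n f) * E) := by
      rw [mul_assoc, hcomm, ← mul_assoc, LinearMap.trace_mul_comm, ← mul_assoc]
    rw [h6, sub_self]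
  obtain ⟨c, hc⟩ := central_pp (F.map p) hcentral
  obtain ⟨c', hc'⟩ := central_pm (F.map p) hcentral
  -- values of the trace form on the projectors
  set P : Module.End K (F.obj X).V := pp ((F.obj X).par.hom : Module.End K (F.obj X).V) with hP
  set P' : Module.End K (F.obj X).V := pm ((F.obj X).par.hom : Module.End K (F.obj X).V) with hP'
  have hgP : (lin (F.map p) : Module.End K (F.obj X).V) * P = c • P := LinearMap.ext hc
  have hgP' : (lin (F.map p) : Module.End K (F.obj X).V) * P' = c' • P' := LinearMap.ext hc'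
  have v1 : str (F.obj X) ((F.obj X).evenProj ≫ F.map p) = c * ((F.obj X).evenDim : K) := by
    have h1 : str (F.obj X) ((F.obj X).evenProj ≫ F.map p) = LinearMap.trace K (F.obj X).V
      ((F.obj X).par.hom * ((lin (F.map p) : Module.End K (F.obj X).V) * P)) := rfl
    rw [h1, hgP, mul_smul_comm, map_smul, trace_par_pp, smul_eq_mul]
  have v2 : str (F.obj X) (oddProj (F.obj X) ≫ F.map p) = -(c' * ((F.obj X).oddDim : K)) := by
    have h1 : str (F.obj X) (oddProj (F.obj X) ≫ F.map p) = LinearMap.trace K (F.obj X).V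
      ((F.obj X).par.hom * ((lin (F.map p) : Module.End K (F.obj X).V) *
        lin (oddProj (F.obj X)))) := rfl
    rw [h1, lin_oddProj, hgP', mul_smul_comm, map_smul, trace_par_pm, smul_eq_mul, mul_neg]
  obtain ⟨m, hm⟩ := natDiag_trace (natDiag_dz F X Z n (F.obj X).evenProj
    (natDiag_idem (pp_mul_pp (par_mul_par (F.obj X))))) hEE (hcomm _)
  obtain ⟨m', hm'⟩ := natDiag_trace (natDiag_dz F X Z n (oddProj (F.obj X))
    (natDiag_idem (by rw [lin_oddProj]; exact pm_mul_pm (par_mul_par (F.obj X))))) hEE (hcomm _)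
  have e1 : c * ((F.obj X).evenDim : K) = m := by rw [← v1, hform, hm]
  have e2 : -(c' * ((F.obj X).oddDim : K)) = m' := by rw [← v2, hform, hm']
  have e3 : (m : K) + m' = n * (Module.finrank K (LinearMap.range E) : K) := by
    rw [← hm, ← hm', ← map_add, ← add_mul]
    have h1 : (lin (dz F X Z n (F.obj X).evenProj) : Module.End K (F.obj (tpow X n ⊗ Z)).V) +
        lin (dz F X Z n (oddProj (F.obj X))) = (n : K) • 1 := by
      have h2 : (lin (dz F X Z n (F.obj X).evenProj) : Module.End K (F.obj (tpow X n ⊗ Z)).V) +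
        lin (dz F X Z n (oddProj (F.obj X))) =
          lin (dz F X Z n (F.obj X).evenProj + dz F X Z n (oddProj (F.obj X))) := rfl
      rw [h2, ← dz_add, oddProj, add_sub_cancel, dz_id, lin_nsmul]
      rfl
    rw [h1, smul_mul_assoc, one_mul, map_smul, trace_idem hEE, smul_eq_mul]
  have hrk : 0 < Module.finrank K (LinearMap.range E) := by
    rw [Nat.pos_iff_ne_zero]
    intro h1
    have h2 : E = 0 := by
      rw [← LinearMap.range_eq_bot]
      exact Submodule.finrank_eq_zero.mp h1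
    have h3 : (lin (F.map (𝟙 Y)) : Module.End K (F.obj Y).V) = 0 := by
      have h4 : 𝟙 Y = i ≫ e ≫ r := by
        rw [he, Category.assoc, hir, Category.comp_id, hir]
      rw [h4, lin_map_comp, lin_map_comp]
      have h5 : lin (F.map e) = 0 := h2
      rw [h5, LinearMap.comp_zero, LinearMap.zero_comp]
    have h6 : (lin (F.map (𝟙 Y)) : Module.End K (F.obj Y).V) = 1 := by
      rw [F.map_id]
      rfl
    rw [h6] at h3
    exact one_ne_zero h3
  have ha : 0 < (F.obj X).evenDim := by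
    rw [Nat.pos_iff_ne_zero]
    intro h1
    rw [evenDim_eq] at h1
    apply h0
    rw [← LinearMap.range_eq_bot]
    exact Submodule.finrank_eq_zero.mp h1
  have hb : 0 < (F.obj X).oddDim := by
    rw [Nat.pos_iff_ne_zero]
    intro h1
    rw [oddDim_eq] at h1
    apply h0'
    rw [← LinearMap.range_eq_bot]
    exact Submodule.finrank_eq_zero.mp h1
  set a := (F.obj X).evenDim with hadef
  set b := (F.obj X).oddDim with hbdef
  have haK : (a : K) ≠ 0 := by exact_mod_cast ha.ne'
  have hbK : (b : K) ≠ 0 := by exact_mod_cast hb.ne'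
  have e4 : m + m' = n * Module.finrank K (LinearMap.range E) := by exact_mod_cast e3
  have e5 : 0 < m + m' := by rw [e4]; exact Nat.mul_pos hn hrk
  have c1 : c = (((m : ℚ) / a : ℚ) : K) := by
    push_cast
    rw [← e1, mul_div_assoc, div_self haK, mul_one]
  have c2 : c' = ((-((m' : ℚ) / b) : ℚ) : K) := by
    push_cast
    rw [← e2, neg_div, neg_neg, mul_div_assoc, div_self hbK, mul_one]
  have hpos : (0 : ℚ) < (m : ℚ) / a - (-((m' : ℚ) / b)) := by
    have ha' : (0 : ℚ) < a := by exact_mod_cast ha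
    have hb' : (0 : ℚ) < b := by exact_mod_cast hb
    rw [sub_neg_eq_add]
    rcases Nat.eq_zero_or_pos m with h1 | h1
    · have h2 : 0 < m' := by omega
      have h3 : (0 : ℚ) < m' := by exact_mod_cast h2
      have h4 : (0 : ℚ) ≤ (m : ℚ) / a := by positivity
      have h5 : (0 : ℚ) < (m' : ℚ) / b := div_pos h3 hb'
      linarith
    · have h3 : (0 : ℚ) < m := by exact_mod_cast h1
      have h4 : (0 : ℚ) < (m : ℚ) / a := div_pos h3 ha'
      have h5 : (0 : ℚ) ≤ (m' : ℚ) / b := by positivity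
      linarith
  rw [cplus_iff]
  have hfin : P = ((((m : ℚ) / a - (-((m' : ℚ) / b)))⁻¹ : ℚ) : K) •
      ((lin (F.map p) : Module.End K (F.obj X).V) - ((-((m' : ℚ) / b) : ℚ) : K) • 1) := by
    have h1 : (lin (F.map p) : Module.End K (F.obj X).V) = c • P + c' • P' := by
      rw [← hgP, ← hgP', ← mul_add, hP, hP', pp_add_pm, mul_one]
    have h2 : (1 : Module.End K (F.obj X).V) = P + P' := by rw [hP, hP', pp_add_pm]
    rw [h1, h2, ← c2]
    have h3 : c • P + c' • P' - c' • (P + P') = (c - c') • P := by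
      rw [smul_add, sub_smul]
      abel
    rw [h3, smul_smul]
    have h4 : c - c' = ((((m : ℚ) / a - (-((m' : ℚ) / b))) : ℚ) : K) := by
      rw [c1, c2]
      push_cast
      ring
    rw [h4, ← Rat.cast_mul, inv_mul_cancel₀ hpos.ne', Rat.cast_one, one_smul]
  change P ∈ algRing F X
  rw [hfin]
  exact algRing_smul F _ _ ((algRing F X).sub_mem ⟨p, rfl⟩
    (algRing_smul F _ _ (algRing F X).one_mem))

/-- The converse: `C⁺` for `X` implies `C⁺` for every direct factor of a tensor power. -/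
theorem cplus_retract {Y T : C} (i : Y ⟶ T) (r : T ⟶ Y) (hir : i ≫ r = 𝟙 Y) (h : CPlus F T) :
    CPlus F Y := by
  rw [cplus_iff_parHom] at h ⊢
  obtain ⟨q, hq⟩ := h
  refine ⟨i ≫ q ≫ r, ?_⟩
  rw [F.map_comp, F.map_comp, hq, parHom_natural, ← Category.assoc, ← F.map_comp, hir, F.map_id,
    Category.id_comp]

theorem cplus_unit : CPlus F (𝟙_ C) := by
  rw [cplus_iff_parHom]
  refine ⟨𝟙 _, ?_⟩
  have h1 : parHom (F.obj (𝟙_ C)) = η F ≫ parHom (𝟙_ (SVect K)) ≫ ε F := by
    rw [parHom_natural, η_ε_assoc]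
  have h2 : parHom (𝟙_ (SVect K)) = 𝟙 _ := rfl
  rw [h1, h2, Category.id_comp, η_ε, F.map_id]

theorem cplus_tpow {X : C} (h : CPlus F X) (n : ℕ) : CPlus F (tpow X n) := by
  induction n with
  | zero => exact cplus_unit F
  | succ n ih => exact cplus_tensor F ih h

end Cat

end NCSign
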