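import Mathlib
import Pool.Agent.Lib_MP_8f22fa_ag.Lift

/-!
# Tensor cancellation for the statement `C⁺`
-/

open CategoryTheory MonoidalCategory NCSuper

universe u v₁ u₁

namespace Pool.Agent.Lib_MP_8f22fa_ag.TensorCancellation

/-- **Tensor cancellation.** If `F(X)` and `F(Y)` are non-zero then `C⁺` holds for `X ⊗ Y` if and
only if it holds for `X` and for `Y`. -/
theorem result {C : Type u₁} [Category.{v₁} C] [Preadditive C] [Linear ℚ C] [MonoidalCategory C]
    [MonoidalPreadditive C] [SymmetricCategory C] [RightRigidCategory C]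
    {K : Type u} [Field K] [CharZero K] (F : C ⥤ ModuleCat.{u} K) [F.Additive] [F.Monoidal]
    (par : F ⟶ F) (hpar : IsParity F par) (X Y : C)
    (hX : Nontrivial (F.obj X)) (hY : Nontrivial (F.obj Y)) :
    CPlus par (X ⊗ Y) ↔ CPlus par X ∧ CPlus par Y := by
  rw [← cplus_lift hpar, ← cplus_lift hpar, ← cplus_lift hpar]
  exact NCSign.cplus_tensor_iff (lift hpar) hX hY

end Pool.Agent.Lib_MP_8f22fa_ag.TensorCancellation
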